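import Pool.Agent.Lib.MP_17a322_nt.EQ.Defs

/-!
The inequality for the Jacobian minors of the polynomial maps, and the case `D = 0` of Vojta's
conjecture for all projective varieties, smooth or not: definitions.

Heights are not divided by `[K : ℚ]`, see the file `EQ/Defs.lean`, which has the definitions of `IsPt`,
`Tan` and `hCan`.
-/

universe u

namespace Pool.Agent.Lib.MP_17a322_nt.JAC

open MvPolynomial Height NumberField
open Pool.Agent.Lib.MP_17a322_nt.EQ

/-- The inequality for the Jacobian minors. For all forms `Φ a`, `a ∈ κ`, of the same degree in the
variables `X j`, `j ∈ τ`, and every `ε > 0`, outside a hypersurface `G = 0` the height of the vector of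
all minors of order `|τ|` of the matrix of the partial derivatives of the `Φ a` at `w` is at most `|τ|`
times the height of the vector `Φ(w)` plus `ε h(w) + O(1)`. (The coordinates of the vector of the minors
are indexed by the maps `s` from `τ` to `κ`; those of maps which are not injective are zero, the others
are the minors with a sign.) -/
def JacIneq (K : Type u) [Field K] [NumberField K] : Prop :=
  ∀ (τ κ : Type) [Fintype τ] [DecidableEq τ] [Fintype κ] (Φ : κ → MvPolynomial τ K) (d : ℕ),
    (∀ a, (Φ a).IsHomogeneous d) → ∀ ε : ℝ, 0 < ε →
    ∃ (G : MvPolynomial τ K) (C : ℝ), G ≠ 0 ∧ (∃ d', G.IsHomogeneous d') ∧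
      ∀ w : τ → K, eval w G ≠ 0 →
        logHeight (fun s : τ → κ => (Matrix.of fun i j => eval w (pderiv j (Φ (s i)))).det) ≤
          Fintype.card τ * logHeight (fun a => eval w (Φ a)) + ε * logHeight w + C

/-- The case `D = 0` of Vojta's conjecture for rational points, for all projective varieties over `K`,
which may be singular: for every homogeneous prime ideal `J` and every `ε > 0` there is a proper closed
subset `G = 0` outside which `hCan ≤ ε h + O(1)` holds for the points over `K`, where `hCan` is the height
of the tangent space of the cone at `p` minus its dimension times the height of `p`. For smooth varieties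
`hCan` is the height with respect to the canonical class. -/
def VojtaGauss (K : Type u) [Field K] [NumberField K] : Prop :=
  ∀ (ι : Type) [Fintype ι] (J : Ideal (MvPolynomial ι K)), J.IsPrime →
    (∀ F ∈ J, ∀ i, homogeneousComponent i F ∈ J) → ∀ ε : ℝ, 0 < ε →
    ∃ (G : MvPolynomial ι K) (C : ℝ), G ∉ J ∧ (∃ d, G.IsHomogeneous d) ∧
      ∀ p : ι → K, IsPt J p → eval p G ≠ 0 → hCan J p ≤ ε * logHeight p + C

end Pool.Agent.Lib.MP_17a322_nt.JAC
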