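import Pool.Agent.Lib.MP_17a322_nt.JAC.V0
import Pool.Agent.Lib.MP_17a322_nt.EQ.Int
import Pool.Agent.Lib.MP_17a322_nt.JAC.Defs

/-!
Auxiliary definitions for the proof that the inequality for Jacobian minors implies `VojtaGauss`.
-/

universe u

namespace Pool.Agent.Lib.MP_17a322_nt.JAC

open MvPolynomial Height NumberField
open Pool.Agent.Lib.MP_17a322_nt.EQ

section

variable {K L τ κ : Type*} [Field K] [CommRing L] [Algebra K L]

/-- The value and the partial derivatives of `P` at `w`. -/
noncomputable def jet (w : τ → L) (P : MvPolynomial τ K) : Option τ → L := fun j =>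
  j.elim (aeval w P) fun j => aeval w (pderiv j P)

/-- The minors of the matrix of the jets of the polynomials `φ a`. -/
noncomputable def mnr [Fintype τ] [DecidableEq τ] (w : τ → L) (φ : κ → MvPolynomial τ K)
    (s : Option τ → κ) : L :=
  (Matrix.of fun i j => jet w (φ (s i)) j).det

end

/-- The inhomogeneous form of `JacIneq`. -/
def JacAff (K : Type u) [Field K] [NumberField K] : Prop :=
  ∀ (τ κ : Type) [Fintype τ] [DecidableEq τ] [Fintype κ] (φ : κ → MvPolynomial τ K) (ε : ℝ), 0 < ε →
    ∃ (G : MvPolynomial τ K) (C : ℝ), G ≠ 0 ∧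
      ∀ w : τ → K, eval w G ≠ 0 →
        logHeight (mnr w φ) ≤ (Fintype.card τ + 1) * logHeight (fun a => eval w (φ a)) +
          ε * logHeight (fun o : Option τ => o.elim 1 w) + C

section

variable {K : Type u} [Field K] {ι : Type}

/-- The field of fractions of the ring of the affine variety with the ideal `I`. -/
abbrev FF (I : Ideal (MvPolynomial ι K)) [I.IsPrime] : Type u := FractionRing (MvPolynomial ι K ⧸ I)

/-- The generic point. -/
noncomputable def gn (I : Ideal (MvPolynomial ι K)) [I.IsPrime] (i : ι) : FF I :=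
  algebraMap (MvPolynomial ι K ⧸ I) (FF I) (Ideal.Quotient.mk I (X i))

theorem aeval_gn (I : Ideal (MvPolynomial ι K)) [I.IsPrime] (P : MvPolynomial ι K) :
    aeval (gn I) P = algebraMap (MvPolynomial ι K ⧸ I) (FF I) (Ideal.Quotient.mk I P) := by
  have h : (aeval (gn I) : MvPolynomial ι K →ₐ[K] FF I) =
      (IsScalarTower.toAlgHom K (MvPolynomial ι K ⧸ I) (FF I)).comp (Ideal.Quotient.mkₐ K I) := by
    apply MvPolynomial.algHom_ext
    intro i
    simp [gn]
  rw [h]
  rfl

theorem aeval_gn_eq_zero (I : Ideal (MvPolynomial ι K)) [I.IsPrime] (P : MvPolynomial ι K) :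
    aeval (gn I) P = 0 ↔ P ∈ I := by
  rw [aeval_gn, FaithfulSMul.algebraMap_eq_zero_iff, Ideal.Quotient.eq_zero_iff_mem]

/-- The ideal of the affine variety `X_{i₀} ≠ 0` of the projective variety with the ideal `J`. -/
noncomputable def dh (J : Ideal (MvPolynomial ι K)) [J.IsPrime] (i₀ : ι) : Ideal (MvPolynomial ι K) :=
  RingHom.ker (aeval (R := K) fun i => gn J i / gn J i₀)

/-- The ring of the functions on the affine variety with the ideal `I` which are regular where `B ≠ 0`. -/
abbrev RB (I : Ideal (MvPolynomial ι K)) (B : MvPolynomial ι K) : Type u :=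
  Localization.Away (Ideal.Quotient.mk I B)

end

section

variable {K : Type*} [Field K] {ι τ S : Type*} [Fintype S]

/-- The products of the `u g` with `A g = true` and of the `v g` with `A g = false`. -/
noncomputable def phiS (u v : S → MvPolynomial τ K) (A : S → Bool) : MvPolynomial τ K :=
  ∏ g, if A g then u g else v g

end

section

variable {k F α σ : Type*} [Field k] [Field F] [Algebra k F]

/-- The quotient of the polynomials `u` and `v` represents the monomial `g = (b, m)`: at every point `(x, t)` with
nonzero `t s` the quotient has the value `b * t ^ m`, and its partial derivatives are those of the monomial (`δ l` is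
the derivation `∂ / ∂ x l`). -/
def Rep [Fintype σ] (δ : α → Derivation k F F) (x : α → F) (u v : MvPolynomial (α ⊕ σ) k)
    (g : F × (σ → ℤ)) : Prop :=
  ∀ t : σ → F, (∀ s, t s ≠ 0) →
    aeval (Sum.elim x t) u ≠ 0 ∧ aeval (Sum.elim x t) v ≠ 0 ∧
    aeval (Sum.elim x t) u / aeval (Sum.elim x t) v = vl t g ∧
    ∀ j, (aeval (Sum.elim x t) v * aeval (Sum.elim x t) (pderiv j u) -
        aeval (Sum.elim x t) u * aeval (Sum.elim x t) (pderiv j v)) / aeval (Sum.elim x t) v ^ 2 =
      vl t g * Sum.elim (fun l => δ l g.1 / g.1) (fun s => (g.2 s : F) / t s) j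

end

end Pool.Agent.Lib.MP_17a322_nt.JAC
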