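import Pool.Agent.Lib.MP_17a322_nt.JAC.B1
import Pool.Agent.Lib.MP_17a322_nt.EQ.TR

universe u

namespace Pool.Agent.Lib.MP_17a322_nt.JAC

open MvPolynomial hiding psum
open Height NumberField
open Pool.Agent.Lib.MP_17a322_nt.EQ

variable {K : Type u} [Field K] {ι : Type}

/-- Common denominators in `RB I B`. -/
private theorem B2_rep (I : Ideal (MvPolynomial ι K)) (B : MvPolynomial ι K) {S : Type*} [Finite S]
    (f : S → RB I B) : ∃ (n : ℕ) (Q : S → MvPolynomial ι K), ∀ s,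
      f s * algebraMap (MvPolynomial ι K ⧸ I) (RB I B) (Ideal.Quotient.mk I B) ^ n =
        algebraMap (MvPolynomial ι K ⧸ I) (RB I B) (Ideal.Quotient.mk I (Q s)) := by
  obtain ⟨⟨b, n, hb⟩, hint⟩ := IsLocalization.exist_integer_multiples_of_finite
    (Submonoid.powers (Ideal.Quotient.mk I B)) f
  have h1 : ∀ s, ∃ Q : MvPolynomial ι K,
      f s * algebraMap (MvPolynomial ι K ⧸ I) (RB I B) (Ideal.Quotient.mk I B) ^ n =
        algebraMap (MvPolynomial ι K ⧸ I) (RB I B) (Ideal.Quotient.mk I Q) := by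
    intro s
    obtain ⟨a, ha⟩ := hint s
    obtain ⟨Q, rfl⟩ := Ideal.Quotient.mk_surjective a
    refine ⟨Q, ?_⟩
    rw [ha, Algebra.smul_def, mul_comm, ← map_pow]
    have hb' : Ideal.Quotient.mk I B ^ n = b := hb
    rw [hb']
  choose Q hQ using h1
  exact ⟨n, Q, hQ⟩

private theorem B2_unit (I : Ideal (MvPolynomial ι K)) (B : MvPolynomial ι K) :
    IsUnit (algebraMap (MvPolynomial ι K ⧸ I) (RB I B) (Ideal.Quotient.mk I B)) :=
  IsLocalization.Away.algebraMap_isUnit _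

/-- The embedding into the function field is injective. -/
theorem emb_inj (I : Ideal (MvPolynomial ι K)) [I.IsPrime] {B : MvPolynomial ι K} (hB : B ∉ I) :
    Function.Injective (emb I hB) := by
  rw [injective_iff_map_eq_zero]
  intro r hr
  obtain ⟨n, Q, hQ⟩ := B2_rep I B (fun _ : Unit => r)
  have h1 := hQ ()
  have h2 : aeval (gn I) (Q ()) = 0 := by
    rw [← emb_mk I hB, ← h1, map_mul, hr, zero_mul]
  rw [aeval_gn_eq_zero] at h2
  rw [Ideal.Quotient.eq_zero_iff_mem.2 h2, map_zero] at h1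
  exact (((B2_unit I B).pow n).mul_left_eq_zero).1 h1

/-- Common denominators. -/
theorem common_den (I : Ideal (MvPolynomial ι K)) [I.IsPrime] {S : Type*} [Finite S] (f : S → FF I) :
    ∃ (B : MvPolynomial ι K) (N : S → MvPolynomial ι K), B ∉ I ∧
      ∀ s, f s * aeval (gn I) B = aeval (gn I) (N s) := by
  obtain ⟨⟨b, hb⟩, hint⟩ := IsLocalization.exist_integer_multiples_of_finite
    (nonZeroDivisors (MvPolynomial ι K ⧸ I)) f
  obtain ⟨B, rfl⟩ := Ideal.Quotient.mk_surjective b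
  have h1 : ∀ s, ∃ N : MvPolynomial ι K, f s * aeval (gn I) B = aeval (gn I) N := by
    intro s
    obtain ⟨a, ha⟩ := hint s
    obtain ⟨N, rfl⟩ := Ideal.Quotient.mk_surjective a
    refine ⟨N, ?_⟩
    rw [aeval_gn, aeval_gn, ha, Algebra.smul_def, mul_comm]
  choose N hN using h1
  refine ⟨B, N, ?_, hN⟩
  intro hBI
  exact nonZeroDivisors.ne_zero hb (Ideal.Quotient.eq_zero_iff_mem.2 hBI)

/-- The element `N / B₁` of `RB I (B₁ * B₂)`: existence with its image in the function field and its values. -/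
theorem exists_quot (I : Ideal (MvPolynomial ι K)) [I.IsPrime] {B B₁ B₂ : MvPolynomial ι K} (hBB : B = B₁ * B₂)
    (hB : B ∉ I) (N : MvPolynomial ι K) :
    ∃ r : RB I B, emb I hB r = aeval (gn I) N / aeval (gn I) B₁ ∧
      ∀ (z : ι → K) (hz : ∀ H ∈ I, eval z H = 0) (hBz : eval z B ≠ 0),
        evz I hz hBz r = eval z N / eval z B₁ := by
  have hB₂ : aeval (gn I) B₂ ≠ 0 := by
    intro h
    rw [aeval_gn_eq_zero] at h
    apply hB
    rw [hBB]
    exact I.mul_mem_left _ h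
  obtain ⟨y, hy⟩ := (B2_unit I B).exists_right_inv
  refine ⟨algebraMap (MvPolynomial ι K ⧸ I) (RB I B) (Ideal.Quotient.mk I (N * B₂)) * y, ?_, ?_⟩
  · have h1 : aeval (gn I) B * emb I hB y = 1 := by
      rw [← emb_mk I hB, ← map_mul, hy, map_one]
    have h2 : emb I hB y = (aeval (gn I) B)⁻¹ := eq_inv_of_mul_eq_one_right h1
    rw [map_mul, emb_mk, h2, hBB, map_mul, map_mul, mul_inv, mul_assoc, div_eq_mul_inv,
      mul_comm (aeval (gn I) B₁)⁻¹, ← mul_assoc (aeval (gn I) B₂), mul_inv_cancel₀ hB₂, one_mul]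
  · intro z hz hBz
    have hBz₂ : eval z B₂ ≠ 0 := by
      intro h
      apply hBz
      rw [hBB, map_mul, h, mul_zero]
    have h1 : eval z B * evz I hz hBz y = 1 := by
      rw [← evz_mk I hz hBz, ← map_mul, hy, map_one]
    have h2 : evz I hz hBz y = (eval z B)⁻¹ := eq_inv_of_mul_eq_one_right h1
    rw [map_mul, evz_mk, h2, hBB, map_mul, map_mul, mul_inv, mul_assoc, div_eq_mul_inv,
      mul_comm (eval z B₁)⁻¹, ← mul_assoc (eval z B₂), mul_inv_cancel₀ hBz₂, one_mul]

/-- The transfer lemma for functions regular where `B ≠ 0`. -/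
theorem TRB [NumberField K] (I : Ideal (MvPolynomial ι K)) [I.IsPrime] {B : MvPolynomial ι K} (hB : B ∉ I)
    {σ : Type} [Fintype σ] [Nonempty σ] (f : RB I B) (g : σ → RB I B)
    (h : ∀ A : ValuationSubring (FF I), (∀ c : K, algebraMap K (FF I) c ∈ A) →
      ∃ j, A.valuation (emb I hB f) ≤ A.valuation (emb I hB (g j))) :
    ∃ C : Pl K → ℝ, (∀ v, 1 ≤ C v) ∧ {w : FinitePlace K | C (Sum.inr w) ≠ 1}.Finite ∧
      ∀ (v : Pl K) (z : ι → K) (hz : ∀ H ∈ I, eval z H = 0) (hBz : eval z B ≠ 0),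
        av v (evz I hz hBz f) ≤ C v * ⨆ j, av v (evz I hz hBz (g j)) := by
  obtain ⟨n, Q, hQ⟩ := B2_rep I B (fun o : Option σ => o.elim f g)
  have hf := hQ none
  have hg := fun j => hQ (some j)
  simp only [Option.elim_none] at hf
  simp only [Option.elim_some] at hg
  have hex : ∀ (r : RB I B) (P : MvPolynomial ι K),
      r * algebraMap (MvPolynomial ι K ⧸ I) (RB I B) (Ideal.Quotient.mk I B) ^ n =
        algebraMap (MvPolynomial ι K ⧸ I) (RB I B) (Ideal.Quotient.mk I P) →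
      algebraMap (MvPolynomial ι K ⧸ I) (FF I) (Ideal.Quotient.mk I P) =
        emb I hB r * aeval (gn I) B ^ n := by
    intro r P hr
    rw [← aeval_gn, ← emb_mk I hB, ← hr, map_mul, map_pow, emb_mk]
  have hez : ∀ (r : RB I B) (P : MvPolynomial ι K),
      r * algebraMap (MvPolynomial ι K ⧸ I) (RB I B) (Ideal.Quotient.mk I B) ^ n =
        algebraMap (MvPolynomial ι K ⧸ I) (RB I B) (Ideal.Quotient.mk I P) →
      ∀ (z : ι → K) (hz : ∀ H ∈ I, eval z H = 0) (hBz : eval z B ≠ 0),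
      eval z P = evz I hz hBz r * eval z B ^ n := by
    intro r P hr z hz hBz
    rw [← evz_mk I hz hBz, ← hr, map_mul, map_pow, evz_mk]
  obtain ⟨C, hC1, hC2, hC3⟩ := transfer I (Q none) (fun j => Q (some j)) (by
    intro A hA
    obtain ⟨j, hj⟩ := h A hA
    refine ⟨j, ?_⟩
    rw [hex _ _ hf, hex _ _ (hg j), map_mul, map_mul]
    exact mul_le_mul' hj le_rfl)
  refine ⟨C, hC1, hC2, ?_⟩
  intro v z hz hBz
  have h1 := hC3 v z hz
  rw [hez _ _ hf z hz hBz, map_mul] at h1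
  have h2 : ∀ j, av v (eval z (Q (some j))) = av v (evz I hz hBz (g j)) * av v (eval z B ^ n) := by
    intro j
    rw [hez _ _ (hg j) z hz hBz, map_mul]
  simp only [h2] at h1
  have h3 : 0 < av v (eval z B ^ n) := (av v).pos (pow_ne_zero n hBz)
  rw [← Real.iSup_mul_of_nonneg h3.le, ← mul_assoc] at h1
  exact le_of_mul_le_mul_right h1 h3

end Pool.Agent.Lib.MP_17a322_nt.JAC
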