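import Pool.Agent.Lib.MP_17a322_nt.JAC.B0

universe u

namespace Pool.Agent.Lib.MP_17a322_nt.JAC

open MvPolynomial hiding psum
open Height NumberField
open Pool.Agent.Lib.MP_17a322_nt.EQ

/-- The elements of the field generated by the `x l` are quotients of polynomials. -/
theorem B12_quot {K F α : Type*} [Field K] [Field F] [Algebra K F] (x : α → F) {y : F}
    (hy : y ∈ Subfield.closure (Set.range (algebraMap K F) ∪ Set.range x)) :
    ∃ a a' : MvPolynomial α K, aeval x a' ≠ 0 ∧ y * aeval x a' = aeval x a := by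
  induction hy using Subfield.closure_induction with
  | mem y hy =>
    rcases hy with ⟨c, rfl⟩ | ⟨l, rfl⟩
    · exact ⟨C c, 1, by simp, by simp [MvPolynomial.algebraMap_eq]⟩
    · exact ⟨X l, 1, by simp, by simp⟩
  | one => exact ⟨1, 1, by simp, by simp⟩
  | add y z _ _ hy hz =>
    obtain ⟨a, a', h1, h2⟩ := hy
    obtain ⟨c, c', h3, h4⟩ := hz
    refine ⟨a * c' + c * a', a' * c', ?_, ?_⟩
    · rw [map_mul]
      exact mul_ne_zero h1 h3
    · simp only [map_mul, map_add, ← h2, ← h4]
      ring
  | neg y _ hy =>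
    obtain ⟨a, a', h1, h2⟩ := hy
    exact ⟨-a, a', h1, by rw [map_neg, ← h2]; ring⟩
  | inv y _ hy =>
    obtain ⟨a, a', h1, h2⟩ := hy
    by_cases h0 : y = 0
    · exact ⟨0, 1, by simp, by simp [h0]⟩
    · refine ⟨a', a, ?_, ?_⟩
      · rw [← h2]
        exact mul_ne_zero h0 h1
      · rw [← h2]
        field_simp
  | mul y z _ _ hy hz =>
    obtain ⟨a, a', h1, h2⟩ := hy
    obtain ⟨c, c', h3, h4⟩ := hz
    refine ⟨a * c, a' * c', ?_, ?_⟩
    · rw [map_mul]
      exact mul_ne_zero h1 h3
    · simp only [map_mul, ← h2, ← h4]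
      ring

/-- The derivations on values of polynomials. -/
theorem B12_deriv {K F α : Type*} [Field K] [Field F] [Algebra K F] [DecidableEq α]
    (δ : α → Derivation K F F) (x : α → F) (hx : ∀ l l', δ l (x l') = if l = l' then 1 else 0)
    (l : α) (p : MvPolynomial α K) : δ l (aeval x p) = aeval x (pderiv l p) := by
  induction p using MvPolynomial.induction_on with
  | C c => simp
  | add p q hp hq => rw [map_add, map_add, hp, hq, map_add, map_add]
  | mul_X p i hp =>
    rw [map_mul, Derivation.leibniz, hp, aeval_X, hx, Derivation.leibniz, map_add, smul_eq_mul,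
      smul_eq_mul, smul_eq_mul, smul_eq_mul, map_mul, map_mul, aeval_X, pderiv_X]
    congr 1
    by_cases h : l = i
    · subst h
      simp
    · rw [if_neg h, Pi.single_eq_of_ne (Ne.symm h), map_zero]

/-- The derivative of a monomial. -/
theorem B12_mono {K F α σ : Type*} [Field K] [Field F] [Algebra K F] [DecidableEq α]
    [DecidableEq σ] (x : α → F) (t : σ → F) (n : σ → ℕ) (s : σ) (S : Finset σ) :
    aeval (Sum.elim x t) (pderiv (Sum.inr s)
      (∏ s' ∈ S, (X (Sum.inr s') : MvPolynomial (α ⊕ σ) K) ^ n s')) * t s =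
      (if s ∈ S then (n s : F) else 0) * ∏ s' ∈ S, t s' ^ n s' := by
  induction S using Finset.induction_on with
  | empty => simp
  | insert a S ha ih =>
    rw [Finset.prod_insert ha, Finset.prod_insert ha, Derivation.leibniz, map_add, smul_eq_mul,
      smul_eq_mul, map_mul, map_mul, map_pow, aeval_X, Sum.elim_inr, add_mul, mul_assoc, ih,
      map_prod, Derivation.leibniz_pow, pderiv_X]
    simp only [map_pow, aeval_X, Sum.elim_inr]
    by_cases h : a = s
    · subst h
      rw [if_neg ha, if_pos (Finset.mem_insert_self a S)]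
      simp only [Pi.single_eq_same, smul_eq_mul, mul_one, nsmul_eq_mul, map_mul, map_natCast,
        map_pow, aeval_X, Sum.elim_inr, zero_mul, mul_zero, zero_add]
      rcases Nat.eq_zero_or_pos (n a) with h0 | h0
      · rw [h0]
        simp
      · obtain ⟨k, hk⟩ : ∃ k, n a = k + 1 := ⟨n a - 1, by omega⟩
        rw [hk, Nat.add_sub_cancel, pow_succ]
        ring
    · have h1 : (Sum.inr a : α ⊕ σ) ≠ Sum.inr s := fun h2 => h (Sum.inr_injective h2)
      rw [Pi.single_eq_of_ne h1]
      have h2 : (s ∈ insert a S) ↔ s ∈ S := by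
        rw [Finset.mem_insert]
        exact ⟨fun h3 => h3.resolve_left fun h4 => h h4.symm, Or.inr⟩
      simp only [h2, smul_zero, map_zero, mul_zero, zero_mul, add_zero]
      ring

/-- A monomial in other variables is a constant. -/
theorem B12_mono' {K α σ : Type*} [Field K] [DecidableEq α]
    [DecidableEq σ] (n : σ → ℕ) (l : α) (S : Finset σ) :
    pderiv (Sum.inl l) (∏ s' ∈ S, (X (Sum.inr s') : MvPolynomial (α ⊕ σ) K) ^ n s') = 0 := by
  induction S using Finset.induction_on with
  | empty => simp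
  | insert a S ha ih =>
    have h1 : (Sum.inr a : α ⊕ σ) ≠ Sum.inl l := by simp
    rw [Finset.prod_insert ha, Derivation.leibniz, ih, Derivation.leibniz_pow, pderiv_X,
      Pi.single_eq_of_ne h1]
    simp

theorem B12_rename {K α σ : Type*} [Field K] [DecidableEq α] [DecidableEq σ]
    (a : MvPolynomial α K) (j : α ⊕ σ) :
    pderiv j (rename (Sum.inl : α → α ⊕ σ) a) =
      j.elim (fun l => rename Sum.inl (pderiv l a)) (fun _ => 0) := by
  induction a using MvPolynomial.induction_on with
  | C c =>
    rw [rename_C, pderiv_C]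
    rcases j with l | s
    · simp
    · simp
  | add p q hp hq =>
    rw [map_add, map_add, hp, hq]
    rcases j with l | s
    · simp
    · simp
  | mul_X p i hp =>
    rw [map_mul, Derivation.leibniz, hp, rename_X, pderiv_X]
    rcases j with l | s
    · simp only [Sum.elim_inl, Derivation.leibniz, map_add, smul_eq_mul, map_mul, rename_X,
        pderiv_X]
      by_cases h : i = l
      · subst h
        simp
      · have h1 : (Sum.inl i : α ⊕ σ) ≠ Sum.inl l := fun h2 => h (Sum.inl_injective h2)
        rw [Pi.single_eq_of_ne h1, Pi.single_eq_of_ne h]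
        simp
    · have h1 : (Sum.inl i : α ⊕ σ) ≠ Sum.inr s := by simp
      rw [Pi.single_eq_of_ne h1]
      simp

/-- Every monomial is represented by a quotient of polynomials. -/
theorem exists_rep {K F α σ : Type*} [Field K] [Field F] [Algebra K F] [Fintype α] [DecidableEq α] [Fintype σ] [DecidableEq σ]
    (δ : α → Derivation K F F) (x : α → F) (hx : ∀ l l', δ l (x l') = if l = l' then 1 else 0)
    (g : F × (σ → ℤ)) (hg : g.1 ∈ Subfield.closure (Set.range (algebraMap K F) ∪ Set.range x)) (hg0 : g.1 ≠ 0) :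
    ∃ u v : MvPolynomial (α ⊕ σ) K, Rep δ x u v g := by
  obtain ⟨b, m⟩ := g
  simp only at hg hg0
  obtain ⟨a, a', h1, h2⟩ := B12_quot x hg
  have h3 : aeval x a ≠ 0 := by
    rw [← h2]
    exact mul_ne_zero hg0 h1
  set A : F := aeval x a with hA
  set A' : F := aeval x a' with hA'
  let M : (σ → ℕ) → MvPolynomial (α ⊕ σ) K := fun n => ∏ s, X (Sum.inr s) ^ n s
  let n1 : σ → ℕ := fun s => (m s).toNat
  let n2 : σ → ℕ := fun s => (-m s).toNat
  refine ⟨rename Sum.inl a * M n1, rename Sum.inl a' * M n2, ?_⟩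
  intro t ht
  have hM : ∀ n : σ → ℕ, aeval (Sum.elim x t) (M n) = ∏ s, t s ^ n s := by
    intro n
    simp only [M, map_prod, map_pow, aeval_X, Sum.elim_inr]
  have hR : ∀ p : MvPolynomial α K, aeval (Sum.elim x t) (rename Sum.inl p) = aeval x p := by
    intro p
    rw [aeval_rename]
    rfl
  have hT0 : ∀ n : σ → ℕ, (∏ s, t s ^ n s) ≠ 0 := fun n =>
    Finset.prod_ne_zero_iff.2 fun s _ => pow_ne_zero _ (ht s)
  set T1 : F := ∏ s, t s ^ n1 s with hT1
  set T2 : F := ∏ s, t s ^ n2 s with hT2
  have hu : aeval (Sum.elim x t) (rename Sum.inl a * M n1) = A * T1 := by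
    rw [map_mul, hR, hM]
  have hv : aeval (Sum.elim x t) (rename Sum.inl a' * M n2) = A' * T2 := by
    rw [map_mul, hR, hM]
  have hT1n : T1 ≠ 0 := hT0 n1
  have hT2n : T2 ≠ 0 := hT0 n2
  have hb : b = A / A' := by
    rw [eq_div_iff h1, h2]
  have hvl : vl t (b, m) = A * T1 / (A' * T2) := by
    have h4 : ∏ s, t s ^ m s = T1 / T2 := by
      rw [hT1, hT2, ← Finset.prod_div_distrib]
      refine Finset.prod_congr rfl fun s _ => ?_
      rw [← zpow_natCast, ← zpow_natCast, ← zpow_sub₀ (ht s)]
      congr 1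
      simp only [n1, n2]
      omega
    simp only [vl]
    rw [h4, hb]
    field_simp
  refine ⟨by rw [hu]; exact mul_ne_zero h3 hT1n, by rw [hv]; exact mul_ne_zero h1 hT2n,
    by rw [hu, hv, hvl], fun j => ?_⟩
  rw [hu, hv, hvl]
  rcases j with l | s
  · have e1 : ∀ (p : MvPolynomial α K) (n : σ → ℕ), aeval (Sum.elim x t)
        (pderiv (Sum.inl l) (rename Sum.inl p * M n)) = aeval x (pderiv l p) * ∏ s, t s ^ n s := by
      intro p n
      rw [Derivation.leibniz, B12_mono', B12_rename, smul_zero, zero_add, smul_eq_mul, map_mul,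
        hM, Sum.elim_inl, hR, mul_comm]
    rw [e1, e1, ← hT1, ← hT2]
    have h5 : δ l b * A' + b * aeval x (pderiv l a') = aeval x (pderiv l a) := by
      have h6 := congrArg (δ l) h2
      rw [Derivation.leibniz, hA, hA', B12_deriv δ x hx, B12_deriv δ x hx, smul_eq_mul,
        smul_eq_mul] at h6
      rw [← h6]
      ring
    simp only [Sum.elim_inl]
    rw [← h5, hb]
    field_simp
    ring
  · have e1 : ∀ (p : MvPolynomial α K) (n : σ → ℕ), aeval (Sum.elim x t)
        (pderiv (Sum.inr s) (rename Sum.inl p * M n)) =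
          aeval x p * ((n s : F) * (∏ s, t s ^ n s) / t s) := by
      intro p n
      rw [Derivation.leibniz, B12_rename, Sum.elim_inr, smul_zero, add_zero, smul_eq_mul,
        map_mul, hR]
      congr 1
      rw [eq_div_iff (ht s)]
      have h6 := B12_mono (K := K) x t n s Finset.univ
      rw [if_pos (Finset.mem_univ s)] at h6
      exact h6
    rw [e1, e1, ← hT1, ← hT2, ← hA, ← hA']
    have h5 : ((m s : ℤ) : F) = (n1 s : F) - (n2 s : F) := by
      have h6 : m s = (n1 s : ℤ) - (n2 s : ℤ) := by
        simp only [n1, n2]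
        omega
      rw [h6]
      push_cast
      rfl
    simp only [Sum.elim_inr]
    rw [h5]
    have hts := ht s
    field_simp

end Pool.Agent.Lib.MP_17a322_nt.JAC
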