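import Pool.Agent.Lib.MP_17a322_nt.JAC.V0

namespace Pool.Agent.Lib.MP_17a322_nt.JAC

open MvPolynomial

/-- Derivations extend along formally etale maps. -/
theorem dext {k A S V : Type*} [CommRing k] [CommRing A] [CommRing S] [Algebra k A] [Algebra k S] [Algebra A S]
    [IsScalarTower k A S] [Algebra.FormallyEtale A S] [AddCommGroup V] [Module S V] [Module A V] [Module k V]
    [IsScalarTower A S V] [IsScalarTower k S V] [IsScalarTower k A V] (d : Derivation k A V) :
    ∃ D : Derivation k S V, ∀ a, D (algebraMap A S a) = d a := by
  refine ⟨((LinearMap.liftBaseChange S d.liftKaehlerDifferential).comp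
    (KaehlerDifferential.tensorKaehlerEquivOfFormallyEtale k A S).symm.toLinearMap).compDer
      (KaehlerDifferential.D k S), fun a => ?_⟩
  have h1 : (KaehlerDifferential.tensorKaehlerEquivOfFormallyEtale k A S).symm
      (KaehlerDifferential.D k S (algebraMap A S a)) = 1 ⊗ₜ[A] KaehlerDifferential.D k A a :=
    KaehlerDifferential.tensorKaehlerEquivOfFormallyEtale_symm_D_algebraMap k A S a
  change (LinearMap.liftBaseChange S d.liftKaehlerDifferential)
    ((KaehlerDifferential.tensorKaehlerEquivOfFormallyEtale k A S).symm
      (KaehlerDifferential.D k S (algebraMap A S a))) = d a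
  rw [h1, LinearMap.liftBaseChange_tmul, one_smul, Derivation.liftKaehlerDifferential_comp_D]

end Pool.Agent.Lib.MP_17a322_nt.JAC
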