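import Pool.Agent.Lib.MP_17a322_nt.JAC.V0

namespace Pool.Agent.Lib.MP_17a322_nt.JAC

open MvPolynomial

/-- The determinant of the rows `D (y i)`, `i ∈ α`, and `D (X s)`, `s ∈ σ`. -/
theorem detY {k F α σ : Type*} [Field k] [Field F] [Algebra k F] [Fintype α] [DecidableEq α] [Fintype σ] [DecidableEq σ]
    (δ : α → Derivation k F F)
    (D : Derivation ℤ (FractionRing (MvPolynomial σ F)) (α ⊕ σ → FractionRing (MvPolynomial σ F)))
    (hD1 : ∀ f : F, D (algebraMap F _ f) = Sum.elim (fun l => algebraMap F _ (δ l f)) (fun _ => 0))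
    (hD2 : ∀ s, D (algebraMap (MvPolynomial σ F) _ (X s)) =
        Sum.elim (fun _ => 0) (Pi.single s (algebraMap (MvPolynomial σ F) _ (X s))))
    (y : α → F) :
    (Matrix.of fun i j => D (Sum.elim (fun a => algebraMap F _ (y a))
      (fun s => algebraMap (MvPolynomial σ F) (FractionRing (MvPolynomial σ F)) (X s)) i) j).det =
      algebraMap F _ (Matrix.of fun i l => δ l (y i)).det *
        ∏ s, algebraMap (MvPolynomial σ F) (FractionRing (MvPolynomial σ F)) (X s) := by
  have h : (Matrix.of fun i j => D (Sum.elim (fun a => algebraMap F _ (y a))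
      (fun s => algebraMap (MvPolynomial σ F) (FractionRing (MvPolynomial σ F)) (X s)) i) j) =
      Matrix.fromBlocks ((algebraMap F (FractionRing (MvPolynomial σ F))).mapMatrix
        (Matrix.of fun i l => δ l (y i))) 0 0
        (Matrix.diagonal fun s =>
          algebraMap (MvPolynomial σ F) (FractionRing (MvPolynomial σ F)) (X s)) := by
    ext i j
    rcases i with a | s
    · rw [Matrix.of_apply, Sum.elim_inl, hD1]
      rcases j with l | r
      · rw [Matrix.fromBlocks_apply₁₁]
        rfl
      · rw [Matrix.fromBlocks_apply₁₂]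
        rfl
    · rw [Matrix.of_apply, Sum.elim_inr, hD2]
      rcases j with l | r
      · rw [Matrix.fromBlocks_apply₂₁]
        rfl
      · rw [Matrix.fromBlocks_apply₂₂, Sum.elim_inr, Matrix.diagonal_apply, Pi.single_apply]
        by_cases hrs : r = s
        · rw [if_pos hrs, if_pos hrs.symm]
        · rw [if_neg hrs, if_neg (Ne.symm hrs)]
  rw [h, Matrix.det_fromBlocks_zero₂₁, Matrix.det_diagonal, RingHom.map_det]

/-- The multiples, by elements of `O`, of the determinants of matrices with rows in `W`. -/
def S2b_set {E n : Type*} [Field E] [Fintype n] [DecidableEq n] (O : ValuationSubring E)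
    (W : Set (n → E)) (hW : W.Nonempty) : AddSubgroup E where
  carrier := {x | ∃ w : n → n → E, (∀ i, w i ∈ W) ∧ ∃ e ∈ O, x = e * (Matrix.of w).det}
  zero_mem' := by
    obtain ⟨b, hb⟩ := hW
    exact ⟨fun _ => b, fun _ => hb, 0, O.zero_mem, (zero_mul _).symm⟩
  add_mem' := by
    rintro x y ⟨w, hw, e, he, rfl⟩ ⟨w', hw', e', he', rfl⟩
    by_cases h0 : (Matrix.of w').det = 0
    · refine ⟨w, hw, e, he, ?_⟩
      rw [h0, mul_zero, add_zero]
    by_cases h1 : (Matrix.of w).det = 0
    · refine ⟨w', hw', e', he', ?_⟩
      rw [h1, mul_zero, zero_add]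
    rcases O.mem_or_inv_mem ((Matrix.of w).det / (Matrix.of w').det) with h | h
    · refine ⟨w', hw', e * ((Matrix.of w).det / (Matrix.of w').det) + e',
        O.add_mem _ _ (O.mul_mem _ _ he h) he', ?_⟩
      field_simp
    · refine ⟨w, hw, e + e' * ((Matrix.of w).det / (Matrix.of w').det)⁻¹,
        O.add_mem _ _ he (O.mul_mem _ _ he' h), ?_⟩
      field_simp
  neg_mem' := by
    rintro x ⟨w, hw, e, he, rfl⟩
    exact ⟨w, hw, -e, O.neg_mem _ he, (neg_mul _ _).symm⟩

theorem S2b_mem {E n : Type*} [Field E] [Fintype n] [DecidableEq n] {O : ValuationSubring E}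
    {W : Set (n → E)} {hW : W.Nonempty} {x : E} : x ∈ S2b_set O W hW ↔
      ∃ w : n → n → E, (∀ i, w i ∈ W) ∧ ∃ e ∈ O, x = e * (Matrix.of w).det := Iff.rfl

theorem S2b_smul {E n : Type*} [Field E] [Fintype n] [DecidableEq n] {O : ValuationSubring E}
    {W : Set (n → E)} {hW : W.Nonempty} {x a : E} (ha : a ∈ O) (hx : x ∈ S2b_set O W hW) :
    a * x ∈ S2b_set O W hW := by
  obtain ⟨w, hw, e, he, rfl⟩ := S2b_mem.1 hx
  exact S2b_mem.2 ⟨w, hw, a * e, O.mul_mem _ _ ha he, (mul_assoc _ _ _).symm⟩

/-- Some rows in the span, the other ones in `W`. -/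
theorem S2b_det {E n : Type*} [Field E] [Fintype n] [DecidableEq n] (O : ValuationSubring E)
    (W : Set (n → E)) (hW : W.Nonempty) (s : Finset n) :
    ∀ M : Matrix n n E, (∀ i ∈ s, M i ∈ spn O W) → (∀ i, i ∉ s → M i ∈ W) →
      M.det ∈ S2b_set O W hW := by
  induction s using Finset.induction_on with
  | empty =>
    intro M _ h2
    refine S2b_mem.2 ⟨M, fun i => h2 i (Finset.notMem_empty i), 1, O.one_mem, ?_⟩
    rw [one_mul]
    rfl
  | insert a s ha ih =>
    intro M h1 h2
    have key : ∀ v ∈ spn O W, (M.updateRow a v).det ∈ S2b_set O W hW := by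
      intro v hv
      induction hv using AddSubgroup.closure_induction with
      | mem v hv =>
        obtain ⟨c, hc, b, hb, rfl⟩ := hv
        rw [Matrix.det_updateRow_smul]
        refine S2b_smul hc (ih _ ?_ ?_)
        · intro i hi
          have hia : i ≠ a := fun h => ha (h ▸ hi)
          rw [Matrix.updateRow_ne hia]
          exact h1 i (Finset.mem_insert_of_mem hi)
        · intro i hi
          by_cases hia : i = a
          · subst hia
            rw [Matrix.updateRow_self]
            exact hb
          · rw [Matrix.updateRow_ne hia]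
            refine h2 i fun h => ?_
            rcases Finset.mem_insert.1 h with h | h
            · exact hia h
            · exact hi h
      | zero =>
        have h0 : (M.updateRow a (0 : n → E)).det = 0 :=
          Matrix.det_eq_zero_of_row_eq_zero a fun j => by rw [Matrix.updateRow_self, Pi.zero_apply]
        rw [h0]
        exact zero_mem _
      | add v w _ _ hv hw =>
        rw [Matrix.det_updateRow_add]
        exact add_mem hv hw
      | neg v _ hv =>
        have h0 : (M.updateRow a (-v)).det = -(M.updateRow a v).det := by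
          rw [← neg_one_smul E v, Matrix.det_updateRow_smul, neg_one_mul]
        rw [h0]
        exact neg_mem hv
    have h3 := key (M a) (h1 a (Finset.mem_insert_self a s))
    rwa [Matrix.updateRow_eq_self] at h3

/-- If all rows of a matrix are in the `O`-span of the nonempty set `W`, its determinant is a multiple, by
an element of `O`, of the determinant of a matrix with rows in `W`. -/
theorem detSpan {E n : Type*} [Field E] [Fintype n] [DecidableEq n] (O : ValuationSubring E) (W : Set (n → E))
    (hW : W.Nonempty) (M : n → n → E) (hM : ∀ i, M i ∈ spn O W) :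
    ∃ w : n → n → E, (∀ i, w i ∈ W) ∧ ∃ e ∈ O, (Matrix.of M).det = e * (Matrix.of w).det :=
  S2b_mem.1 (S2b_det O W hW Finset.univ (Matrix.of M) (fun i _ => hM i)
    fun i hi => absurd (Finset.mem_univ i) hi)

end Pool.Agent.Lib.MP_17a322_nt.JAC
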