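import Pool.Agent.Lib.MP_17a322_nt.JAC.B3
import Pool.Agent.Lib.MP_17a322_nt.EQ.G0

universe u

namespace Pool.Agent.Lib.MP_17a322_nt.JAC

open MvPolynomial hiding psum
open Height NumberField
open Pool.Agent.Lib.MP_17a322_nt.EQ

variable {K : Type u} [Field K] [CharZero K] {ι : Type} [Fintype ι]

private theorem B5a_ext {K A L : Type*} [Field K] [CommRing A] [IsDomain A] [Field L] [Algebra K A]
    [Algebra K L] [Algebra A L] [IsScalarTower K A L] [IsFractionRing A L]
    (Φ : A →ₐ[K] DualNumber L) (h1 : ∀ a, TrivSqZeroExt.fst (Φ a) = algebraMap A L a) :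
    ∃ d : Derivation K L L, ∀ a, d (algebraMap A L a) = TrivSqZeroExt.snd (Φ a) := by
  have hu : ∀ y : nonZeroDivisors A, IsUnit (Φ y) := by
    intro y
    rw [TrivSqZeroExt.isUnit_iff_isUnit_fst, h1, isUnit_iff_ne_zero]
    exact IsFractionRing.to_map_ne_zero_of_mem_nonZeroDivisors y.2
  let Ψ : L →ₐ[K] DualNumber L := IsLocalization.liftAlgHom (M := nonZeroDivisors A) (f := Φ) hu
  have hΨ : ∀ a, Ψ (algebraMap A L a) = Φ a := fun a => IsLocalization.lift_eq _ _
  have hf : ∀ f : L, TrivSqZeroExt.fst (Ψ f) = f := by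
    have h2 : (TrivSqZeroExt.fstHom K L L).toRingHom.comp Ψ.toRingHom = RingHom.id L := by
      apply IsLocalization.ringHom_ext (nonZeroDivisors A)
      ext a
      change TrivSqZeroExt.fst (Ψ (algebraMap A L a)) = algebraMap A L a
      rw [hΨ, h1]
    intro f
    exact RingHom.congr_fun h2 f
  refine ⟨Derivation.mk' ((TrivSqZeroExt.sndHom L L).restrictScalars K ∘ₗ Ψ.toLinearMap) ?_, ?_⟩
  · intro a b
    change TrivSqZeroExt.snd (Ψ (a * b)) = a • TrivSqZeroExt.snd (Ψ b) + b • TrivSqZeroExt.snd (Ψ a)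
    rw [map_mul, TrivSqZeroExt.snd_mul, hf, hf]
    simp [mul_comm]
  · intro a
    change TrivSqZeroExt.snd (Ψ (algebraMap A L a)) = _
    rw [hΨ]

omit [CharZero K] in
/-- The chain rule for derivations. -/
private theorem B5a_chain {L : Type u} [Field L] [Algebra K L] (D : Derivation K L L) (p : ι → L)
    (F : MvPolynomial ι K) : dif p F (fun i => D (p i)) = D (aeval p F) := by
  induction F using MvPolynomial.induction_on with
  | C a => rw [dif_C, aeval_C, Derivation.map_algebraMap]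
  | add F G hF hG => rw [dif_add, map_add, map_add, hF, hG]
  | mul_X F i hF =>
    rw [dif_mul, hF, dif_X, aeval_X, map_mul, aeval_X, Derivation.leibniz, smul_eq_mul,
      smul_eq_mul]

omit [CharZero K] in
private theorem B5a_dual {L : Type u} [Field L] [Algebra K L] (p y : ι → L)
    (F : MvPolynomial ι K) :
    aeval (fun i => (TrivSqZeroExt.inl (p i) + TrivSqZeroExt.inr (y i) : DualNumber L)) F
      = (TrivSqZeroExt.inl (aeval p F) + TrivSqZeroExt.inr (dif p F y) : DualNumber L) := by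
  induction F using MvPolynomial.induction_on with
  | C a =>
    rw [dif_C, aeval_C, aeval_C, TrivSqZeroExt.inr_zero, add_zero]
    rfl
  | add F G hF hG =>
    rw [dif_add, map_add, map_add, hF, hG, TrivSqZeroExt.inl_add, TrivSqZeroExt.inr_add]
    abel
  | mul_X F i hF =>
    rw [map_mul, hF, aeval_X, map_mul, aeval_X, dif_mul, dif_X, aeval_X]
    ext
    · simp
    · simp
      ring

omit [CharZero K] in
/-- A vector on which the differentials of the elements of `I` vanish is given by a derivation. -/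
private theorem B5a_der (I : Ideal (MvPolynomial ι K)) [I.IsPrime] (y : ι → FF I)
    (hy : ∀ H ∈ I, dif (gn I) H y = 0) :
    ∃ d : Derivation K (FF I) (FF I), ∀ i, d (gn I i) = y i := by
  let Φ : MvPolynomial ι K →ₐ[K] DualNumber (FF I) :=
    aeval (fun i => (TrivSqZeroExt.inl (gn I i) + TrivSqZeroExt.inr (y i) : DualNumber (FF I)))
  have hΦ : ∀ F, Φ F = (TrivSqZeroExt.inl (aeval (gn I) F) +
      TrivSqZeroExt.inr (dif (gn I) F y) : DualNumber (FF I)) := B5a_dual (gn I) y
  have h0 : ∀ F ∈ I, Φ F = 0 := by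
    intro F hF
    rw [hΦ, hy F hF, (aeval_gn_eq_zero I F).2 hF, TrivSqZeroExt.inl_zero, TrivSqZeroExt.inr_zero,
      add_zero]
  let Φ' : (MvPolynomial ι K ⧸ I) →ₐ[K] DualNumber (FF I) := Ideal.Quotient.liftₐ I Φ h0
  have hΦ' : ∀ F, Φ' (Ideal.Quotient.mk I F) = Φ F := fun F => rfl
  obtain ⟨d, hd⟩ := B5a_ext (K := K) (A := MvPolynomial ι K ⧸ I) (L := FF I) Φ' (by
    intro a
    obtain ⟨F, rfl⟩ := Ideal.Quotient.mk_surjective a
    rw [hΦ', hΦ, ← aeval_gn]
    simp)
  refine ⟨d, fun i => ?_⟩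
  have h1 := hd (Ideal.Quotient.mk I (X i))
  rw [hΦ', hΦ, aeval_X, dif_X] at h1
  change d (algebraMap (MvPolynomial ι K ⧸ I) (FF I) (Ideal.Quotient.mk I (X i))) = y i
  rw [h1]
  simp

omit [CharZero K] in
private theorem B5a_pow {L : Type u} [Field L] [Algebra K L] (p y : ι → L) (i₀ : ι)
    (hy : y i₀ = 0) (m : ℕ) : dif p (X i₀ ^ m : MvPolynomial ι K) y = 0 := by
  induction m with
  | zero => rw [pow_zero, dif_one]
  | succ m ih => rw [pow_succ, dif_mul, dif_X, hy, ih, mul_zero, mul_zero, add_zero]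

omit [CharZero K] in
private theorem B5a_van (J : Ideal (MvPolynomial ι K)) [J.IsPrime]
    (hJ : ∀ F ∈ J, ∀ i, homogeneousComponent i F ∈ J) (i₀ : ι) (hi : X i₀ ∉ J)
    (h1 : gn (dh J i₀) i₀ = 1) (y : ι → FF (dh J i₀)) (hy : y ∈ Tan J (gn (dh J i₀)))
    (hy0 : y i₀ = 0) (H : MvPolynomial ι K) (hH : H ∈ dh J i₀) :
    dif (gn (dh J i₀)) H y = 0 := by
  set ζ := gn (dh J i₀) with hζ
  set n := H.totalDegree with hn
  set H' : MvPolynomial ι K :=
    ∑ k ∈ Finset.range (n + 1), homogeneousComponent k H * X i₀ ^ (n - k) with hH'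
  have hhom : H'.IsHomogeneous n := by
    apply MvPolynomial.IsHomogeneous.sum
    intro k hk
    rw [Finset.mem_range] at hk
    have h2 := (homogeneousComponent_isHomogeneous k H).mul ((isHomogeneous_X K i₀).pow (n - k))
    have h3 : k + 1 * (n - k) = n := by omega
    rw [h3] at h2
    exact h2
  have hev : aeval ζ H' = aeval ζ H := by
    conv_rhs => rw [← sum_homogeneousComponent H]
    rw [hH', map_sum, map_sum]
    refine Finset.sum_congr rfl fun k _ => ?_
    rw [map_mul, map_pow, aeval_X, h1, one_pow, mul_one]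
  have hmem : H' ∈ J := by
    refine (le_dh J hJ i₀ hi).2 H' ?_ n hhom
    rw [← aeval_gn_eq_zero, ← hζ, hev, hζ, aeval_gn_eq_zero]
    exact hH
  have h4 := mem_Tan.1 hy H' hmem
  have h5 : dif ζ H' y = dif ζ H y := by
    conv_rhs => rw [← sum_homogeneousComponent H]
    rw [hH', dif_sum, dif_sum]
    refine Finset.sum_congr rfl fun k _ => ?_
    rw [dif_mul, B5a_pow ζ y i₀ hy0, mul_zero, zero_add, map_pow, aeval_X, h1, one_pow, one_mul]
  rw [← h5]
  exact h4

/-- The dimension of the tangent space of the cone at the generic point. -/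
theorem Tan_gn (J : Ideal (MvPolynomial ι K)) [J.IsPrime] (hJ : ∀ F ∈ J, ∀ i, homogeneousComponent i F ∈ J) (i₀ : ι)
    (hi : X i₀ ∉ J) {α : Type} [Fintype α] [DecidableEq α] (x : α → ι)
    (δ : α → Derivation K (FF (dh J i₀)) (FF (dh J i₀)))
    (hx : ∀ l l', δ l (gn (dh J i₀) (x l')) = if l = l' then 1 else 0)
    (hu : ∀ (d : Derivation K (FF (dh J i₀)) (FF (dh J i₀))) (f : FF (dh J i₀)),
      d f = ∑ l, d (gn (dh J i₀) (x l)) * δ l f) :
    Module.finrank (FF (dh J i₀)) (Tan J (gn (dh J i₀))) = Fintype.card α + 1 := by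
  set ζ := gn (dh J i₀) with hζ
  have h1 : ζ i₀ = 1 := by
    have h2 := (aeval_gn_eq_zero (dh J i₀) (X i₀ - 1)).2 (dh_sub_one J i₀ hi)
    rw [map_sub, aeval_X, map_one, sub_eq_zero] at h2
    exact h2
  have hpt : IsPt J ζ := by
    refine ⟨?_, ?_⟩
    · intro h
      have h2 := congrFun h i₀
      rw [h1, Pi.zero_apply] at h2
      exact one_ne_zero h2
    · intro F hF
      exact (aeval_gn_eq_zero (dh J i₀) F).2 ((le_dh J hJ i₀ hi).1 hF)
  set b : Option α → ι → FF (dh J i₀) := fun o => o.elim ζ fun l i => δ l (ζ i) with hb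
  have hbn : ∀ i, b none i = ζ i := fun _ => rfl
  have hbs : ∀ l i, b (some l) i = δ l (ζ i) := fun _ _ => rfl
  have hτ0 : ∀ l, δ l (ζ i₀) = 0 := by
    intro l
    rw [h1, Derivation.map_one_eq_zero]
  have hmem : ∀ o, b o ∈ Tan J ζ := by
    rintro (_ | l)
    · exact self_mem_Tan hJ hpt
    · rw [mem_Tan]
      intro F hF
      have h2 := B5a_chain (δ l) ζ F
      rw [hpt.2 F hF, map_zero] at h2
      exact h2
  have hlin : LinearIndependent (FF (dh J i₀)) b := by
    rw [Fintype.linearIndependent_iff]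
    intro g hg
    have h2 : ∀ i, g none * ζ i + ∑ l, g (some l) * δ l (ζ i) = 0 := by
      intro i
      have h3 := congrFun hg i
      rw [Finset.sum_apply, Fintype.sum_option] at h3
      exact h3
    have h3 : g none = 0 := by
      have h4 := h2 i₀
      rw [Finset.sum_eq_zero (fun l _ => by rw [hτ0, mul_zero]), add_zero, h1, mul_one] at h4
      exact h4
    rintro (_ | l)
    · exact h3
    · have h4 := h2 (x l)
      rw [h3, zero_mul, zero_add, Finset.sum_eq_single l] at h4
      · rw [hx, if_pos rfl, mul_one] at h4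
        exact h4
      · intro l' _ hl'
        rw [hx, if_neg hl', mul_zero]
      · intro h
        exact absurd (Finset.mem_univ l) h
  have hspan : Tan J ζ = Submodule.span (FF (dh J i₀)) (Set.range b) := by
    apply le_antisymm
    · intro y hy
      have hy' : y - y i₀ • ζ ∈ Tan J ζ :=
        (Tan J ζ).sub_mem hy ((Tan J ζ).smul_mem _ (self_mem_Tan hJ hpt))
      have hy0 : (y - y i₀ • ζ) i₀ = 0 := by
        rw [Pi.sub_apply, Pi.smul_apply, h1, smul_eq_mul, mul_one, sub_self]
      obtain ⟨d, hd⟩ := B5a_der (dh J i₀) (y - y i₀ • ζ)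
        (B5a_van J hJ i₀ hi h1 (y - y i₀ • ζ) hy' hy0)
      have h2 : y - y i₀ • ζ = ∑ l, (y - y i₀ • ζ) (x l) • b (some l) := by
        funext i
        rw [Finset.sum_apply, ← hd i, hu d]
        refine Finset.sum_congr rfl fun l _ => ?_
        rw [hd (x l), Pi.smul_apply, hbs, smul_eq_mul]
      have h3 : y = y i₀ • b none + ∑ l, (y - y i₀ • ζ) (x l) • b (some l) := by
        rw [← h2]
        exact (add_sub_cancel (y i₀ • ζ) y).symm
      rw [h3]
      refine Submodule.add_mem _ (Submodule.smul_mem _ _ (Submodule.subset_span ⟨none, rfl⟩)) ?_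
      exact Submodule.sum_mem _ fun l _ =>
        Submodule.smul_mem _ _ (Submodule.subset_span ⟨some l, rfl⟩)
    · rw [Submodule.span_le]
      rintro _ ⟨o, rfl⟩
      exact hmem o
  rw [hspan, finrank_span_eq_card hlin, Fintype.card_option]

end Pool.Agent.Lib.MP_17a322_nt.JAC
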