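import Pool.Agent.Lib.MP_17a322_nt.JAC.B1
import Pool.Agent.Lib.MP_17a322_nt.EQ.G1

universe u

namespace Pool.Agent.Lib.MP_17a322_nt.JAC

open MvPolynomial hiding psum
open Height NumberField
open Pool.Agent.Lib.MP_17a322_nt.EQ

/-- Outside a hypersurface the dimension of the tangent space is at most the generic one. `ζ` is a zero of `I` with
values in a field `L`. -/
theorem tan_upper {K : Type u} [Field K] {ι : Type} [Fintype ι] (J I : Ideal (MvPolynomial ι K)) {L : Type u} [Field L] [Algebra K L]
    (ζ : ι → L) (hζ : ∀ F : MvPolynomial ι K, F ∈ I → aeval ζ F = 0) :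
    ∃ M : MvPolynomial ι K, M ∉ I ∧ ∀ z : ι → K, eval z M ≠ 0 →
      Module.finrank K (Tan J z) ≤ Module.finrank L (Tan J ζ) := by
  have e1 := G1_finrank J ζ
  obtain ⟨f, hf1, _, hf3⟩ := Submodule.exists_fun_fin_finrank_span_eq L
    ((fun F => dif ζ F) '' (J : Set (MvPolynomial ι K)))
  choose F hFJ hF using hf1
  have hi : LinearIndependent L fun a => fun i => aeval ζ (pderiv i (F a)) := by
    apply LinearIndependent.of_comp (G1_form L ι)
    have h1 : (G1_form L ι ∘ fun a => fun i => aeval ζ (pderiv i (F a))) = f := by
      funext a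
      rw [Function.comp_apply, ← G1_dif, ← hF a]
    rw [h1]
    exact hf3
  obtain ⟨s, hs⟩ := G1_minor hi
  set M : MvPolynomial ι K := (Matrix.of fun a b => pderiv (s b) (F a)).det with hM
  have hdet : ∀ (L' : Type u) [Field L'] [Algebra K L'] (q : ι → L'),
      aeval q M = (Matrix.of fun a b => aeval q (pderiv (s b) (F a))).det := by
    intro L' _ _ q
    rw [hM, AlgHom.map_det]
    rfl
  refine ⟨M, ?_, ?_⟩
  · intro hMI
    apply hs
    have h2 := hζ M hMI
    rw [hdet L ζ] at h2
    exact h2
  · intro z hz
    have e0 := G1_finrank J z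
    have hM0 : (Matrix.of fun a b => aeval z (pderiv (s b) (F a))).det ≠ 0 := by
      intro h2
      apply hz
      have h3 := hdet K z
      rw [h2] at h3
      exact h3
    have hi0 : LinearIndependent K fun a => fun i => aeval z (pderiv i (F a)) := G1_indep hM0
    have hi1 : LinearIndependent K fun a => dif z (F a) := by
      have h3 := hi0.map' (G1_form K ι) (LinearMap.ker_eq_bot.2 G1_form_inj)
      have h4 : (G1_form K ι ∘ fun a => fun i => aeval z (pderiv i (F a))) = fun a => dif z (F a) := by
        funext a
        rw [Function.comp_apply, ← G1_dif]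
      rwa [h4] at h3
    have hle : Module.finrank L (Submodule.span L ((fun F => dif ζ F) '' (J : Set (MvPolynomial ι K)))) ≤
        Module.finrank K (Submodule.span K ((fun F => dif z F) '' (J : Set (MvPolynomial ι K)))) := by
      have h5 := finrank_span_eq_card hi1
      rw [Fintype.card_fin] at h5
      rw [← h5]
      apply Submodule.finrank_mono
      apply Submodule.span_mono
      rintro _ ⟨a, rfl⟩
      exact ⟨F a, hFJ a, rfl⟩
    omega

end Pool.Agent.Lib.MP_17a322_nt.JAC
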