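import Pool.Agent.Lib.MP_17a322_nt.JAC.B1
import Pool.Agent.Lib.MP_17a322_nt.JAC.S1a

universe u

namespace Pool.Agent.Lib.MP_17a322_nt.JAC

open MvPolynomial hiding psum
open Height NumberField
open Pool.Agent.Lib.MP_17a322_nt.EQ

section

variable {K L : Type u} [Field K] [CharZero K] [Field L] [Algebra K L] {α : Type}

open scoped IntermediateField.algebraAdjoinAdjoin in
/-- The field is formally etale over the ring generated by a transcendence basis. -/
private theorem B4_etale {y : α → L} (hb : IsTranscendenceBasis K y) :
    Algebra.FormallyEtale (Algebra.adjoin K (Set.range y)) L := by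
  have h0 : CharZero (IntermediateField.adjoin K (Set.range y)) :=
    charZero_of_injective_algebraMap
      (algebraMap K (IntermediateField.adjoin K (Set.range y))).injective
  have h1 : Algebra.FormallyEtale (Algebra.adjoin K (Set.range y))
      (IntermediateField.adjoin K (Set.range y)) :=
    .of_isLocalization (nonZeroDivisors _)
  have h2 := hb.isAlgebraic_field
  have h3 : Algebra.FormallyEtale (IntermediateField.adjoin K (Set.range y)) L :=
    Algebra.FormallyEtale.of_isSeparable _ L
  exact .comp _ (IntermediateField.adjoin K (Set.range y)) _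

/-- Derivations with prescribed values on a transcendence basis. -/
private theorem B4_exists {y : α → L} (hb : IsTranscendenceBasis K y) (w : α → L) :
    ∃ δ : Derivation K L L, ∀ l, δ (y l) = w l := by
  classical
  have := B4_etale hb
  let e := hb.1.aevalEquiv
  have he : ∀ l : α, e.symm ⟨y l, Algebra.subset_adjoin ⟨l, rfl⟩⟩ = MvPolynomial.X l := by
    intro l
    rw [AlgEquiv.symm_apply_eq]
    apply Subtype.ext
    rw [hb.1.aevalEquiv_apply_coe]
    simp
  let _ : Module (MvPolynomial α K) L := Module.compHom L (MvPolynomial.aeval y).toRingHom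
  have hsm : ∀ (q : MvPolynomial α K) (z : L), q • z = MvPolynomial.aeval y q * z :=
    fun _ _ => rfl
  have _ : IsScalarTower K (MvPolynomial α K) L := by
    constructor
    intro a q z
    rw [hsm, hsm, map_smul, smul_mul_assoc]
  let D₀ : Derivation K (MvPolynomial α K) L := MvPolynomial.mkDerivation K w
  let D : Derivation K (Algebra.adjoin K (Set.range y)) L :=
    Derivation.mk' (D₀.toLinearMap.comp e.symm.toLinearMap) (by
      intro a b
      show D₀ (e.symm (a * b)) = a • D₀ (e.symm b) + b • D₀ (e.symm a)
      rw [map_mul, D₀.leibniz, hsm, hsm, ← hb.1.aevalEquiv_apply_coe, ← hb.1.aevalEquiv_apply_coe]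
      show (e (e.symm a) : L) * _ + (e (e.symm b) : L) * _ = _
      rw [e.apply_symm_apply, e.apply_symm_apply]
      rfl)
  obtain ⟨δ, hδ⟩ := dext (S := L) D
  refine ⟨δ, fun l => ?_⟩
  have h1 := hδ ⟨y l, Algebra.subset_adjoin ⟨l, rfl⟩⟩
  have h2 : algebraMap (Algebra.adjoin K (Set.range y)) L
      ⟨y l, Algebra.subset_adjoin ⟨l, rfl⟩⟩ = y l := rfl
  rw [h2] at h1
  rw [h1]
  show D₀ (e.symm ⟨y l, Algebra.subset_adjoin ⟨l, rfl⟩⟩) = w l
  rw [he l]
  show MvPolynomial.mkDerivation K w (MvPolynomial.X l) = w l
  rw [MvPolynomial.mkDerivation_X]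

omit [CharZero K] in
private theorem B4_sum {κ : Type} (s : Finset κ) (D : κ → Derivation K L L) (f : L) :
    (∑ l ∈ s, D l) f = ∑ l ∈ s, D l f := by
  classical
  induction s using Finset.induction_on with
  | empty => rw [Finset.sum_empty, Finset.sum_empty, Derivation.coe_zero, Pi.zero_apply]
  | insert a s ha ih => rw [Finset.sum_insert ha, Finset.sum_insert ha, Derivation.add_apply, ih]

/-- A derivation which vanishes on a transcendence basis is zero. -/
private theorem B4_unique {y : α → L} (hb : IsTranscendenceBasis K y) (d : Derivation K L L)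
    (h : ∀ l, d (y l) = 0) (f : L) : d f = 0 := by
  have := B4_etale hb
  have h1 : ∀ a : Algebra.adjoin K (Set.range y), d (a : L) = 0 := by
    rintro ⟨a, ha⟩
    change d a = 0
    refine Algebra.adjoin_induction ?_ ?_ ?_ ?_ ha
    · rintro x ⟨l, rfl⟩
      exact h l
    · intro r
      exact d.map_algebraMap r
    · intro x z _ _ hx hz
      rw [map_add, hx, hz, add_zero]
    · intro x z _ _ hx hz
      rw [d.leibniz, hx, hz, smul_zero, smul_zero, add_zero]
  let dl : L →ₗ[Algebra.adjoin K (Set.range y)] L :=
    { toFun := d
      map_add' := fun a b => map_add d a b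
      map_smul' := fun a b => by
        change d ((a : L) * b) = (a : L) * d b
        rw [d.leibniz, h1 a, smul_zero, add_zero, smul_eq_mul] }
  let d' : Derivation (Algebra.adjoin K (Set.range y)) L L :=
    Derivation.mk' dl (fun a b => d.leibniz a b)
  have h2 : Subsingleton (Ω[L⁄Algebra.adjoin K (Set.range y)]) :=
    Algebra.FormallyUnramified.subsingleton_kaehlerDifferential
  have h3 := Derivation.liftKaehlerDifferential_comp_D d' f
  rw [Subsingleton.elim (KaehlerDifferential.D (Algebra.adjoin K (Set.range y)) L f) 0,
    map_zero] at h3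
  exact h3.symm

end

/-- A transcendence basis of the function field among the coordinates and the corresponding
derivations. -/
theorem exists_frame {K : Type u} [Field K] [CharZero K] {ι : Type} [Finite ι] (I : Ideal (MvPolynomial ι K)) [I.IsPrime] :
    ∃ (α : Type) (_ : Fintype α) (_ : DecidableEq α) (x : α → ι) (δ : α → Derivation K (FF I) (FF I)),
      AlgebraicIndependent K (fun l => gn I (x l)) ∧
      FiniteDimensional (Subfield.closure (Set.range (algebraMap K (FF I)) ∪ Set.range fun l => gn I (x l))) (FF I) ∧
      (∀ l l', δ l (gn I (x l')) = if l = l' then 1 else 0) ∧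
      ∀ (d : Derivation K (FF I) (FF I)) (f : FF I), d f = ∑ l, d (gn I (x l)) * δ l f := by
  classical
  -- the elements of the function field are quotients
  have hfr : ∀ z : FF I, ∃ P Q : MvPolynomial ι K, z = aeval (gn I) P / aeval (gn I) Q := by
    intro z
    obtain ⟨r, s, -, rfl⟩ := IsFractionRing.div_surjective (A := MvPolynomial ι K ⧸ I) z
    obtain ⟨P, rfl⟩ := Ideal.Quotient.mk_surjective r
    obtain ⟨Q, rfl⟩ := Ideal.Quotient.mk_surjective s
    exact ⟨P, Q, by rw [aeval_gn, aeval_gn]⟩
  have hadj : ∀ P : MvPolynomial ι K, aeval (gn I) P ∈ Algebra.adjoin K (Set.range (gn I)) := by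
    intro P
    rw [Algebra.adjoin_range_eq_range_aeval]
    exact ⟨P, rfl⟩
  have halg : Algebra.IsAlgebraic (Algebra.adjoin K (Set.range (gn I))) (FF I) := by
    refine ⟨fun z => ?_⟩
    obtain ⟨P, Q, rfl⟩ := hfr z
    have a1 := isAlgebraic_algebraMap (R := Algebra.adjoin K (Set.range (gn I)))
      (A := FF I) ⟨_, hadj P⟩
    have a2 := isAlgebraic_algebraMap (R := Algebra.adjoin K (Set.range (gn I)))
      (A := FF I) ⟨_, hadj Q⟩
    rw [div_eq_mul_inv]
    exact a1.mul a2.inv
  obtain ⟨t, ht, hb⟩ := exists_isTranscendenceBasis_subset (R := K) (A := FF I) (Set.range (gn I))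
  choose i hi using fun b : t => ht b.2
  have hinj : Function.Injective i := by
    intro b b' h
    apply Subtype.ext
    rw [← hi b, ← hi b', h]
  let e : t ≃ Set.range i := Equiv.ofInjective i hinj
  have hye : (fun l : Set.range i => gn I l.1) = ((↑) : t → FF I) ∘ e.symm := by
    funext l
    obtain ⟨b, rfl⟩ := e.surjective l
    rw [Function.comp_apply, e.symm_apply_apply]
    exact hi b
  have hy : IsTranscendenceBasis K (fun l : Set.range i => gn I l.1) := by
    rw [hye]
    exact hb.comp_equiv e.symm
  obtain ⟨fin⟩ : Nonempty (Fintype (Set.range i)) := ⟨Fintype.ofFinite _⟩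
  choose δ hδ using fun l : Set.range i =>
    B4_exists hy (fun l' : Set.range i => if l = l' then (1 : FF I) else 0)
  refine ⟨Set.range i, fin, Classical.decEq _, fun l => l.1, δ, hy.1, ?_, ?_, ?_⟩
  · -- finiteness
    set F0 : Subfield (FF I) := Subfield.closure (Set.range (algebraMap K (FF I)) ∪
      Set.range fun l : Set.range i => gn I l.1) with hF0
    have hsub : ∀ a : Algebra.adjoin K (Set.range fun l : Set.range i => gn I l.1),
        (a : FF I) ∈ F0 := by
      rintro ⟨a, ha⟩
      change a ∈ F0
      refine Algebra.adjoin_induction ?_ ?_ ?_ ?_ ha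
      · rintro z ⟨l, rfl⟩
        exact Subfield.subset_closure (Or.inr ⟨l, rfl⟩)
      · intro r
        exact Subfield.subset_closure (Or.inl ⟨r, rfl⟩)
      · intro a b _ _ ha hb
        exact F0.add_mem ha hb
      · intro a b _ _ ha hb
        exact F0.mul_mem ha hb
    let ψ : Algebra.adjoin K (Set.range fun l : Set.range i => gn I l.1) →+* F0 :=
      (algebraMap (Algebra.adjoin K (Set.range fun l : Set.range i => gn I l.1))
        (FF I)).codRestrict F0 hsub
    let _ : Algebra (Algebra.adjoin K (Set.range fun l : Set.range i => gn I l.1)) F0 :=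
      ψ.toAlgebra
    have _ : IsScalarTower (Algebra.adjoin K (Set.range fun l : Set.range i => gn I l.1)) F0
        (FF I) := IsScalarTower.of_algebraMap_eq fun _ => rfl
    have hψ : Function.Injective (algebraMap
        (Algebra.adjoin K (Set.range fun l : Set.range i => gn I l.1)) F0) := by
      intro a b h
      apply Subtype.ext
      exact congrArg (fun z : F0 => (z : FF I)) h
    have halg' := hy.isAlgebraic
    have hint : ∀ z : FF I, IsIntegral F0 z := by
      intro z
      exact ((halg'.isAlgebraic z).extendScalars hψ).isIntegral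
    have hfd : FiniteDimensional F0 (IntermediateField.adjoin F0 (Set.range (gn I))) :=
      IntermediateField.finiteDimensional_adjoin fun z _ => hint z
    have htop : IntermediateField.adjoin F0 (Set.range (gn I)) = ⊤ := by
      rw [eq_top_iff]
      intro z _
      obtain ⟨P, Q, rfl⟩ := hfr z
      have hP : ∀ P : MvPolynomial ι K, aeval (gn I) P ∈
          IntermediateField.adjoin F0 (Set.range (gn I)) := by
        intro P
        refine Algebra.adjoin_induction ?_ ?_ ?_ ?_ (hadj P)
        · intro z hz
          exact IntermediateField.subset_adjoin _ _ hz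
        · intro r
          have h1 : algebraMap K (FF I) r ∈ F0 := Subfield.subset_closure (Or.inl ⟨r, rfl⟩)
          exact (IntermediateField.adjoin F0 (Set.range (gn I))).algebraMap_mem ⟨_, h1⟩
        · intro a b _ _ ha hb
          exact add_mem ha hb
        · intro a b _ _ ha hb
          exact mul_mem ha hb
      exact div_mem (hP P) (hP Q)
    rw [htop] at hfd
    exact Module.Finite.equiv (IntermediateField.topEquiv (F := F0) (E := FF I)).toLinearEquiv
  · intro l l'
    rw [hδ]
    by_cases h : l = l'
    · rw [if_pos h, if_pos h]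
    · rw [if_neg h, if_neg h]
  · intro d f
    have h1 : (d - ∑ l, d (gn I l.1) • δ l) f = 0 := by
      refine B4_unique hy _ (fun l' => ?_) f
      rw [Derivation.sub_apply, B4_sum]
      simp only [Derivation.smul_apply, hδ, smul_eq_mul, mul_ite, mul_one, mul_zero,
        Finset.sum_ite_eq', Finset.mem_univ, if_true, sub_self]
    rw [Derivation.sub_apply, B4_sum, sub_eq_zero] at h1
    simp only [Derivation.smul_apply, smul_eq_mul] at h1
    exact h1

end Pool.Agent.Lib.MP_17a322_nt.JAC
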