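import Pool.Agent.Lib.MP_17a322_nt.JAC.V0

namespace Pool.Agent.Lib.MP_17a322_nt.JAC

open MvPolynomial

section

variable {F σ : Type*} [Field F] (A : ValuationSubring F)

/-- Polynomials over the valuation ring, as polynomials over the field. -/
private noncomputable def G1_phi : MvPolynomial σ A →+* MvPolynomial σ F :=
  MvPolynomial.map (algebraMap A F)

private noncomputable def G1_psi :
    MvPolynomial σ A →+* MvPolynomial σ (IsLocalRing.ResidueField A) :=
  MvPolynomial.map (IsLocalRing.residue A)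

private theorem G1_phi_inj : Function.Injective (G1_phi (σ := σ) A) :=
  MvPolynomial.map_injective _ (FaithfulSMul.algebraMap_injective A F)

private theorem G1_coeff_phi (P : MvPolynomial σ A) (m : σ →₀ ℕ) :
    (G1_phi A P).coeff m = ((P.coeff m : A) : F) := by
  unfold G1_phi
  rw [MvPolynomial.coeff_map]
  rfl

private theorem G1_lift (P : MvPolynomial σ F) (h : ∀ m, P.coeff m ∈ A) :
    ∃ P' : MvPolynomial σ A, G1_phi A P' = P := by
  have h1 : P ∈ Set.range (MvPolynomial.map (σ := σ) (algebraMap A F)) := by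
    rw [MvPolynomial.mem_range_map_iff_coeffs_subset]
    intro c hc
    rw [Finset.mem_coe, MvPolynomial.mem_coeffs_iff] at hc
    obtain ⟨m, _, rfl⟩ := hc
    exact ⟨⟨P.coeff m, h m⟩, rfl⟩
  exact h1

/-- Every non-zero polynomial is a constant times a primitive polynomial. -/
private theorem G1_prim (P : MvPolynomial σ F) (hP : P ≠ 0) :
    ∃ p : F, p ≠ 0 ∧ ∃ P1 : MvPolynomial σ A, G1_psi A P1 ≠ 0 ∧ P = C p * G1_phi A P1 := by
  classical
  have hne : P.support.Nonempty := by
    rw [Finset.nonempty_iff_ne_empty]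
    exact fun h => hP (MvPolynomial.support_eq_empty.mp h)
  obtain ⟨m0, hm0, hmax⟩ := Finset.exists_max_image P.support
    (fun m => A.valuation (P.coeff m)) hne
  have hp : P.coeff m0 ≠ 0 := MvPolynomial.mem_support_iff.mp hm0
  have hcoeff : ∀ m, (C (P.coeff m0)⁻¹ * P).coeff m ∈ A := by
    intro m
    rw [MvPolynomial.coeff_C_mul]
    by_cases hm : m ∈ P.support
    · rw [← A.valuation_le_one_iff, map_mul, map_inv₀]
      have h1 := hmax m hm
      have h2 : A.valuation (P.coeff m0) ≠ 0 := (Valuation.ne_zero_iff _).mpr hp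
      calc (A.valuation (P.coeff m0))⁻¹ * A.valuation (P.coeff m)
          ≤ (A.valuation (P.coeff m0))⁻¹ * A.valuation (P.coeff m0) := by gcongr
        _ = 1 := inv_mul_cancel₀ h2
    · rw [MvPolynomial.notMem_support_iff.mp hm, mul_zero]
      exact A.zero_mem
  obtain ⟨P1, hP1⟩ := G1_lift A _ hcoeff
  refine ⟨P.coeff m0, hp, P1, ?_, ?_⟩
  · intro h0
    have h1 : (G1_psi A P1).coeff m0 = 0 := by rw [h0, MvPolynomial.coeff_zero]
    unfold G1_psi at h1
    rw [MvPolynomial.coeff_map] at h1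
    have h2 : (P1.coeff m0 : A) = 1 := by
      apply Subtype.ext
      have h3 := G1_coeff_phi A P1 m0
      rw [hP1, MvPolynomial.coeff_C_mul, inv_mul_cancel₀ hp] at h3
      exact h3.symm
    rw [h2, map_one] at h1
    exact one_ne_zero h1
  · rw [hP1, ← mul_assoc, ← MvPolynomial.C_mul, mul_inv_cancel₀ hp, MvPolynomial.C_1, one_mul]

private theorem G1_ne {Q : MvPolynomial σ A} (h : G1_psi A Q ≠ 0) : Q ≠ 0 := by
  rintro rfl
  exact h (map_zero _)

private theorem G1_ne' {Q : MvPolynomial σ A} (h : G1_psi A Q ≠ 0) :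
    algebraMap (MvPolynomial σ F) (FractionRing (MvPolynomial σ F)) (G1_phi A Q) ≠ 0 := by
  intro h0
  have h1 : G1_phi A Q = 0 :=
    (injective_iff_map_eq_zero _).mp (IsFractionRing.injective (MvPolynomial σ F)
      (FractionRing (MvPolynomial σ F))) _ h0
  exact G1_ne A h ((injective_iff_map_eq_zero _).mp (G1_phi_inj A) _ h1)

private theorem G1_mul {Q Q' : MvPolynomial σ A} (h : G1_psi A Q ≠ 0) (h' : G1_psi A Q' ≠ 0) :
    G1_psi A (Q * Q') ≠ 0 := by
  rw [map_mul]
  exact mul_ne_zero h h'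

private theorem G1_one : G1_psi A (1 : MvPolynomial σ A) ≠ 0 := by
  rw [map_one]
  exact one_ne_zero

/-- The ring of the Gauss extension. -/
private noncomputable def G1_ring : Subring (FractionRing (MvPolynomial σ F)) where
  carrier := {z | ∃ P Q : MvPolynomial σ A, G1_psi A Q ≠ 0 ∧
    z * algebraMap (MvPolynomial σ F) (FractionRing (MvPolynomial σ F)) (G1_phi A Q) =
      algebraMap (MvPolynomial σ F) (FractionRing (MvPolynomial σ F)) (G1_phi A P)}
  mul_mem' := by
    rintro z z' ⟨P, Q, hQ, h⟩ ⟨P', Q', hQ', h'⟩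
    refine ⟨P * P', Q * Q', G1_mul A hQ hQ', ?_⟩
    rw [map_mul, map_mul, map_mul, map_mul, ← h, ← h']
    ring
  one_mem' := ⟨1, 1, G1_one A, by rw [one_mul]⟩
  add_mem' := by
    rintro z z' ⟨P, Q, hQ, h⟩ ⟨P', Q', hQ', h'⟩
    refine ⟨P * Q' + P' * Q, Q * Q', G1_mul A hQ hQ', ?_⟩
    rw [map_mul, map_mul, map_add, map_add, map_mul, map_mul, map_mul, map_mul, ← h, ← h']
    ring
  zero_mem' := ⟨0, 1, G1_one A, by rw [zero_mul, map_zero, map_zero]⟩
  neg_mem' := by
    rintro z ⟨P, Q, hQ, h⟩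
    refine ⟨-P, Q, hQ, ?_⟩
    rw [map_neg, map_neg, ← h]
    ring

private theorem G1_mem {z : FractionRing (MvPolynomial σ F)} : z ∈ G1_ring A ↔
    ∃ P Q : MvPolynomial σ A, G1_psi A Q ≠ 0 ∧
    z * algebraMap (MvPolynomial σ F) (FractionRing (MvPolynomial σ F)) (G1_phi A Q) =
      algebraMap (MvPolynomial σ F) (FractionRing (MvPolynomial σ F)) (G1_phi A P) := Iff.rfl

private theorem G1_phi_C (a : A) : G1_phi (σ := σ) A (C a) = C (a : F) := by
  unfold G1_phi
  rw [MvPolynomial.map_C]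
  rfl

private theorem G1_val (z : FractionRing (MvPolynomial σ F)) :
    z ∈ G1_ring A ∨ z⁻¹ ∈ G1_ring A := by
  by_cases hz : z = 0
  · left
    rw [hz]
    exact (G1_ring A).zero_mem
  obtain ⟨P, Q, hQ, hPQ⟩ := IsFractionRing.div_surjective (A := MvPolynomial σ F) z
  have hQ0 : Q ≠ 0 := nonZeroDivisors.ne_zero hQ
  have hP0 : P ≠ 0 := by
    rintro rfl
    apply hz
    rw [← hPQ, map_zero, zero_div]
  obtain ⟨p, hp, P1, hP1, hP⟩ := G1_prim A P hP0
  obtain ⟨q, hq, Q1, hQ1, hQe⟩ := G1_prim A Q hQ0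
  have hP1' := G1_ne' A hP1
  have hQ1' := G1_ne' A hQ1
  set ι := algebraMap (MvPolynomial σ F) (FractionRing (MvPolynomial σ F)) with hι
  have hinj : Function.Injective ι := IsFractionRing.injective _ _
  have hCp : ι (C p) ≠ 0 := by
    intro h0
    exact hp (by simpa using hinj (h0.trans (map_zero ι).symm))
  have hCq : ι (C q) ≠ 0 := by
    intro h0
    exact hq (by simpa using hinj (h0.trans (map_zero ι).symm))
  have hz1 : z = ι (C p) * ι (G1_phi A P1) / (ι (C q) * ι (G1_phi A Q1)) := by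
    rw [← hPQ, hP, hQe, map_mul, map_mul]
  rcases A.mem_or_inv_mem (p / q) with h | h
  · left
    rw [G1_mem]
    refine ⟨C ⟨p / q, h⟩ * P1, Q1, hQ1, ?_⟩
    rw [map_mul, map_mul, G1_phi_C, hz1]
    have h1 : ι (C (p / q)) = ι (C p) / ι (C q) := by
      rw [eq_div_iff hCq, ← map_mul, ← MvPolynomial.C_mul, div_mul_cancel₀ p hq]
    change _ = ι (C (p / q)) * _
    rw [h1, ← hι]
    field_simp
  · right
    rw [G1_mem]
    refine ⟨C ⟨(p / q)⁻¹, h⟩ * Q1, P1, hP1, ?_⟩
    rw [map_mul, map_mul, G1_phi_C, hz1]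
    have h1 : ι (C (p / q)⁻¹) = ι (C q) / ι (C p) := by
      rw [inv_div, eq_div_iff hCp, ← map_mul, ← MvPolynomial.C_mul, div_mul_cancel₀ q hp]
    change _ = ι (C (p / q)⁻¹) * _
    rw [h1, ← hι]
    field_simp

end

/-- The Gauss extension of a valuation ring `A` of `F` to the field of rational functions. -/
theorem gauss {F σ : Type*} [Field F] (A : ValuationSubring F) :
    ∃ O : ValuationSubring (FractionRing (MvPolynomial σ F)),
      (∀ P : MvPolynomial σ F, algebraMap (MvPolynomial σ F) (FractionRing (MvPolynomial σ F)) P ∈ O ↔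
        ∀ m, P.coeff m ∈ A) ∧
      ∀ P : MvPolynomial σ F, (∃ m, P.coeff m ≠ 0 ∧ (P.coeff m)⁻¹ ∈ A) →
        (algebraMap (MvPolynomial σ F) (FractionRing (MvPolynomial σ F)) P)⁻¹ ∈ O := by
  set ι := algebraMap (MvPolynomial σ F) (FractionRing (MvPolynomial σ F)) with hι
  have hinj : Function.Injective ι := IsFractionRing.injective _ _
  refine ⟨{ G1_ring A with mem_or_inv_mem' := G1_val A }, ?_, ?_⟩
  · intro P
    constructor
    · intro hP
      by_cases hP0 : P = 0
      · intro m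
        rw [hP0, MvPolynomial.coeff_zero]
        exact A.zero_mem
      obtain ⟨P', Q, hQ, h⟩ := (G1_mem A).mp hP
      rw [← hι, ← map_mul] at h
      have h1 : P * G1_phi A Q = G1_phi A P' := hinj h
      obtain ⟨p, hp, P1, hP1, hPe⟩ := G1_prim A P hP0
      have hpA : p ∈ A := by
        by_contra hpA
        have hpi : p⁻¹ ∈ A := (A.mem_or_inv_mem p).resolve_left hpA
        have hmax : (⟨p⁻¹, hpi⟩ : A) ∈ IsLocalRing.maximalIdeal A := by
          rw [A.valuation_lt_one_iff]
          change A.valuation p⁻¹ < 1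
          rw [map_inv₀]
          have h2 : 1 < A.valuation p := by
            rw [← not_le, A.valuation_le_one_iff]
            exact hpA
          exact inv_lt_one_of_one_lt₀ h2
        have h3 : P1 * Q = C (⟨p⁻¹, hpi⟩ : A) * P' := by
          apply G1_phi_inj A
          rw [map_mul, map_mul, G1_phi_C, ← h1, hPe]
          change _ = C p⁻¹ * _
          rw [← mul_assoc, ← mul_assoc, ← MvPolynomial.C_mul, inv_mul_cancel₀ hp,
            MvPolynomial.C_1, one_mul]
        have h4 := congrArg (G1_psi A) h3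
        have h5 : G1_psi (σ := σ) A (C (⟨p⁻¹, hpi⟩ : A)) = 0 := by
          unfold G1_psi
          rw [MvPolynomial.map_C, (IsLocalRing.residue_eq_zero_iff _).mpr hmax, MvPolynomial.C_0]
        rw [map_mul, map_mul, h5, zero_mul] at h4
        rcases mul_eq_zero.mp h4 with h6 | h6
        · exact hP1 h6
        · exact hQ h6
      intro m
      rw [hPe, MvPolynomial.coeff_C_mul, G1_coeff_phi]
      exact A.mul_mem _ _ hpA (P1.coeff m).2
    · intro hP
      obtain ⟨P', hP'⟩ := G1_lift A P hP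
      refine (G1_mem A).mpr ⟨P', 1, G1_one A, ?_⟩
      rw [hP', map_one, map_one, mul_one]
  · rintro P ⟨m, hm0, hm⟩
    have hP0 : P ≠ 0 := by
      rintro rfl
      exact hm0 (MvPolynomial.coeff_zero m)
    obtain ⟨p, hp, P1, hP1, hPe⟩ := G1_prim A P hP0
    have hP1' := G1_ne' A hP1
    rw [← hι] at hP1'
    have hcm : P.coeff m = p * ((P1.coeff m : A) : F) := by
      conv_lhs => rw [hPe]
      rw [MvPolynomial.coeff_C_mul, G1_coeff_phi]
    have hpi : p⁻¹ ∈ A := by
      have h1 : p⁻¹ = ((P1.coeff m : A) : F) * (P.coeff m)⁻¹ := by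
        have h2 : ((P1.coeff m : A) : F) ≠ 0 := by
          intro h0
          rw [h0, mul_zero] at hcm
          exact hm0 hcm
        rw [hcm, mul_inv_rev, mul_inv_cancel_left₀ h2]
      rw [h1]
      exact A.mul_mem _ _ (P1.coeff m).2 hm
    have hCp : ι (C p) ≠ 0 := by
      intro h0
      exact hp (by simpa using hinj (h0.trans (map_zero ι).symm))
    refine (G1_mem A).mpr ⟨C ⟨p⁻¹, hpi⟩, P1, hP1, ?_⟩
    rw [G1_phi_C]
    change _ = ι (C p⁻¹)
    have h1 : ι (C p⁻¹) = (ι (C p))⁻¹ := by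
      apply eq_inv_of_mul_eq_one_left
      rw [← map_mul, ← MvPolynomial.C_mul, inv_mul_cancel₀ hp, MvPolynomial.C_1, map_one]
    conv_lhs => rw [hPe]
    rw [← hι, map_mul, h1]
    field_simp

end Pool.Agent.Lib.MP_17a322_nt.JAC
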