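import Pool.Agent.Lib.MP_17a322_nt.JAC.V0

namespace Pool.Agent.Lib.MP_17a322_nt.JAC

open MvPolynomial

/-- A nonzero polynomial divided by its coefficient of maximal value has coefficients in `A`, and one
of them is `1`. -/
theorem G2a_max {F σ : Type*} [Field F] (A : ValuationSubring F) (P : MvPolynomial σ F) (hP : P ≠ 0) :
    ∃ p : F, p ≠ 0 ∧ (∀ m, (C p⁻¹ * P).coeff m ∈ A) ∧ ∃ m, (C p⁻¹ * P).coeff m = 1 := by
  classical
  have hs : P.support.Nonempty := by
    rw [Finset.nonempty_iff_ne_empty]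
    intro h
    exact hP (MvPolynomial.support_eq_empty.1 h)
  obtain ⟨m0, hm0, hmax⟩ := Finset.exists_max_image P.support (fun m => A.valuation (P.coeff m)) hs
  have hp : P.coeff m0 ≠ 0 := MvPolynomial.mem_support_iff.1 hm0
  refine ⟨P.coeff m0, hp, fun m => ?_, m0, ?_⟩
  · rw [MvPolynomial.coeff_C_mul]
    by_cases hm : P.coeff m = 0
    · rw [hm, mul_zero]
      exact A.zero_mem
    · have h := hmax m (MvPolynomial.mem_support_iff.2 hm)
      have hv : A.valuation (P.coeff m0) ≠ 0 := (Valuation.ne_zero_iff _).2 hp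
      rw [← A.valuation_le_one_iff, map_mul, map_inv₀]
      calc (A.valuation (P.coeff m0))⁻¹ * A.valuation (P.coeff m)
          ≤ (A.valuation (P.coeff m0))⁻¹ * A.valuation (P.coeff m0) := mul_le_mul_right h _
        _ = 1 := inv_mul_cancel₀ hv
  · rw [MvPolynomial.coeff_C_mul, inv_mul_cancel₀ hp]

/-- The values of the Gauss extension are the values of `F`. -/
theorem gauss_val {F σ : Type*} [Field F] (A : ValuationSubring F)
    (O : ValuationSubring (FractionRing (MvPolynomial σ F)))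
    (h1 : ∀ P : MvPolynomial σ F, algebraMap (MvPolynomial σ F) (FractionRing (MvPolynomial σ F)) P ∈ O ↔
        ∀ m, P.coeff m ∈ A)
    (h2 : ∀ P : MvPolynomial σ F, (∃ m, P.coeff m ≠ 0 ∧ (P.coeff m)⁻¹ ∈ A) →
        (algebraMap (MvPolynomial σ F) (FractionRing (MvPolynomial σ F)) P)⁻¹ ∈ O)
    (f : FractionRing (MvPolynomial σ F)) (hf : f ≠ 0) :
    ∃ a : F, a ≠ 0 ∧ f / algebraMap F _ a ∈ O ∧ algebraMap F _ a / f ∈ O := by
  have hC : ∀ a : F, algebraMap F (FractionRing (MvPolynomial σ F)) a =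
      algebraMap (MvPolynomial σ F) (FractionRing (MvPolynomial σ F)) (C a) := fun a =>
    IsScalarTower.algebraMap_apply F (MvPolynomial σ F) (FractionRing (MvPolynomial σ F)) a
  have key : ∀ P : MvPolynomial σ F, P ≠ 0 → ∃ p : F, p ≠ 0 ∧
      algebraMap (MvPolynomial σ F) (FractionRing (MvPolynomial σ F)) P /
        algebraMap F (FractionRing (MvPolynomial σ F)) p ∈ O ∧
      algebraMap F (FractionRing (MvPolynomial σ F)) p /
        algebraMap (MvPolynomial σ F) (FractionRing (MvPolynomial σ F)) P ∈ O := by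
    intro P hP
    obtain ⟨p, hp, hcoef, m0, hm0⟩ := G2a_max A P hP
    have e : algebraMap (MvPolynomial σ F) (FractionRing (MvPolynomial σ F)) (C p⁻¹ * P) =
        algebraMap (MvPolynomial σ F) (FractionRing (MvPolynomial σ F)) P /
        algebraMap F (FractionRing (MvPolynomial σ F)) p := by
      rw [map_mul, ← hC, map_inv₀, div_eq_mul_inv, mul_comm]
    refine ⟨p, hp, ?_, ?_⟩
    · rw [← e]
      exact (h1 _).2 hcoef
    · have h3 := h2 (C p⁻¹ * P) ⟨m0, by rw [hm0]; exact one_ne_zero, by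
        rw [hm0, inv_one]; exact A.one_mem⟩
      rw [e, inv_div] at h3
      exact h3
  obtain ⟨P, Q, hQ, rfl⟩ := IsFractionRing.div_surjective (A := MvPolynomial σ F) f
  have hQ0 : Q ≠ 0 := nonZeroDivisors.ne_zero hQ
  have hP0 : P ≠ 0 := by
    rintro rfl
    exact hf (by rw [map_zero, zero_div])
  obtain ⟨p, hp, hp1, hp2⟩ := key P hP0
  obtain ⟨q, hq, hq1, hq2⟩ := key Q hQ0
  refine ⟨p / q, div_ne_zero hp hq, ?_, ?_⟩
  · have h4 := O.mul_mem _ _ hp1 hq2
    rw [div_mul_div_comm] at h4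
    rw [map_div₀, div_div_div_eq, mul_comm (algebraMap (MvPolynomial σ F) _ Q)]
    exact h4
  · have h4 := O.mul_mem _ _ hp2 hq1
    rw [div_mul_div_comm] at h4
    rw [map_div₀, div_div_div_eq, mul_comm (algebraMap F _ q)]
    exact h4

end Pool.Agent.Lib.MP_17a322_nt.JAC
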