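import Pool.Agent.Lib.MP_17a322_nt.JAC.V0

namespace Pool.Agent.Lib.MP_17a322_nt.JAC

open MvPolynomial

/-- The value of a monomial with exponent `m - m₀`. -/
theorem G2b_vl {K σ : Type*} [Field K] [Fintype σ] {T : σ → K} (hT : ∀ s, T s ≠ 0) (b : K)
    (m m₀ : σ →₀ ℕ) : vl T (b, fun s => (m s : ℤ) - m₀ s) =
      b * ((∏ s, T s ^ m s) / ∏ s, T s ^ m₀ s) := by
  unfold vl
  rw [← Finset.prod_div_distrib]
  congr 1
  refine Finset.prod_congr rfl fun s _ => ?_
  rw [zpow_sub₀ (hT s), zpow_natCast, zpow_natCast]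

/-- The polynomial `P(X_s t_s)`. -/
noncomputable def G2b_tw {F σ : Type*} [Field F] (F0 : Subfield F) (t : σ → F) :
    MvPolynomial σ F0 →+* MvPolynomial σ F :=
  eval₂Hom (C.comp F0.subtype) fun s => X s * C (t s)

theorem G2b_coeff {F σ : Type*} [Field F] [Fintype σ] (F0 : Subfield F) (t : σ → F)
    (P : MvPolynomial σ F0) (m : σ →₀ ℕ) :
    coeff m (G2b_tw F0 t P) = ((coeff m P : F0) : F) * ∏ s, t s ^ m s := by
  classical
  have h1 : G2b_tw F0 t P = ∑ d ∈ P.support, monomial d (((coeff d P : F0) : F) * ∏ s, t s ^ d s) := by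
    unfold G2b_tw
    rw [coe_eval₂Hom, eval₂_eq']
    refine Finset.sum_congr rfl fun d _ => ?_
    rw [monomial_eq, Finsupp.prod_fintype _ _ fun i => pow_zero _]
    simp only [mul_pow, Finset.prod_mul_distrib, RingHom.comp_apply, Subfield.coe_subtype, C_mul,
      map_prod, map_pow]
    ring
  rw [h1, coeff_sum]
  simp only [coeff_monomial]
  rw [Finset.sum_ite_eq']
  by_cases h : m ∈ P.support
  · rw [if_pos h]
  · rw [if_neg h, notMem_support_iff.1 h]
    simp

/-- Elements of `O` which are rational functions over `F0` in `T s = c s * t s` have differentials in the span of the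
differentials of the monomials `b * T ^ m` in `O`. -/
theorem semi {F σ V : Type*} [Field F] [Fintype σ] [AddCommGroup V] [Module (FractionRing (MvPolynomial σ F)) V]
    (A : ValuationSubring F) (O : ValuationSubring (FractionRing (MvPolynomial σ F)))
    (h1 : ∀ P : MvPolynomial σ F, algebraMap (MvPolynomial σ F) (FractionRing (MvPolynomial σ F)) P ∈ O ↔
        ∀ m, P.coeff m ∈ A)
    (h2 : ∀ P : MvPolynomial σ F, (∃ m, P.coeff m ≠ 0 ∧ (P.coeff m)⁻¹ ∈ A) →
        (algebraMap (MvPolynomial σ F) (FractionRing (MvPolynomial σ F)) P)⁻¹ ∈ O)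
    (F0 : Subfield F) (t : σ → F) (ht : ∀ s, t s ≠ 0)
    (T : σ → FractionRing (MvPolynomial σ F))
    (hT : ∀ s, T s = algebraMap (MvPolynomial σ F) _ (X s) * algebraMap F _ (t s))
    (D : Derivation ℤ (FractionRing (MvPolynomial σ F)) V) (f : FractionRing (MvPolynomial σ F)) (hf : f ∈ O)
    (hf0 : f ∈ Subfield.closure (algebraMap F (FractionRing (MvPolynomial σ F)) '' F0 ∪ Set.range T)) :
    D f ∈ spn O {v | ∃ g : F × (σ → ℤ), g.1 ∈ F0 ∧ g.1 ≠ 0 ∧ vl t g ∈ A ∧
      v = D (vl T (algebraMap F _ g.1, g.2))} := by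
  classical
  set W : Set V := {v | ∃ g : F × (σ → ℤ), g.1 ∈ F0 ∧ g.1 ≠ 0 ∧ vl t g ∈ A ∧
      v = D (vl T (algebraMap F _ g.1, g.2))} with hW
  have hCF : ∀ a : F, algebraMap F (FractionRing (MvPolynomial σ F)) a =
      algebraMap (MvPolynomial σ F) _ (C a) := fun a => by
    rw [IsScalarTower.algebraMap_apply F (MvPolynomial σ F), MvPolynomial.algebraMap_eq]
  have hgen : ∀ (p : MvPolynomial σ F) (k : F),
      algebraMap (MvPolynomial σ F) (FractionRing (MvPolynomial σ F)) p / algebraMap F _ k =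
        algebraMap (MvPolynomial σ F) _ (p * C k⁻¹) := fun p k => by
    rw [map_mul, ← hCF, map_inv₀, div_eq_mul_inv]
  have hinj : Function.Injective
      (algebraMap (MvPolynomial σ F) (FractionRing (MvPolynomial σ F))) :=
    IsFractionRing.injective _ _
  have hX0 : ∀ s, algebraMap (MvPolynomial σ F) (FractionRing (MvPolynomial σ F)) (X s) ≠ 0 :=
    fun s => by
      rw [Ne, map_eq_zero_iff _ hinj]
      exact X_ne_zero s
  have hF0 : ∀ a : F, a ≠ 0 → algebraMap F (FractionRing (MvPolynomial σ F)) a ≠ 0 := fun a ha => by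
    rw [Ne, map_eq_zero]
    exact ha
  have hT0 : ∀ s, T s ≠ 0 := fun s => by
    rw [hT]
    exact mul_ne_zero (hX0 s) (hF0 _ (ht s))
  -- the values of polynomials at `T`
  let φ : MvPolynomial σ F0 →+* FractionRing (MvPolynomial σ F) :=
    eval₂Hom ((algebraMap F (FractionRing (MvPolynomial σ F))).comp F0.subtype) T
  have hφ : ∀ P, φ P = algebraMap (MvPolynomial σ F) _ (G2b_tw F0 t P) := by
    intro P
    have h3 : φ = (algebraMap (MvPolynomial σ F) (FractionRing (MvPolynomial σ F))).comp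
        (G2b_tw F0 t) := by
      refine ringHom_ext (fun a => ?_) fun s => ?_
      · rw [RingHom.comp_apply]
        simp only [φ, G2b_tw, coe_eval₂Hom, eval₂_C, RingHom.comp_apply]
        exact hCF _
      · rw [RingHom.comp_apply]
        simp only [φ, G2b_tw, coe_eval₂Hom, eval₂_X, map_mul]
        rw [hT, hCF]
    rw [h3, RingHom.comp_apply]
  have hφs : ∀ P, φ P = ∑ d ∈ P.support, algebraMap F _ ((coeff d P : F0) : F) * ∏ s, T s ^ d s := by
    intro P
    simp only [φ, coe_eval₂Hom]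
    rw [eval₂_eq']
    rfl
  obtain ⟨y, hy, z, hz, rfl⟩ := Subfield.mem_closure_iff.1 hf0
  have hle : Subring.closure (algebraMap F (FractionRing (MvPolynomial σ F)) '' F0 ∪ Set.range T) ≤
      φ.range := by
    rw [Subring.closure_le]
    rintro x (⟨a, ha, rfl⟩ | ⟨s, rfl⟩)
    · refine ⟨C ⟨a, ha⟩, ?_⟩
      simp only [φ, coe_eval₂Hom, eval₂_C]
      rfl
    · exact ⟨X s, by simp only [φ, coe_eval₂Hom, eval₂_X]⟩
  obtain ⟨P, rfl⟩ := hle hy
  obtain ⟨Q, rfl⟩ := hle hz
  by_cases hQ : φ Q = 0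
  · rw [hQ, div_zero, map_zero]
    exact zero_mem _
  have hQ0 : Q ≠ 0 := fun h => hQ (by rw [h, map_zero])
  -- the monomial of maximal valuation
  obtain ⟨m₀, hm₀, hmax⟩ := Finset.exists_max_image Q.support
    (fun m => A.valuation (((coeff m Q : F0) : F) * ∏ s, t s ^ m s)) (support_nonempty.2 hQ0)
  have hq0 : ((coeff m₀ Q : F0) : F) ≠ 0 := by
    have h3 := mem_support_iff.1 hm₀
    exact fun h => h3 (Subtype.ext h)
  have ht0 : ∀ m : σ →₀ ℕ, ∏ s, t s ^ m s ≠ 0 := fun m =>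
    Finset.prod_ne_zero_iff.2 fun s _ => pow_ne_zero _ (ht s)
  set κ : F := ((coeff m₀ Q : F0) : F) * ∏ s, t s ^ m₀ s with hκ
  have hκ0 : κ ≠ 0 := mul_ne_zero hq0 (ht0 m₀)
  have hQA : ∀ m, ((coeff m Q : F0) : F) * (∏ s, t s ^ m s) / κ ∈ A := by
    intro m
    by_cases hm : m ∈ Q.support
    · rw [← A.valuation_le_one_iff, map_div₀]
      have h3 : A.valuation κ ≠ 0 := (Valuation.ne_zero_iff _).2 hκ0
      exact (div_le_one₀ (zero_lt_iff.2 h3)).2 (hmax m hm)
    · rw [notMem_support_iff.1 hm]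
      simp
  -- the normalised values
  have hnorm : ∀ R : MvPolynomial σ F0, φ R / algebraMap F _ κ =
      algebraMap (MvPolynomial σ F) _ (G2b_tw F0 t R * C κ⁻¹) := by
    intro R
    rw [hφ]
    exact hgen _ κ
  have hcoef : ∀ (R : MvPolynomial σ F0) m, coeff m (G2b_tw F0 t R * C κ⁻¹) =
      ((coeff m R : F0) : F) * (∏ s, t s ^ m s) / κ := by
    intro R m
    rw [mul_comm, coeff_C_mul, G2b_coeff, div_eq_mul_inv, mul_comm]
  have hκE : algebraMap F (FractionRing (MvPolynomial σ F)) κ ≠ 0 := hF0 κ hκ0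
  have hQ1 : φ Q / algebraMap F _ κ ∈ O := by
    rw [hnorm, h1]
    intro m
    rw [hcoef]
    exact hQA m
  have hQ1' : (φ Q / algebraMap F _ κ)⁻¹ ∈ O := by
    rw [hnorm]
    refine h2 _ ⟨m₀, ?_⟩
    rw [hcoef, ← hκ, div_self hκ0]
    exact ⟨one_ne_zero, by rw [inv_one]; exact A.one_mem⟩
  have hP1 : φ P / algebraMap F _ κ ∈ O := by
    have h3 : φ P / algebraMap F _ κ = φ P / φ Q * (φ Q / algebraMap F _ κ) := by
      field_simp
    rw [h3]
    exact O.mul_mem _ _ hf hQ1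
  have hPA : ∀ m, ((coeff m P : F0) : F) * (∏ s, t s ^ m s) / κ ∈ A := by
    intro m
    rw [← hcoef]
    rw [hnorm, h1] at hP1
    exact hP1 m
  -- the unit `u`
  set u : FractionRing (MvPolynomial σ F) :=
    algebraMap F _ ((coeff m₀ Q : F0) : F) * ∏ s, T s ^ m₀ s with hu
  have hu1 : u = algebraMap F _ κ * ∏ s, algebraMap (MvPolynomial σ F) _ (X s) ^ m₀ s := by
    rw [hu, hκ, map_mul, map_prod, mul_assoc, ← Finset.prod_mul_distrib]
    congr 1
    refine Finset.prod_congr rfl fun s _ => ?_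
    rw [hT, mul_pow, map_pow, mul_comm]
  have hc0 : ∏ s, algebraMap (MvPolynomial σ F) (FractionRing (MvPolynomial σ F)) (X s) ^ m₀ s ≠ 0 :=
    Finset.prod_ne_zero_iff.2 fun s _ => pow_ne_zero _ (hX0 s)
  have hcO : ∏ s, algebraMap (MvPolynomial σ F) (FractionRing (MvPolynomial σ F)) (X s) ^ m₀ s ∈
      O := by
    refine prod_mem fun s _ => pow_mem ?_ _
    rw [h1]
    intro m
    rw [coeff_X]
    split_ifs
    · exact A.one_mem
    · exact A.zero_mem
  have hu0 : u ≠ 0 := by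
    rw [hu1]
    exact mul_ne_zero hκE hc0
  have hmono : ∀ (R : MvPolynomial σ F0), (∀ m, ((coeff m R : F0) : F) * (∏ s, t s ^ m s) / κ ∈ A) →
      D (φ R / u) ∈ spn O W := by
    intro R hR
    have h3 : φ R / u = ∑ d ∈ R.support,
        vl T (algebraMap F _ (((coeff d R : F0) : F) / ((coeff m₀ Q : F0) : F)), fun s => (d s : ℤ) - m₀ s) := by
      rw [hφs, hu, Finset.sum_div]
      refine Finset.sum_congr rfl fun d _ => ?_
      rw [G2b_vl hT0, map_div₀, mul_div_mul_comm]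
    rw [h3, map_sum]
    refine sum_mem fun d hd => mem_spn O W ?_
    refine ⟨(((coeff d R : F0) : F) / ((coeff m₀ Q : F0) : F), fun s => (d s : ℤ) - m₀ s), ?_, ?_, ?_, rfl⟩
    · exact F0.div_mem (coeff d R).2 (coeff m₀ Q).2
    · refine div_ne_zero ?_ hq0
      have h4 := mem_support_iff.1 hd
      exact fun h => h4 (Subtype.ext h)
    · rw [G2b_vl ht, ← mul_div_mul_comm]
      exact hR d
  have hD1 := hmono P hPA
  have hD2 := hmono Q hQA
  have hDf : D (φ P / φ Q) = (φ Q / u)⁻¹ • (D (φ P / u) - (φ P / φ Q) • D (φ Q / u)) := by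
    have h3 : φ P / u = φ P / φ Q * (φ Q / u) := by
      field_simp
    have h4 : φ Q / u ≠ 0 := div_ne_zero hQ hu0
    rw [h3, Derivation.leibniz, add_sub_cancel_left, smul_smul, inv_mul_cancel₀ h4, one_smul]
  rw [hDf]
  refine smul_mem_spn O W ?_ (sub_mem hD1 (smul_mem_spn O W hf hD2))
  have h3 : (φ Q / u)⁻¹ = (φ Q / algebraMap F _ κ)⁻¹ *
      ∏ s, algebraMap (MvPolynomial σ F) _ (X s) ^ m₀ s := by
    rw [hu1]
    field_simp
  rw [h3]
  exact O.mul_mem _ _ hQ1' hcO

end Pool.Agent.Lib.MP_17a322_nt.JAC
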