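import Pool.Agent.Lib.MP_17a322_nt.JAC.S1a

namespace Pool.Agent.Lib.MP_17a322_nt.JAC

open MvPolynomial

/-- A ring homomorphism into the square zero extension `E ⊕ V` which lifts the inclusion of `A` in its
fraction field `E` gives a derivation of `E` (over the integers). -/
theorem S1b_main {A E V : Type*} [CommRing A] [IsDomain A] [Field E] [Algebra A E] [IsFractionRing A E]
    [AddCommGroup V] [Module E V] [Module Eᵐᵒᵖ V] [IsCentralScalar E V]
    (Φ0 : A →+* TrivSqZeroExt E V) (h : ∀ a, (Φ0 a).fst = algebraMap A E a) :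
    ∃ D : E →+ V, (∀ x y, D (x * y) = x • D y + y • D x) ∧ ∀ a, D (algebraMap A E a) = (Φ0 a).snd := by
  have hu : ∀ y : nonZeroDivisors A, IsUnit (Φ0 y) := by
    intro y
    rw [TrivSqZeroExt.isUnit_iff_isUnit_fst, h]
    exact IsLocalization.map_units E y
  have hl : ∀ a, (IsLocalization.lift (M := nonZeroDivisors A) (S := E) hu) (algebraMap A E a) = Φ0 a :=
    fun a => IsLocalization.lift_eq hu a
  have hf : ∀ z : E, ((IsLocalization.lift (M := nonZeroDivisors A) (S := E) hu) z).fst = z := by
    have h1 : (TrivSqZeroExt.fstHom E E V).toRingHom.comp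
        (IsLocalization.lift (M := nonZeroDivisors A) (S := E) hu) = RingHom.id E := by
      refine IsLocalization.ringHom_ext (nonZeroDivisors A) ?_
      ext a
      simp only [RingHom.comp_apply, hl, RingHom.id_apply]
      exact h a
    intro z
    exact congrArg (fun φ : E →+* E => φ z) h1
  generalize IsLocalization.lift (M := nonZeroDivisors A) (S := E) hu = Φ at hl hf
  refine ⟨{ toFun := fun z => (Φ z).snd
            map_zero' := by rw [map_zero, TrivSqZeroExt.snd_zero]
            map_add' := fun x y => by rw [map_add, TrivSqZeroExt.snd_add] }, ?_, fun a => ?_⟩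
  · intro x y
    change (Φ (x * y)).snd = x • (Φ y).snd + y • (Φ x).snd
    rw [map_mul, TrivSqZeroExt.snd_mul, hf, hf, op_smul_eq_smul]
  · change (Φ (algebraMap A E a)).snd = _
    rw [hl]

/-- The derivation `D = (δ l on coefficients, c_s ∂/∂c_s)` on the field of rational functions `F(c)`. -/
theorem derE {k F α σ : Type*} [Field k] [Field F] [Algebra k F] [DecidableEq σ] (δ : α → Derivation k F F) :
    ∃ D : Derivation ℤ (FractionRing (MvPolynomial σ F)) (α ⊕ σ → FractionRing (MvPolynomial σ F)),
      (∀ f : F, D (algebraMap F _ f) = Sum.elim (fun l => algebraMap F _ (δ l f)) (fun _ => 0)) ∧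
      ∀ s, D (algebraMap (MvPolynomial σ F) _ (X s)) =
        Sum.elim (fun _ => 0) (Pi.single s (algebraMap (MvPolynomial σ F) _ (X s))) := by
  have hC : ∀ a : F, algebraMap F (FractionRing (MvPolynomial σ F)) a =
      algebraMap (MvPolynomial σ F) (FractionRing (MvPolynomial σ F)) (C a) := fun a =>
    IsScalarTower.algebraMap_apply F (MvPolynomial σ F) (FractionRing (MvPolynomial σ F)) a
  have hφ : ∃ φ : F →+* TrivSqZeroExt (FractionRing (MvPolynomial σ F))
      (α ⊕ σ → FractionRing (MvPolynomial σ F)), ∀ a, (φ a).fst = algebraMap F _ a ∧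
        (φ a).snd = Sum.elim (fun l => algebraMap F _ (δ l a)) (fun _ => 0) := by
    refine ⟨{ toFun := fun a => TrivSqZeroExt.inl (algebraMap F _ a) +
                TrivSqZeroExt.inr (Sum.elim (fun l => algebraMap F _ (δ l a)) (fun _ => 0))
              map_one' := ?_
              map_mul' := ?_
              map_zero' := ?_
              map_add' := ?_ }, fun a => ⟨?_, ?_⟩⟩
    · refine TrivSqZeroExt.ext ?_ ?_
      · simp
      · funext j
        rcases j with j | j <;> simp
    · intro a b
      refine TrivSqZeroExt.ext ?_ ?_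
      · simp
      · funext j
        rcases j with j | j
        · simp [Derivation.leibniz, Algebra.smul_def]
        · simp
    · refine TrivSqZeroExt.ext ?_ ?_
      · simp
      · funext j
        rcases j with j | j <;> simp
    · intro a b
      refine TrivSqZeroExt.ext ?_ ?_
      · simp
      · funext j
        rcases j with j | j <;> simp
    · simp
    · simp
  obtain ⟨φ, hφ⟩ := hφ
  have hX : ∀ P : MvPolynomial σ F, ((eval₂Hom φ (fun s => TrivSqZeroExt.inl
      (algebraMap (MvPolynomial σ F) (FractionRing (MvPolynomial σ F)) (X s)) + TrivSqZeroExt.inr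
      (Sum.elim (fun _ => 0) (Pi.single s (algebraMap (MvPolynomial σ F) _ (X s))))) P)).fst =
      algebraMap (MvPolynomial σ F) (FractionRing (MvPolynomial σ F)) P := by
    intro P
    induction P using MvPolynomial.induction_on with
    | C a => rw [coe_eval₂Hom, eval₂_C, (hφ a).1, hC]
    | add p q hp hq => rw [map_add, TrivSqZeroExt.fst_add, hp, hq, map_add]
    | mul_X p s hp =>
      rw [map_mul, TrivSqZeroExt.fst_mul, hp, map_mul, coe_eval₂Hom, eval₂_X]
      simp
  obtain ⟨D, hD1, hD⟩ := S1b_main _ hX
  have hD2 : D 1 = 0 := by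
    have h := hD1 1 1
    rw [mul_one, one_smul] at h
    exact left_eq_add.1 h
  obtain ⟨D', hD'⟩ : ∃ D' : Derivation ℤ (FractionRing (MvPolynomial σ F))
      (α ⊕ σ → FractionRing (MvPolynomial σ F)), ∀ z, D' z = D z := by
    refine ⟨@Derivation.mk _ _ _ _ _ _ _ _ _ (@LinearMap.mk _ _ _ _ _ _ _ _ _ Algebra.toModule _
      (@AddHom.mk _ _ _ _ D D.map_add) ?_) ?_ ?_, ?_⟩
    · intro n x
      rw [Algebra.smul_def, eq_intCast, ← zsmul_eq_mul]
      exact D.map_zsmul n x
    · exact hD2
    · exact hD1
    · exact fun z => rfl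
  refine ⟨D', fun f => ?_, fun s => ?_⟩
  · rw [hD', hC, hD, coe_eval₂Hom, eval₂_C, (hφ f).2]
  · rw [hD', hD, coe_eval₂Hom, eval₂_X]
    simp

end Pool.Agent.Lib.MP_17a322_nt.JAC
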