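import Pool.Agent.Lib.MP_17a322_nt.JAC.V0

namespace Pool.Agent.Lib.MP_17a322_nt.JAC

open MvPolynomial

private theorem S2a_one {E V : Type*} [Field E] [AddCommGroup V] [Module E V] (D : E → V)
    (hD : ∀ x y, D (x * y) = x • D y + y • D x) : D 1 = 0 := by
  have h := hD 1 1
  rw [mul_one, one_smul] at h
  exact left_eq_add.mp h

private theorem S2a_ldmul {E V : Type*} [Field E] [AddCommGroup V] [Module E V] (D : E → V)
    (hD : ∀ x y, D (x * y) = x • D y + y • D x)
    {x y : E} (hx : x ≠ 0) (hy : y ≠ 0) :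
    (x * y)⁻¹ • D (x * y) = x⁻¹ • D x + y⁻¹ • D y := by
  have e1 : (x * y)⁻¹ * y = x⁻¹ := by field_simp
  have e2 : (x * y)⁻¹ * x = y⁻¹ := by field_simp
  rw [hD, smul_add, smul_smul, smul_smul, e1, e2, add_comm]

private theorem S2a_ldinv {E V : Type*} [Field E] [AddCommGroup V] [Module E V] (D : E → V)
    (hD : ∀ x y, D (x * y) = x • D y + y • D x)
    {x : E} (hx : x ≠ 0) : (x⁻¹)⁻¹ • D x⁻¹ = -(x⁻¹ • D x) := by
  have h := S2a_ldmul D hD hx (inv_ne_zero hx)
  rw [mul_inv_cancel₀ hx, S2a_one D hD, smul_zero] at h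
  exact eq_neg_of_add_eq_zero_right h.symm

private theorem S2a_ldpow {E V : Type*} [Field E] [AddCommGroup V] [Module E V] (D : E → V)
    (hD : ∀ x y, D (x * y) = x • D y + y • D x)
    {x : E} (hx : x ≠ 0) (n : ℕ) : (x ^ n)⁻¹ • D (x ^ n) = (n : E) • (x⁻¹ • D x) := by
  induction n with
  | zero => rw [pow_zero, S2a_one D hD, smul_zero, Nat.cast_zero, zero_smul]
  | succ n ih => rw [pow_succ, S2a_ldmul D hD (pow_ne_zero n hx) hx, ih, Nat.cast_succ, add_smul, one_smul]

private theorem S2a_ldzpow {E V : Type*} [Field E] [AddCommGroup V] [Module E V] (D : E → V)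
    (hD : ∀ x y, D (x * y) = x • D y + y • D x)
    {x : E} (hx : x ≠ 0) (n : ℤ) : (x ^ n)⁻¹ • D (x ^ n) = (n : E) • (x⁻¹ • D x) := by
  rcases n with n | n
  · rw [Int.ofNat_eq_natCast, zpow_natCast, Int.cast_natCast]
    exact S2a_ldpow D hD hx n
  · rw [zpow_negSucc, S2a_ldinv D hD (pow_ne_zero _ hx), S2a_ldpow D hD hx, Int.cast_negSucc, neg_smul]

private theorem S2a_ldprod {E V σ : Type*} [Field E] [AddCommGroup V] [Module E V] (D : E → V)
    (hD : ∀ x y, D (x * y) = x • D y + y • D x)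
    (s : Finset σ) (f : σ → E) (hf : ∀ i, f i ≠ 0) :
    (∏ i ∈ s, f i)⁻¹ • D (∏ i ∈ s, f i) = ∑ i ∈ s, (f i)⁻¹ • D (f i) := by
  classical
  induction s using Finset.induction_on with
  | empty => rw [Finset.prod_empty, Finset.sum_empty, S2a_one D hD, smul_zero]
  | insert a s ha ih =>
    rw [Finset.prod_insert ha, Finset.sum_insert ha,
      S2a_ldmul D hD (hf a) (Finset.prod_ne_zero_iff.mpr fun i _ => hf i), ih]

private theorem S2a_prodz {E α : Type*} [Field E] {x : E} (hx : x ≠ 0) (s : Finset α) (m : α → ℤ) :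
    ∏ i ∈ s, x ^ m i = x ^ (∑ i ∈ s, m i) := by
  classical
  induction s using Finset.induction_on with
  | empty => rw [Finset.prod_empty, Finset.sum_empty, zpow_zero]
  | insert a s ha ih => rw [Finset.prod_insert ha, Finset.sum_insert ha, ih, zpow_add₀ hx]

private theorem S2a_main {F E α σ : Type*} [Field F] [Field E] [Fintype α] [DecidableEq α] [Fintype σ] [DecidableEq σ]
    (δ : α → F → F) (A : F →+* E) (D : E → (α ⊕ σ → E)) (hD : ∀ x y, D (x * y) = x • D y + y • D x)
    (hD1 : ∀ f : F, D (A f) = Sum.elim (fun l => A (δ l f)) (fun _ => 0)) (X' : σ → E) (hX0 : ∀ s, X' s ≠ 0)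
    (hD2 : ∀ s, D (X' s) = Sum.elim (fun _ => 0) (Pi.single s (X' s)))
    (t : σ → F) (ht : ∀ s, t s ≠ 0) (T : σ → E) (hT : ∀ s, T s = X' s * A (t s))
    (g : α ⊕ σ → F × (σ → ℤ)) (hg : ∀ i, (g i).1 ≠ 0) :
    (Matrix.of fun i j => D (vl T (A (g i).1, (g i).2)) j).det = A (GM δ t g) * ∏ s, X' s ^ (∑ i, (g i).2 s) := by
  have hAi : Function.Injective A := A.injective
  have hA0 : ∀ x : F, x ≠ 0 → A x ≠ 0 := fun x hx h => hx (hAi (h.trans A.map_zero.symm))
  have hT0 : ∀ s, T s ≠ 0 := fun s => by rw [hT]; exact mul_ne_zero (hX0 s) (hA0 _ (ht s))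
  -- logarithmic derivatives
  have ldA : ∀ b : F, b ≠ 0 → (A b)⁻¹ • D (A b) = Sum.elim (fun l => A (δ l b / b)) (fun _ => 0) := by
    intro b hb
    rw [hD1 b]
    funext j
    rcases j with l | s
    · simp only [Pi.smul_apply, Sum.elim_inl, smul_eq_mul, map_div₀]
      rw [inv_mul_eq_div]
    · simp only [Pi.smul_apply, Sum.elim_inr, smul_eq_mul, mul_zero]
  have ldX : ∀ s, (X' s)⁻¹ • D (X' s) = Sum.elim (fun _ => 0) (Pi.single s 1) := by
    intro s
    rw [hD2 s]
    funext j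
    rcases j with l | r
    · simp only [Pi.smul_apply, Sum.elim_inl, smul_eq_mul, mul_zero]
    · simp only [Pi.smul_apply, Sum.elim_inr, smul_eq_mul]
      by_cases hr : r = s
      · subst hr
        rw [Pi.single_eq_same, Pi.single_eq_same, inv_mul_cancel₀ (hX0 r)]
      · rw [Pi.single_eq_of_ne hr, Pi.single_eq_of_ne hr, mul_zero]
  have ldT : ∀ s, (T s)⁻¹ • D (T s) =
      Sum.elim (fun _ => 0) (Pi.single s 1) + Sum.elim (fun l => A (δ l (t s) / t s)) (fun _ => 0) := by
    intro s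
    rw [hT s, S2a_ldmul D hD (hX0 s) (hA0 _ (ht s)), ldX, ldA _ (ht s)]
  set u : α ⊕ σ → E := fun i => vl T (A (g i).1, (g i).2) with hu
  have hu' : ∀ i, u i = A (g i).1 * ∏ s, T s ^ (g i).2 s := fun i => rfl
  have hu0 : ∀ i, u i ≠ 0 := fun i => by
    rw [hu']
    exact mul_ne_zero (hA0 _ (hg i)) (Finset.prod_ne_zero_iff.mpr fun s _ => zpow_ne_zero _ (hT0 s))
  have ldu : ∀ i, (u i)⁻¹ • D (u i) = Sum.elim (fun l => A (δ l (g i).1 / (g i).1)) (fun _ => 0) +
      ∑ s, (((g i).2 s : ℤ) : E) • ((Sum.elim (fun _ => 0) (Pi.single s 1) : α ⊕ σ → E) +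
        Sum.elim (fun l => A (δ l (t s) / t s)) (fun _ => 0)) := by
    intro i
    rw [hu' i, S2a_ldmul D hD (hA0 _ (hg i))
      (Finset.prod_ne_zero_iff.mpr fun s _ => zpow_ne_zero _ (hT0 s)), ldA _ (hg i),
      S2a_ldprod D hD _ _ (fun s => zpow_ne_zero _ (hT0 s))]
    congr 1
    refine Finset.sum_congr rfl fun s _ => ?_
    rw [S2a_ldzpow D hD (hT0 s), ldT]
  -- the matrices
  set G : Matrix (α ⊕ σ) (α ⊕ σ) F := Matrix.of fun i j =>
    Sum.elim (fun l => δ l (g i).1 / (g i).1) (fun s => ((g i).2 s : F)) j with hG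
  set C : Matrix σ α E := Matrix.of fun s l => A (δ l (t s) / t s) with hC
  set U : Matrix (α ⊕ σ) (α ⊕ σ) E := Matrix.fromBlocks 1 0 C 1 with hU
  have hM : (Matrix.of fun i j => D (u i) j) = Matrix.diagonal u * (G.map A * U) := by
    ext i j
    rw [Matrix.diagonal_mul, Matrix.of_apply]
    have h1 : D (u i) j = u i * ((u i)⁻¹ • D (u i)) j := by
      rw [Pi.smul_apply, smul_eq_mul, mul_inv_cancel_left₀ (hu0 i)]
    rw [h1, ldu i, Matrix.mul_apply, Fintype.sum_sum_type]
    congr 1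
    rcases j with l | r
    · simp only [Pi.add_apply, Finset.sum_apply, Pi.smul_apply, Sum.elim_inl, smul_eq_mul, zero_add]
      congr 1
      · rw [Finset.sum_eq_single l]
        · rw [hU, Matrix.fromBlocks_apply₁₁, Matrix.one_apply_eq, mul_one, Matrix.map_apply, hG, Matrix.of_apply,
            Sum.elim_inl]
        · intro l' _ hl'
          rw [hU, Matrix.fromBlocks_apply₁₁, Matrix.one_apply_ne hl', mul_zero]
        · intro h
          exact absurd (Finset.mem_univ _) h
      · refine Finset.sum_congr rfl fun s _ => ?_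
        rw [hU, Matrix.fromBlocks_apply₂₁, Matrix.map_apply, hG, Matrix.of_apply, Sum.elim_inr, hC, Matrix.of_apply,
          map_intCast]
    · simp only [Pi.add_apply, Finset.sum_apply, Pi.smul_apply, Sum.elim_inr, smul_eq_mul, zero_add, add_zero]
      have e1 : ∑ x : α, G.map A i (Sum.inl x) * U (Sum.inl x) (Sum.inr r) = 0 :=
        Finset.sum_eq_zero fun x _ => by
          rw [hU, Matrix.fromBlocks_apply₁₂, Matrix.zero_apply, mul_zero]
      rw [e1, zero_add]
      refine Finset.sum_congr rfl fun s _ => ?_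
      rw [hU, Matrix.fromBlocks_apply₂₂, Matrix.map_apply, hG, Matrix.of_apply, Sum.elim_inr, map_intCast]
      congr 1
      by_cases hr : s = r
      · subst hr
        rw [Pi.single_eq_same, Matrix.one_apply_eq]
      · rw [Pi.single_eq_of_ne (Ne.symm hr), Matrix.one_apply_ne hr]
  have hdetU : U.det = 1 := by
    rw [hU, Matrix.det_fromBlocks_zero₁₂, Matrix.det_one, Matrix.det_one, mul_one]
  have hdetG : (G.map A).det = A G.det := by
    rw [RingHom.map_det]
    rfl
  have hprod : ∏ i, u i = A (∏ i, vl t (g i)) * ∏ s, X' s ^ (∑ i, (g i).2 s) := by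
    have h1 : ∀ i, u i = A (vl t (g i)) * ∏ s, X' s ^ (g i).2 s := by
      intro i
      rw [hu' i]
      have h2 : A (vl t (g i)) = A (g i).1 * ∏ s, A (t s) ^ (g i).2 s := by
        show A ((g i).1 * ∏ s, t s ^ (g i).2 s) = _
        rw [map_mul, map_prod]
        congr 1
        refine Finset.prod_congr rfl fun s _ => ?_
        rw [map_zpow₀]
      rw [h2, mul_assoc, ← Finset.prod_mul_distrib]
      congr 1
      refine Finset.prod_congr rfl fun s _ => ?_
      rw [hT s, mul_zpow, mul_comm]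
    rw [Finset.prod_congr rfl fun i _ => h1 i, Finset.prod_mul_distrib, map_prod]
    congr 1
    rw [Finset.prod_comm]
    refine Finset.prod_congr rfl fun s _ => ?_
    exact S2a_prodz (hX0 s) _ _
  have hGM : GM δ t g = (∏ i, vl t (g i)) * G.det := rfl
  rw [hM, Matrix.det_mul, Matrix.det_diagonal, Matrix.det_mul, hdetU, mul_one, hdetG, hprod, hGM, map_mul]
  ring

/-- The determinant of the differentials of monomials `b * T ^ m`. -/
theorem detD {k F α σ : Type*} [Field k] [Field F] [Algebra k F] [Fintype α] [DecidableEq α] [Fintype σ] [DecidableEq σ]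
    (δ : α → Derivation k F F)
    (D : Derivation ℤ (FractionRing (MvPolynomial σ F)) (α ⊕ σ → FractionRing (MvPolynomial σ F)))
    (hD1 : ∀ f : F, D (algebraMap F _ f) = Sum.elim (fun l => algebraMap F _ (δ l f)) (fun _ => 0))
    (hD2 : ∀ s, D (algebraMap (MvPolynomial σ F) _ (X s)) =
        Sum.elim (fun _ => 0) (Pi.single s (algebraMap (MvPolynomial σ F) _ (X s))))
    (t : σ → F) (ht : ∀ s, t s ≠ 0) (T : σ → FractionRing (MvPolynomial σ F))
    (hT : ∀ s, T s = algebraMap (MvPolynomial σ F) _ (X s) * algebraMap F _ (t s))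
    (g : α ⊕ σ → F × (σ → ℤ)) (hg : ∀ i, (g i).1 ≠ 0) :
    (Matrix.of fun i j => D (vl T (algebraMap F _ (g i).1, (g i).2)) j).det =
      algebraMap F _ (GM (fun l => δ l) t g) *
        ∏ s, (algebraMap (MvPolynomial σ F) (FractionRing (MvPolynomial σ F)) (X s)) ^ (∑ i, (g i).2 s) := by
  have hX0 : ∀ s, algebraMap (MvPolynomial σ F) (FractionRing (MvPolynomial σ F)) (X s) ≠ 0 := fun s h =>
    X_ne_zero s (IsFractionRing.injective (MvPolynomial σ F) (FractionRing (MvPolynomial σ F))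
      (h.trans (map_zero _).symm))
  exact S2a_main (fun l => ⇑(δ l)) (algebraMap F (FractionRing (MvPolynomial σ F))) (fun x => D x)
    (fun x y => D.leibniz x y) hD1 (fun s => algebraMap (MvPolynomial σ F) (FractionRing (MvPolynomial σ F)) (X s))
    hX0 hD2 t ht T hT g hg

end Pool.Agent.Lib.MP_17a322_nt.JAC
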