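import Pool.Agent.Lib.MP_17a322_nt.JAC.E6
import Pool.Agent.Lib.MP_17a322_nt.JAC.G1
import Pool.Agent.Lib.MP_17a322_nt.JAC.G2a
import Pool.Agent.Lib.MP_17a322_nt.JAC.G2b
import Pool.Agent.Lib.MP_17a322_nt.JAC.S1b
import Pool.Agent.Lib.MP_17a322_nt.JAC.S2a
import Pool.Agent.Lib.MP_17a322_nt.JAC.S2b

namespace Pool.Agent.Lib.MP_17a322_nt.JAC

open MvPolynomial

private theorem S3_C {F σ : Type*} [Field F] (a : F) :
    algebraMap (MvPolynomial σ F) (FractionRing (MvPolynomial σ F)) (C a) =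
      algebraMap F (FractionRing (MvPolynomial σ F)) a := by
  rw [IsScalarTower.algebraMap_apply F (MvPolynomial σ F) (FractionRing (MvPolynomial σ F)),
    MvPolynomial.algebraMap_eq]

private theorem S3_mem_iff {F σ : Type*} [Field F] {A : ValuationSubring F}
    {O : ValuationSubring (FractionRing (MvPolynomial σ F))}
    (h1 : ∀ P : MvPolynomial σ F, algebraMap (MvPolynomial σ F) (FractionRing (MvPolynomial σ F)) P ∈ O ↔
        ∀ m, P.coeff m ∈ A) (a : F) :
    algebraMap F (FractionRing (MvPolynomial σ F)) a ∈ O ↔ a ∈ A := by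
  classical
  rw [← S3_C, h1]
  constructor
  · intro h
    have h2 := h 0
    rwa [coeff_zero_C] at h2
  · intro h m
    rw [coeff_C]
    split_ifs
    · exact h
    · exact A.zero_mem

private theorem S3_X {F σ : Type*} [Field F] {A : ValuationSubring F}
    {O : ValuationSubring (FractionRing (MvPolynomial σ F))}
    (h1 : ∀ P : MvPolynomial σ F, algebraMap (MvPolynomial σ F) (FractionRing (MvPolynomial σ F)) P ∈ O ↔
        ∀ m, P.coeff m ∈ A)
    (h2 : ∀ P : MvPolynomial σ F, (∃ m, P.coeff m ≠ 0 ∧ (P.coeff m)⁻¹ ∈ A) →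
        (algebraMap (MvPolynomial σ F) (FractionRing (MvPolynomial σ F)) P)⁻¹ ∈ O) (s : σ) :
    algebraMap (MvPolynomial σ F) (FractionRing (MvPolynomial σ F)) (X s) ∈ O ∧
      (algebraMap (MvPolynomial σ F) (FractionRing (MvPolynomial σ F)) (X s))⁻¹ ∈ O := by
  classical
  constructor
  · rw [h1]
    intro m
    rw [coeff_X]
    split_ifs
    · exact A.one_mem
    · exact A.zero_mem
  · apply h2
    refine ⟨Finsupp.single s 1, ?_, ?_⟩
    · rw [coeff_X, if_pos rfl]; exact one_ne_zero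
    · rw [coeff_X, if_pos rfl, inv_one]; exact A.one_mem

private theorem S3_X_ne {F σ : Type*} [Field F] (s : σ) :
    algebraMap (MvPolynomial σ F) (FractionRing (MvPolynomial σ F)) (X s) ≠ 0 := by
  intro h
  have h3 : (X s : MvPolynomial σ F) = 0 :=
    (IsFractionRing.injective (MvPolynomial σ F) (FractionRing (MvPolynomial σ F)))
      (h.trans (map_zero _).symm)
  exact X_ne_zero s h3

private theorem S3_zpow {E : Type*} [Field E] (O : ValuationSubring E) {x : E} (hx : x ∈ O)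
    (hx' : x⁻¹ ∈ O) (n : ℤ) : x ^ n ∈ O := by
  rcases n with n | n
  · rw [Int.ofNat_eq_natCast, zpow_natCast]
    exact O.pow_mem hx n
  · rw [zpow_negSucc, ← inv_pow]
    exact O.pow_mem hx' _

private theorem S3_alg {F σ : Type*} [Field F] (F0 : Subfield F)
    (halg : ∀ f : F, IsAlgebraic F0 f) (t : σ → F) (ht : ∀ s, t s ≠ 0)
    (T : σ → FractionRing (MvPolynomial σ F))
    (hT : ∀ s, T s = algebraMap (MvPolynomial σ F) _ (X s) * algebraMap F _ (t s))
    (f : FractionRing (MvPolynomial σ F)) :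
    IsAlgebraic (Subfield.closure
      (algebraMap F (FractionRing (MvPolynomial σ F)) '' F0 ∪ Set.range T)) f := by
  obtain ⟨E0, hE0⟩ : ∃ E0, E0 = Subfield.closure
    (algebraMap F (FractionRing (MvPolynomial σ F)) '' F0 ∪ Set.range T) := ⟨_, rfl⟩
  rw [← hE0]
  have hF0 : ∀ a : F0, algebraMap F (FractionRing (MvPolynomial σ F)) a ∈ E0 := by
    intro a
    rw [hE0]
    exact Subfield.subset_closure (Or.inl ⟨a, a.2, rfl⟩)
  have hTE : ∀ s, T s ∈ E0 := by
    intro s
    rw [hE0]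
    exact Subfield.subset_closure (Or.inr ⟨s, rfl⟩)
  let φ : F0 →+* E0 := ((algebraMap F (FractionRing (MvPolynomial σ F))).comp F0.subtype).codRestrict
    E0 hF0
  have hφ : Function.Injective φ := φ.injective
  have hFalg : ∀ a : F, algebraMap F (FractionRing (MvPolynomial σ F)) a ∈
      algebraicClosure E0 (FractionRing (MvPolynomial σ F)) := by
    intro a
    rw [mem_algebraicClosure_iff]
    obtain ⟨p, hp0, hp⟩ := halg a
    refine ⟨p.map φ, ?_, ?_⟩
    · rwa [Ne, Polynomial.map_eq_zero_iff hφ]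
    · rw [Polynomial.aeval_def, Polynomial.eval₂_map]
      rw [Polynomial.aeval_def] at hp
      have h3 := congrArg (algebraMap F (FractionRing (MvPolynomial σ F))) hp
      rw [Polynomial.hom_eval₂, map_zero] at h3
      exact h3
  have hXalg : ∀ s, algebraMap (MvPolynomial σ F) (FractionRing (MvPolynomial σ F)) (X s) ∈
      algebraicClosure E0 (FractionRing (MvPolynomial σ F)) := by
    intro s
    have h3 : algebraMap (MvPolynomial σ F) (FractionRing (MvPolynomial σ F)) (X s) =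
        T s / algebraMap F _ (t s) := by
      rw [hT, mul_div_cancel_right₀]
      intro h
      exact ht s ((map_eq_zero _).1 h)
    rw [h3]
    exact div_mem ((algebraicClosure E0 (FractionRing (MvPolynomial σ F))).algebraMap_mem
      ⟨T s, hTE s⟩) (hFalg (t s))
  have hP : ∀ P : MvPolynomial σ F,
      algebraMap (MvPolynomial σ F) (FractionRing (MvPolynomial σ F)) P ∈
        algebraicClosure E0 (FractionRing (MvPolynomial σ F)) := by
    intro P
    induction P using MvPolynomial.induction_on with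
    | C a => rw [S3_C]; exact hFalg a
    | add P Q hP hQ => rw [map_add]; exact add_mem hP hQ
    | mul_X P s hP => rw [map_mul]; exact mul_mem hP (hXalg s)
  obtain ⟨P, Q, _, rfl⟩ := IsFractionRing.div_surjective (A := MvPolynomial σ F) f
  exact mem_algebraicClosure_iff.1 (div_mem (hP P) (hP Q))

private theorem S3_E6 {E V : Type*} [Field E] [CharZero E] [AddCommGroup V] [Module E V]
    (O : ValuationSubring E) (hO : ∀ n : ℕ, n ≠ 0 → (n : E)⁻¹ ∈ O) (E0 : Subfield E)
    (halg : ∀ f : E, IsAlgebraic E0 f)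
    (hv : ∀ f : E, f ≠ 0 → ∃ b ∈ E0, b ≠ 0 ∧ f / b ∈ O ∧ b / f ∈ O) (D : E → V)
    (hadd : ∀ a b, D (a + b) = D a + D b) (hmul : ∀ a b, D (a * b) = a • D b + b • D a) (y : E)
    (hy : y ∈ O) : D y ∈ spn O (D '' {b | b ∈ E0 ∧ b ∈ O}) :=
  E6 O hO E0 halg hv
    (Derivation.mk' (AddMonoidHom.mk' D hadd).toIntLinearMap hmul) y hy

/-- One valuation ring. -/
theorem SV {k F α σ : Type*} [Field k] [CharZero k] [Field F] [Algebra k F] [Fintype α] [DecidableEq α] [Fintype σ] [DecidableEq σ]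
    (δ : α → Derivation k F F) (F0 : Subfield F) (halg : ∀ f : F, IsAlgebraic F0 f) (A : ValuationSubring F)
    (hA : ∀ c : k, algebraMap k F c ∈ A) (t : σ → F) (ht : ∀ s, t s ≠ 0)
    (hv : ∀ f : F, f ≠ 0 → ∃ g : F × (σ → ℤ), g.1 ∈ F0 ∧ g.1 ≠ 0 ∧ f / vl t g ∈ A ∧ vl t g / f ∈ A)
    (y : α → F) (hy : ∀ i, y i ∈ A) :
    ∃ g : α ⊕ σ → F × (σ → ℤ), (∀ i, (g i).1 ∈ F0 ∧ (g i).1 ≠ 0 ∧ vl t (g i) ∈ A) ∧
      ∃ a ∈ A, (Matrix.of fun i l => δ l (y i)).det = a * GM (fun l => δ l) t g := by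
  have hF : CharZero F := charZero_of_injective_algebraMap (algebraMap k F).injective
  have hE : CharZero (FractionRing (MvPolynomial σ F)) :=
    charZero_of_injective_algebraMap (algebraMap F (FractionRing (MvPolynomial σ F))).injective
  obtain ⟨O, h1, h2⟩ := gauss (σ := σ) A
  obtain ⟨D, hD1, hD2⟩ := derE (σ := σ) δ
  obtain ⟨T, hTdef⟩ : ∃ T : σ → FractionRing (MvPolynomial σ F),
      ∀ s, T s = algebraMap (MvPolynomial σ F) _ (X s) * algebraMap F _ (t s) := ⟨_, fun s => rfl⟩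
  have hX := fun s => S3_X h1 h2 s
  have hmem := fun a => S3_mem_iff (σ := σ) h1 a
  have halgE := S3_alg F0 halg t ht T hTdef
  have hsemi := fun f hf hf0 => semi A O h1 h2 F0 t ht T hTdef D f hf hf0
  obtain ⟨E0, hE0⟩ : ∃ E0, E0 = Subfield.closure
    (algebraMap F (FractionRing (MvPolynomial σ F)) '' F0 ∪ Set.range T) := ⟨_, rfl⟩
  rw [← hE0] at halgE hsemi
  have hF0 : ∀ a ∈ F0, algebraMap F (FractionRing (MvPolynomial σ F)) a ∈ E0 := by
    intro a ha
    rw [hE0]
    exact Subfield.subset_closure (Or.inl ⟨a, ha, rfl⟩)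
  have hTE : ∀ s, T s ∈ E0 := by
    intro s
    rw [hE0]
    exact Subfield.subset_closure (Or.inr ⟨s, rfl⟩)
  have hO : ∀ n : ℕ, n ≠ 0 → (n : FractionRing (MvPolynomial σ F))⁻¹ ∈ O := by
    intro n _
    have h3 : (n : FractionRing (MvPolynomial σ F))⁻¹ =
        algebraMap F _ (algebraMap k F ((n : k)⁻¹)) := by
      rw [map_inv₀, map_inv₀, map_natCast, map_natCast]
    rw [h3, hmem]
    exact hA _
  have hvl : ∀ g : F × (σ → ℤ), vl T (algebraMap F _ g.1, g.2) =
      algebraMap F _ (vl t g) * ∏ s, (algebraMap (MvPolynomial σ F)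
        (FractionRing (MvPolynomial σ F)) (X s)) ^ g.2 s := by
    intro g
    rw [vl, vl, map_mul, map_prod, mul_assoc, ← Finset.prod_mul_distrib]
    congr 1
    refine Finset.prod_congr rfl fun s _ => ?_
    rw [hTdef, mul_zpow, map_zpow₀, mul_comm]
  have hXz : ∀ (s : σ) (n : ℤ), (algebraMap (MvPolynomial σ F)
      (FractionRing (MvPolynomial σ F)) (X s)) ^ n ∈ O := fun s n =>
    S3_zpow O (hX s).1 (hX s).2 n
  have hXp : ∀ m : σ → ℤ, (∏ s, (algebraMap (MvPolynomial σ F)
      (FractionRing (MvPolynomial σ F)) (X s)) ^ m s) ∈ O := fun m =>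
    prod_mem fun s _ => hXz s (m s)
  have hXp' : ∀ m : σ → ℤ, (∏ s, (algebraMap (MvPolynomial σ F)
      (FractionRing (MvPolynomial σ F)) (X s)) ^ m s)⁻¹ ∈ O := by
    intro m
    rw [← Finset.prod_inv_distrib]
    refine prod_mem fun s _ => ?_
    rw [← zpow_neg]
    exact hXz s _
  have hXp0 : ∀ m : σ → ℤ, (∏ s, (algebraMap (MvPolynomial σ F)
      (FractionRing (MvPolynomial σ F)) (X s)) ^ m s) ≠ 0 := fun m =>
    Finset.prod_ne_zero_iff.2 fun s _ => zpow_ne_zero _ (S3_X_ne s)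
  have hvl0 : ∀ g : F × (σ → ℤ), g.1 ≠ 0 → vl t g ≠ 0 := by
    intro g hg
    rw [vl]
    exact mul_ne_zero hg (Finset.prod_ne_zero_iff.2 fun s _ => zpow_ne_zero _ (ht s))
  have hv' : ∀ f : FractionRing (MvPolynomial σ F), f ≠ 0 →
      ∃ b ∈ E0, b ≠ 0 ∧ f / b ∈ O ∧ b / f ∈ O := by
    intro f hf
    obtain ⟨a, ha0, ha1, ha2⟩ := gauss_val A O h1 h2 f hf
    obtain ⟨g, hg0, hg1, hg2, hg3⟩ := hv a ha0
    have ha0' : algebraMap F (FractionRing (MvPolynomial σ F)) a ≠ 0 := fun h =>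
      ha0 ((map_eq_zero _).1 h)
    have hg0' : algebraMap F (FractionRing (MvPolynomial σ F)) (vl t g) ≠ 0 := fun h =>
      hvl0 g hg1 ((map_eq_zero _).1 h)
    have hXg := hXp0 g.2
    refine ⟨vl T (algebraMap F _ g.1, g.2), ?_, ?_, ?_, ?_⟩
    · rw [vl]
      exact mul_mem (hF0 _ hg0) (prod_mem fun s _ => zpow_mem (hTE s) _)
    · rw [hvl]
      exact mul_ne_zero hg0' hXg
    · have h3 : f / vl T (algebraMap F _ g.1, g.2) = (f / algebraMap F _ a) *
          algebraMap F _ (a / vl t g) * (∏ s, (algebraMap (MvPolynomial σ F)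
            (FractionRing (MvPolynomial σ F)) (X s)) ^ g.2 s)⁻¹ := by
        rw [hvl, map_div₀]
        field_simp
      rw [h3]
      exact mul_mem (mul_mem ha1 ((hmem _).2 hg2)) (hXp' _)
    · have h3 : vl T (algebraMap F _ g.1, g.2) / f = (algebraMap F _ a / f) *
          algebraMap F _ (vl t g / a) * (∏ s, (algebraMap (MvPolynomial σ F)
            (FractionRing (MvPolynomial σ F)) (X s)) ^ g.2 s) := by
        rw [hvl, map_div₀]
        field_simp
      rw [h3]
      exact mul_mem (mul_mem ha2 ((hmem _).2 hg3)) (hXp _)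
  obtain ⟨W, hW⟩ : ∃ W : Set (α ⊕ σ → FractionRing (MvPolynomial σ F)),
      W = {v | ∃ g : F × (σ → ℤ), g.1 ∈ F0 ∧ g.1 ≠ 0 ∧ vl t g ∈ A ∧
        v = D (vl T (algebraMap F _ g.1, g.2))} := ⟨_, rfl⟩
  have hspan : ∀ f ∈ O, D f ∈ spn O W := by
    intro f hf
    have h3 := S3_E6 O hO E0 halgE hv' (fun f => D f) (fun a b => D.map_add a b)
      (fun a b => D.leibniz a b) f hf
    refine spn_mono O ?_ h3
    rintro v ⟨b, ⟨hb0, hb⟩, rfl⟩
    rw [hW]
    exact hsemi b hb hb0
  have hWne : W.Nonempty := by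
    rw [hW]
    refine ⟨_, (1, 0), F0.one_mem, one_ne_zero, ?_, rfl⟩
    rw [vl]
    simp only [Pi.zero_apply, zpow_zero, Finset.prod_const_one, mul_one]
    exact A.one_mem
  obtain ⟨w, hw, e, he, hdet⟩ := detSpan O W hWne
    (fun i => D (Sum.elim (fun a => algebraMap F _ (y a))
      (fun s => algebraMap (MvPolynomial σ F) (FractionRing (MvPolynomial σ F)) (X s)) i)) (by
      intro i
      apply hspan
      rcases i with i | s
      · exact (hmem _).2 (hy i)
      · exact (hX s).1)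
  rw [hW] at hw
  choose g hg0 hg1 hgA hgw using hw
  refine ⟨g, fun i => ⟨hg0 i, hg1 i, hgA i⟩, ?_⟩
  have hdY := detY δ D hD1 hD2 y
  have hdD := detD δ D hD1 hD2 t ht T hTdef g hg1
  have hww : w = fun i => D (vl T (algebraMap F _ (g i).1, (g i).2)) := funext hgw
  rw [hww] at hdet
  have hkey := hdY.symm.trans (hdet.trans (congrArg (fun x => e * x) hdD))
  have hX1 : (∏ s, algebraMap (MvPolynomial σ F) (FractionRing (MvPolynomial σ F)) (X s)) ≠ 0 :=
    Finset.prod_ne_zero_iff.2 fun s _ => S3_X_ne s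
  by_cases hGM : GM (fun l => δ l) t g = 0
  · refine ⟨0, A.zero_mem, ?_⟩
    rw [zero_mul]
    simp only [hGM, map_zero, zero_mul, mul_zero] at hkey
    have h3 := (mul_eq_zero.1 hkey).resolve_right hX1
    exact (map_eq_zero _).1 h3
  · refine ⟨(Matrix.of fun i l => δ l (y i)).det / GM (fun l => δ l) t g, ?_, ?_⟩
    · rw [← hmem]
      have hGM' : algebraMap F (FractionRing (MvPolynomial σ F)) (GM (fun l => δ l) t g) ≠ 0 :=
        fun h => hGM ((map_eq_zero _).1 h)
      have h3 : algebraMap F (FractionRing (MvPolynomial σ F))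
          ((Matrix.of fun i l => δ l (y i)).det / GM (fun l => δ l) t g) =
          e * (∏ s, (algebraMap (MvPolynomial σ F) (FractionRing (MvPolynomial σ F)) (X s)) ^
            (∑ i, (g i).2 s)) * (∏ s, (algebraMap (MvPolynomial σ F)
              (FractionRing (MvPolynomial σ F)) (X s)) ^ (1 : ℤ))⁻¹ := by
        simp only [zpow_one]
        rw [map_div₀, div_eq_iff hGM']
        apply mul_right_cancel₀ hX1
        rw [hkey]
        field_simp
      rw [h3]
      exact mul_mem (mul_mem he (hXp _)) (hXp' fun _ => 1)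
    · rw [div_mul_cancel₀ _ hGM]

end Pool.Agent.Lib.MP_17a322_nt.JAC
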