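import Pool.Agent.Lib.MP_17a322_nt.JAC.V0

namespace Pool.Agent.Lib.MP_17a322_nt.JAC

/-- The value group of an algebraic extension is torsion modulo the value group of the base field. -/
theorem torsion {F : Type*} [Field F] (A : ValuationSubring F) (F0 : Subfield F) (f : F)
    (hf : IsAlgebraic F0 f) (hf0 : f ≠ 0) :
    ∃ (b : F) (q : ℕ), b ∈ F0 ∧ b ≠ 0 ∧ 0 < q ∧ b * f ^ q ∈ A ∧ (b * f ^ q)⁻¹ ∈ A := by
  classical
  obtain ⟨p, hp0, hp⟩ := hf
  have hne : p.support.Nonempty := Polynomial.nonempty_support_iff.2 hp0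
  have ht0 : ∀ i ∈ p.support, ((p.coeff i : F0) : F) * f ^ i ≠ 0 := fun i hi => by
    have h1 : p.coeff i ≠ 0 := Polynomial.mem_support_iff.1 hi
    have h2 : ((p.coeff i : F0) : F) ≠ 0 := fun h => h1 (Subtype.ext h)
    exact mul_ne_zero h2 (pow_ne_zero _ hf0)
  have hsum : ∑ i ∈ p.support, ((p.coeff i : F0) : F) * f ^ i = 0 := by
    rw [Polynomial.aeval_def, Polynomial.eval₂_eq_sum, Polynomial.sum] at hp
    exact hp
  -- two terms with the same valuation
  have key : ∃ i ∈ p.support, ∃ j ∈ p.support, i < j ∧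
      A.valuation (((p.coeff i : F0) : F) * f ^ i) = A.valuation (((p.coeff j : F0) : F) * f ^ j) := by
    obtain ⟨i, hi, hmax⟩ := Finset.exists_max_image p.support
      (fun i => A.valuation (((p.coeff i : F0) : F) * f ^ i)) hne
    by_contra hcon
    push Not at hcon
    have hlt : ∀ j ∈ p.support.erase i, A.valuation (((p.coeff j : F0) : F) * f ^ j) <
        A.valuation (((p.coeff i : F0) : F) * f ^ i) := by
      intro j hj
      obtain ⟨hji, hj'⟩ := Finset.mem_erase.1 hj
      refine lt_of_le_of_ne (hmax j hj') fun h => ?_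
      rcases lt_or_gt_of_ne hji with h1 | h1
      · exact hcon j hj' i hi h1 h
      · exact hcon i hi j hj' h1 h.symm
    have h1 : A.valuation (∑ j ∈ p.support.erase i, ((p.coeff j : F0) : F) * f ^ j) <
        A.valuation (((p.coeff i : F0) : F) * f ^ i) :=
      A.valuation.map_sum_lt ((A.valuation.ne_zero_iff).2 (ht0 i hi)) hlt
    have h2 : ∑ j ∈ p.support.erase i, ((p.coeff j : F0) : F) * f ^ j =
        -(((p.coeff i : F0) : F) * f ^ i) := by
      rw [← Finset.add_sum_erase _ _ hi] at hsum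
      exact (neg_eq_of_add_eq_zero_right hsum).symm
    rw [h2, Valuation.map_neg] at h1
    exact lt_irrefl _ h1
  obtain ⟨i, hi, j, hj, hij, hval⟩ := key
  have hi0 : ((p.coeff i : F0) : F) ≠ 0 := left_ne_zero_of_mul (ht0 i hi)
  have hj0 : ((p.coeff j : F0) : F) ≠ 0 := left_ne_zero_of_mul (ht0 j hj)
  have hq : ((p.coeff j : F0) : F) / ((p.coeff i : F0) : F) * f ^ (j - i) =
      (((p.coeff j : F0) : F) * f ^ j) / (((p.coeff i : F0) : F) * f ^ i) := by
    have h1 : f ^ j = f ^ (j - i) * f ^ i := by rw [← pow_add, Nat.sub_add_cancel hij.le]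
    rw [h1]
    have h2 : f ^ i ≠ 0 := pow_ne_zero _ hf0
    field_simp
  have hone : A.valuation (((p.coeff j : F0) : F) / ((p.coeff i : F0) : F) * f ^ (j - i)) = 1 := by
    rw [hq, map_div₀, hval]
    exact div_self ((A.valuation.ne_zero_iff).2 (ht0 j hj))
  refine ⟨((p.coeff j : F0) : F) / ((p.coeff i : F0) : F), j - i,
    F0.div_mem (p.coeff j).2 (p.coeff i).2, div_ne_zero hj0 hi0, by omega, ?_, ?_⟩
  · exact (A.valuation_le_one_iff _).1 hone.le
  · refine (A.valuation_le_one_iff _).1 ?_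
    rw [map_inv₀, hone, inv_one]

end Pool.Agent.Lib.MP_17a322_nt.JAC
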