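import Pool.Agent.Lib.MP_17a322_nt.JAC.V0

namespace Pool.Agent.Lib.MP_17a322_nt.JAC

private theorem T1b_indep {F : Type*} [Field F] (A : ValuationSubring F) (F0 : Subfield F) {N : ℕ}
    (t : Fin N → F) (ht0 : ∀ s, t s ≠ 0)
    (ht : ∀ i j, i ≠ j → ∀ b : F, b ∈ F0 → b ≠ 0 → A.valuation (t i) ≠ A.valuation (b * t j)) :
    LinearIndependent F0 t := by
  classical
  rw [linearIndependent_iff']
  intro s c hc
  by_contra hcon
  push Not at hcon
  obtain ⟨i0, hi0, hci0⟩ := hcon
  set s' := s.filter (fun i => c i ≠ 0) with hs'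
  have hne : s'.Nonempty := ⟨i0, Finset.mem_filter.2 ⟨hi0, hci0⟩⟩
  have hsum : ∑ i ∈ s', (c i : F) * t i = 0 := by
    rw [hs', Finset.sum_filter_of_ne]
    · exact hc
    · intro i _ h1 h2
      apply h1
      rw [h2]
      exact zero_mul _
  obtain ⟨j, hj, hmax⟩ := Finset.exists_max_image s' (fun i => A.valuation ((c i : F) * t i)) hne
  have hcj : (c j : F) ≠ 0 := by
    have := (Finset.mem_filter.1 hj).2
    exact fun h => this (Subtype.ext h)
  have hlt : ∀ i ∈ s' \ {j}, A.valuation ((c i : F) * t i) < A.valuation ((c j : F) * t j) := by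
    intro i hi
    rw [Finset.mem_sdiff, Finset.mem_singleton] at hi
    refine lt_of_le_of_ne (hmax i hi.1) ?_
    intro h
    have hci : (c i : F) ≠ 0 := by
      have := (Finset.mem_filter.1 hi.1).2
      exact fun h => this (Subtype.ext h)
    apply ht i j hi.2 ((c i : F)⁻¹ * (c j : F)) (F0.mul_mem (F0.inv_mem (c i).2) (c j).2)
      (mul_ne_zero (inv_ne_zero hci) hcj)
    have h1 : t i = (c i : F)⁻¹ * ((c i : F) * t i) := by
      rw [← mul_assoc, inv_mul_cancel₀ hci, one_mul]
    rw [h1, map_mul, h, ← map_mul, mul_assoc]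
  have h1 := A.valuation.map_sum_eq_of_lt (f := fun i => (c i : F) * t i) hj hlt
  rw [hsum, map_zero] at h1
  exact absurd h1.symm (by rw [← ne_eq, Valuation.ne_zero_iff]; exact mul_ne_zero hcj (ht0 j))

private theorem T1b_vl {F : Type*} [Field F] {N : ℕ} (t : Fin N → F) (b : F) (s : Fin N) :
    vl t (b, Pi.single s 1) = b * t s := by
  unfold vl
  show b * ∏ r, t r ^ (Pi.single s 1 : Fin N → ℤ) r = b * t s
  rw [Finset.prod_eq_single s]
  · rw [Pi.single_eq_same, zpow_one]
  · intro j _ hj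
    rw [Pi.single_eq_of_ne hj, zpow_zero]
  · intro h
    exact absurd (Finset.mem_univ _) h

/-- The value group of a finite extension is generated by the value group of the base field and finitely many values. -/
theorem vlist {F : Type*} [Field F] (A : ValuationSubring F) (F0 : Subfield F) [FiniteDimensional F0 F] :
    ∃ (N : ℕ) (t : Fin N → F), (∀ s, t s ≠ 0) ∧
      ∀ f : F, f ≠ 0 → ∃ g : F × (Fin N → ℤ), g.1 ∈ F0 ∧ g.1 ≠ 0 ∧ f / vl t g ∈ A ∧ vl t g / f ∈ A := by
  classical
  set P : ℕ → Prop := fun N => ∃ t : Fin N → F, (∀ s, t s ≠ 0) ∧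
    ∀ i j, i ≠ j → ∀ b : F, b ∈ F0 → b ≠ 0 → A.valuation (t i) ≠ A.valuation (b * t j) with hP
  have hb : ∀ N, P N → N ≤ Module.finrank F0 F := by
    rintro N ⟨t, h1, h2⟩
    have h3 := (T1b_indep A F0 t h1 h2).fintype_card_le_finrank
    rwa [Fintype.card_fin] at h3
  have hP0 : P 0 := ⟨fun i => i.elim0, fun i => i.elim0, fun i => i.elim0⟩
  set N := Nat.findGreatest P (Module.finrank F0 F) with hN
  have hPN : P N := Nat.findGreatest_spec (P := P) (Nat.zero_le _) hP0
  have hmax : ¬ P (N + 1) := by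
    intro h
    have h1 := Nat.le_findGreatest (P := P) (hb _ h) h
    rw [← hN] at h1
    omega
  obtain ⟨t, h1, h2⟩ := hPN
  refine ⟨N, t, h1, fun f hf => ?_⟩
  obtain ⟨s, b, hbF, hb0, hv⟩ : ∃ s, ∃ b : F, b ∈ F0 ∧ b ≠ 0 ∧ A.valuation f = A.valuation (b * t s) := by
    by_contra hcon
    push Not at hcon
    apply hmax
    refine ⟨Fin.cons f t, ?_, ?_⟩
    · intro s
      refine Fin.cases ?_ (fun s => ?_) s
      · rw [Fin.cons_zero]
        exact hf
      · rw [Fin.cons_succ]
        exact h1 s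
    · intro i j
      refine Fin.cases ?_ (fun i => ?_) i
      · refine Fin.cases ?_ (fun j => ?_) j
        · intro h
          exact absurd rfl h
        · intro _ b hbF hb0
          rw [Fin.cons_zero, Fin.cons_succ]
          exact hcon j b hbF hb0
      · refine Fin.cases ?_ (fun j => ?_) j
        · intro _ b hbF hb0 h
          rw [Fin.cons_zero, Fin.cons_succ] at h
          apply hcon i b⁻¹ (F0.inv_mem hbF) (inv_ne_zero hb0)
          rw [map_mul, h, ← map_mul, ← mul_assoc, inv_mul_cancel₀ hb0, one_mul]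
        · intro hij b hbF hb0
          rw [Fin.cons_succ, Fin.cons_succ]
          exact h2 i j (fun h => hij (by rw [h])) b hbF hb0
  refine ⟨(b, Pi.single s 1), hbF, hb0, ?_, ?_⟩
  · rw [T1b_vl, ← A.valuation_le_one_iff, map_div₀, hv, div_self]
    rw [Valuation.ne_zero_iff]
    exact mul_ne_zero hb0 (h1 s)
  · rw [T1b_vl, ← A.valuation_le_one_iff, map_div₀, hv, div_self]
    rw [Valuation.ne_zero_iff]
    exact mul_ne_zero hb0 (h1 s)

end Pool.Agent.Lib.MP_17a322_nt.JAC
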