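import Pool.Agent.Lib.MP_17a322_nt.JAC.B1

universe u

namespace Pool.Agent.Lib.MP_17a322_nt.JAC

open MvPolynomial hiding psum
open Height NumberField
open Pool.Agent.Lib.MP_17a322_nt.EQ

theorem B10_eval {K : Type u} [Field K] {α σ : Type} (G : MvPolynomial (α ⊕ σ) K) (y : α → K) (t : σ → K) :
    eval (Sum.elim y t) G = eval t (map (eval y) (sumAlgEquiv K σ α (rename Sum.swap G))) := by
  induction G using MvPolynomial.induction_on with
  | C a =>
    rw [rename_C, sumAlgEquiv_C_inl, map_C, eval_C, eval_C, eval_C]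
  | add p q hp hq => rw [map_add, map_add, map_add, map_add, map_add, hp, hq]
  | mul_X p i hp =>
    rw [map_mul, map_mul, map_mul, map_mul, map_mul, hp, rename_X]
    congr 1
    cases i with
    | inl a => rw [Sum.swap_inl, sumAlgEquiv_X_inr, map_C, eval_C, eval_X, eval_X, Sum.elim_inl]
    | inr s => rw [Sum.swap_inr, sumAlgEquiv_X_inl, map_X, eval_X, eval_X, Sum.elim_inr]

/-- Avoiding an exceptional set by the choice of `c`. -/
theorem avoid {K : Type u} [Field K] [CharZero K] {ι α σ : Type} [Finite ι] [Fintype α] [Fintype σ] (I : Ideal (MvPolynomial ι K)) [I.IsPrime]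
    (x : α → ι) (hx : AlgebraicIndependent K (fun l => gn I (x l))) (B₀ : MvPolynomial ι K) (hB₀ : B₀ ∉ I)
    (M : σ → MvPolynomial ι K) (hM : ∀ s, M s ∉ I) (G : MvPolynomial (α ⊕ σ) K) (hG : G ≠ 0) :
    ∃ (D : ℕ) (B₁ : MvPolynomial ι K), 1 ≤ D ∧ B₁ ∉ I ∧ ∀ z : ι → K, (∀ H ∈ I, eval z H = 0) → eval z B₁ ≠ 0 →
      ∃ c : σ → ℕ, (∀ s, 1 ≤ c s ∧ c s ≤ D) ∧
        eval (Sum.elim (fun l => z (x l)) fun s => (c s : K) * (eval z (M s) / eval z B₀)) G ≠ 0 := by
  classical
  set G' : MvPolynomial σ (MvPolynomial α K) := sumAlgEquiv K σ α (rename Sum.swap G) with hG'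
  have hG'0 : G' ≠ 0 := by
    intro h
    rw [hG', EmbeddingLike.map_eq_zero_iff] at h
    apply hG
    apply rename_injective Sum.swap Sum.swap_leftInverse.injective
    rw [h, map_zero]
  obtain ⟨m₀, hm₀⟩ := MvPolynomial.ne_zero_iff.1 hG'0
  refine ⟨(Finset.univ.sup fun s => degreeOf s G') + 1, rename x (coeff m₀ G') * ((∏ s, M s) * B₀), by omega, ?_, ?_⟩
  · intro h
    rcases (Ideal.IsPrime.mem_or_mem ‹I.IsPrime› h) with h | h
    · apply hm₀
      rw [← aeval_gn_eq_zero, aeval_rename] at h
      exact (injective_iff_map_eq_zero (aeval (R := K) fun l => gn I (x l))).1 hx _ h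
    · rcases (Ideal.IsPrime.mem_or_mem ‹I.IsPrime› h) with h | h
      · obtain ⟨s, -, hs⟩ := (Ideal.IsPrime.prod_mem_iff (hp := ‹I.IsPrime›)).1 h
        exact hM s hs
      · exact hB₀ h
  · intro z _ hz
    rw [map_mul, map_mul, map_prod] at hz
    have h1 : eval z (rename x (coeff m₀ G')) ≠ 0 := left_ne_zero_of_mul hz
    have h2 : ∀ s, eval z (M s) ≠ 0 := fun s =>
      Finset.prod_ne_zero_iff.1 (left_ne_zero_of_mul (right_ne_zero_of_mul hz)) s (Finset.mem_univ s)
    have h3 : eval z B₀ ≠ 0 := right_ne_zero_of_mul (right_ne_zero_of_mul hz)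
    set t : σ → K := fun s => eval z (M s) / eval z B₀ with ht
    have ht0 : ∀ s, t s ≠ 0 := fun s => div_ne_zero (h2 s) h3
    by_contra hcon
    push Not at hcon
    have hP : map (eval fun l => z (x l)) G' = 0 := by
      apply eq_zero_of_eval_zero_at_prod_finset (map (eval fun l => z (x l)) G')
        (fun s => (Finset.Icc 1 ((Finset.univ.sup fun s => degreeOf s G') + 1)).image fun j : ℕ => (j : K) * t s)
      · intro s
        rw [Finset.card_image_of_injective]
        · rw [Nat.card_Icc]
          have h4 : degreeOf s (map (eval fun l => z (x l)) G') ≤ degreeOf s G' := by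
            rw [degreeOf_le_iff]
            intro m hm
            exact monomial_le_degreeOf s (support_map_subset _ _ hm)
          have h5 : degreeOf s G' ≤ Finset.univ.sup fun s => degreeOf s G' :=
            Finset.le_sup (f := fun s => degreeOf s G') (Finset.mem_univ s)
          omega
        · intro i j hij
          exact Nat.cast_injective (mul_right_cancel₀ (ht0 s) hij)
      · intro y hy
        choose c hc hc' using fun s => Finset.mem_image.1 (hy s)
        have h4 := hcon c fun s => Finset.mem_Icc.1 (hc s)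
        rw [B10_eval] at h4
        have h5 : (fun s => (c s : K) * (eval z (M s) / eval z B₀)) = y := funext fun s => hc' s
        rw [h5] at h4
        exact h4
    apply h1
    have h6 : coeff m₀ (map (eval fun l => z (x l)) G') = 0 := by rw [hP, coeff_zero]
    rw [coeff_map] at h6
    rw [eval_rename]
    exact h6

end Pool.Agent.Lib.MP_17a322_nt.JAC
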