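import Pool.Agent.Lib.MP_17a322_nt.JAC.B2

universe u

namespace Pool.Agent.Lib.MP_17a322_nt.JAC

open MvPolynomial hiding psum
open Height NumberField
open Pool.Agent.Lib.MP_17a322_nt.EQ

/-- Scaling the elements `t s` by nonzero constants. -/
theorem Ok_scale {k F ι α σ : Type*} [Field k] [Field F] [Algebra k F] [Fintype α] [DecidableEq α] [Fintype σ] [DecidableEq σ]
    (δ : α → Derivation k F F) (z : ι → F) (t : σ → F) (S : Set (F × (σ → ℤ))) (A : ValuationSubring F)
    (hA : ∀ c : k, algebraMap k F c ∈ A) (c : σ → k) (hc : ∀ s, c s ≠ 0) (h : Ok δ z t S A) :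
    Ok δ z (fun s => algebraMap k F (c s) * t s) S A := by
  obtain ⟨b, hb, hzb, hY⟩ := h
  refine ⟨b, hb, hzb, fun Y => ?_⟩
  obtain ⟨g, hg, a, ha, hdet⟩ := hY Y
  have hvl : ∀ q : F × (σ → ℤ), vl (fun s => algebraMap k F (c s) * t s) q =
      algebraMap k F (∏ s, c s ^ q.2 s) * vl t q := by
    intro q
    unfold vl
    rw [map_prod]
    simp only [map_zpow₀, mul_zpow, Finset.prod_mul_distrib]
    ring
  have hu : (∏ i, ∏ s, c s ^ (g i).2 s) ≠ 0 :=
    Finset.prod_ne_zero_iff.mpr fun i _ => Finset.prod_ne_zero_iff.mpr fun s _ => zpow_ne_zero _ (hc s)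
  have hGM : GM (fun l => δ l) (fun s => algebraMap k F (c s) * t s) g =
      algebraMap k F (∏ i, ∏ s, c s ^ (g i).2 s) * GM (fun l => δ l) t g := by
    unfold GM
    rw [map_prod, Finset.prod_congr rfl (fun i _ => hvl (g i)), Finset.prod_mul_distrib, mul_assoc]
  refine ⟨g, fun i => ⟨(hg i).1, ?_⟩, a * algebraMap k F (∏ i, ∏ s, c s ^ (g i).2 s)⁻¹,
    A.mul_mem _ _ ha (hA _), ?_⟩
  · rw [hvl]
    exact A.mul_mem _ _ (hA _) (hg i).2
  · rw [hdet, hGM, map_inv₀]
    have hu' : algebraMap k F (∏ i, ∏ s, c s ^ (g i).2 s) ≠ 0 := by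
      rw [Ne, FaithfulSMul.algebraMap_eq_zero_iff]
      exact hu
    field_simp

/-- A polynomial which does not vanish at the point `(x, M / B₀)` of the function field does not vanish at the values of this point outside a hypersurface. -/
theorem nonvanish {K : Type u} [Field K] {ι α σ : Type} (I : Ideal (MvPolynomial ι K)) [I.IsPrime] (x : α → ι)
    (B₀ : MvPolynomial ι K) (hB₀ : B₀ ∉ I) (M : σ → MvPolynomial ι K) (P : MvPolynomial (α ⊕ σ) K)
    (hP : aeval (Sum.elim (fun l => gn I (x l)) fun s => aeval (gn I) (M s) / aeval (gn I) B₀) P ≠ 0) :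
    ∃ Q : MvPolynomial ι K, Q ∉ I ∧ ∀ z : ι → K, (∀ H ∈ I, eval z H = 0) → eval z Q ≠ 0 →
      eval (Sum.elim (fun l => z (x l)) fun s => eval z (M s) / eval z B₀) P ≠ 0 := by
  have hr : ∀ s, ∃ r : RB I B₀, emb I hB₀ r = aeval (gn I) (M s) / aeval (gn I) B₀ ∧
      ∀ (z : ι → K) (hz : ∀ H ∈ I, eval z H = 0) (hBz : eval z B₀ ≠ 0),
        evz I hz hBz r = eval z (M s) / eval z B₀ :=
    fun s => exists_quot I (B := B₀) (B₁ := B₀) (B₂ := 1) (mul_one B₀).symm hB₀ (M s)
  choose r hr1 hr2 using hr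
  set w : α ⊕ σ → RB I B₀ := Sum.elim
    (fun l => algebraMap (MvPolynomial ι K ⧸ I) (RB I B₀) (Ideal.Quotient.mk I (X (x l)))) r with hw
  have hemb : emb I hB₀ (aeval w P) =
      aeval (Sum.elim (fun l => gn I (x l)) fun s => aeval (gn I) (M s) / aeval (gn I) B₀) P := by
    rw [comp_aeval_apply]
    congr 2
    funext j
    rcases j with l | s
    · rw [hw]
      simp only [Sum.elim_inl]
      rw [emb_mk, aeval_X]
    · rw [hw]
      simp only [Sum.elim_inr]
      exact hr1 s
  have hne : aeval w P ≠ 0 := by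
    intro h0
    rw [h0, map_zero] at hemb
    exact hP hemb.symm
  obtain ⟨⟨q, y⟩, hq⟩ := IsLocalization.surj (Submonoid.powers (Ideal.Quotient.mk I B₀)) (aeval w P)
  obtain ⟨Q', rfl⟩ := Ideal.Quotient.mk_surjective q
  have hu : IsUnit (algebraMap (MvPolynomial ι K ⧸ I) (RB I B₀) y) :=
    IsLocalization.map_units (RB I B₀) y
  have hQ' : Q' ∉ I := by
    intro hQI
    have h1 : Ideal.Quotient.mk I Q' = 0 := Ideal.Quotient.eq_zero_iff_mem.mpr hQI
    have h2 : aeval w P * algebraMap (MvPolynomial ι K ⧸ I) (RB I B₀) y = 0 := by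
      have h3 := hq
      simp only at h3
      rw [h1, map_zero] at h3
      exact h3
    rw [hu.mul_left_eq_zero] at h2
    exact hne h2
  refine ⟨Q' * B₀, fun h => ?_, fun z hz hQz => ?_⟩
  · rcases Ideal.IsPrime.mem_or_mem ‹I.IsPrime› h with h1 | h1
    · exact hQ' h1
    · exact hB₀ h1
  · rw [map_mul] at hQz
    have hBz : eval z B₀ ≠ 0 := right_ne_zero_of_mul hQz
    have hQ'z : eval z Q' ≠ 0 := left_ne_zero_of_mul hQz
    have hev : evz I hz hBz (aeval w P) =
        eval (Sum.elim (fun l => z (x l)) fun s => eval z (M s) / eval z B₀) P := by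
      rw [comp_aeval_apply, aeval_eq_eval]
      congr 2
      funext j
      rcases j with l | s
      · rw [hw]
        simp only [Sum.elim_inl]
        rw [evz_mk, eval_X]
      · rw [hw]
        simp only [Sum.elim_inr]
        exact hr2 s z hz hBz
    rw [← hev]
    have h4 := congrArg (evz I hz hBz) hq
    simp only at h4
    rw [map_mul, evz_mk] at h4
    refine left_ne_zero_of_mul (b := evz I hz hBz (algebraMap (MvPolynomial ι K ⧸ I) (RB I B₀) y)) ?_
    rw [h4]
    exact hQ'z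

end Pool.Agent.Lib.MP_17a322_nt.JAC
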