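import Pool.Agent.Lib.MP_17a322_nt.JAC.HB

universe u

namespace Pool.Agent.Lib.MP_17a322_nt.JAC

open MvPolynomial hiding psum
open Height NumberField
open Pool.Agent.Lib.MP_17a322_nt.EQ

/-- Comparison of heights. -/
theorem height_comp {K : Type u} [Field K] [NumberField K] {σ₁ σ₂ : Type*} [Finite σ₁] [Finite σ₂] (C : Pl K → ℝ)
    (hC : ∀ v, 1 ≤ C v) (hf : {w : FinitePlace K | C (Sum.inr w) ≠ 1}.Finite) :
    ∃ C0 : ℝ, ∀ (a : σ₁ → K) (b : σ₂ → K), a ≠ 0 → (∀ v i, av v (a i) ≤ C v * ⨆ j, av v (b j)) →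
      b ≠ 0 ∧ logHeight a ≤ logHeight b + C0 := by
  have hFC : FS fun v : Pl K => Real.log (C v) := by
    refine hf.subset fun w hw h => hw ?_
    have h' : C (Sum.inr w) = 1 := h
    simp only [h', Real.log_one]
  refine ⟨psum fun v => Real.log (C v), fun a b ha hab => ?_⟩
  obtain ⟨i₀, hi₀⟩ := Function.ne_iff.1 ha
  have hne : Nonempty σ₁ := ⟨i₀⟩
  have hb : b ≠ 0 := by
    rintro rfl
    obtain ⟨v⟩ : Nonempty (InfinitePlace K) := inferInstance
    have h1 := hab (Sum.inl v) i₀
    have h2 : (⨆ j : σ₂, av (Sum.inl v) ((0 : σ₂ → K) j)) = 0 := by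
      simp
    rw [h2, mul_zero] at h1
    exact absurd ((av (Sum.inl v)).pos hi₀) (not_lt.2 h1)
  refine ⟨hb, ?_⟩
  rw [← hl_psum_sup ha, ← hl_psum_sup hb, ← hs_add (hl_fs_sup hb) hFC]
  refine hs_mono (hl_fs_sup ha) (hs_fs_add (hl_fs_sup hb) hFC) fun v => ?_
  have h1 : (⨆ i, av v (a i)) ≤ C v * ⨆ j, av v (b j) := ciSup_le fun i => hab v i
  have h2 := Real.log_le_log (hl_pos (av v) ha) h1
  have h3 : C v ≠ 0 := by
    have := hC v
    linarith
  rw [Real.log_mul h3 (hl_pos (av v) hb).ne'] at h2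
  linarith

/-- A bound for the height of a vector of polynomials at points with a coordinate 1. -/
theorem height_poly {K : Type u} [Field K] [NumberField K] {ι κ : Type} [Finite ι] [Finite κ] (i₀ : ι)
    (P : κ → MvPolynomial ι K) (E : ℕ) (hE : ∀ o, (P o).totalDegree ≤ E) :
    ∃ C2 : ℝ, ∀ z : ι → K, z i₀ = 1 → logHeight (fun o => eval z (P o)) ≤ E * logHeight z + C2 := by
  let Q : κ → MvPolynomial ι K := fun o =>
    ∑ k ∈ Finset.range (E + 1), X i₀ ^ (E - k) * homogeneousComponent k (P o)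
  have hQ : ∀ o, (Q o).IsHomogeneous E := by
    intro o
    refine IsHomogeneous.sum _ _ _ fun k hk => ?_
    have h1 : E - k + k = E := by
      have := Finset.mem_range.1 hk
      omega
    have h2 := (isHomogeneous_X_pow (R := K) i₀ (E - k)).mul
      (homogeneousComponent_isHomogeneous k (P o))
    rwa [h1] at h2
  obtain ⟨C, hC⟩ := logHeight_eval_le' hQ
  refine ⟨C, fun z hz => ?_⟩
  have h1 : ∀ o, eval z (Q o) = eval z (P o) := by
    intro o
    have h2 : P o = ∑ k ∈ Finset.range (E + 1), homogeneousComponent k (P o) := by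
      conv_lhs => rw [← sum_homogeneousComponent (P o)]
      refine Finset.sum_subset ?_ ?_
      · intro k hk
        rw [Finset.mem_range] at hk ⊢
        have := hE o
        omega
      · intro k _ hk
        rw [Finset.mem_range, not_lt] at hk
        exact homogeneousComponent_eq_zero _ _ (by omega)
    conv_rhs => rw [h2]
    simp only [Q, map_sum, map_mul, map_pow, eval_X, hz, one_pow, one_mul]
  have h2 := hC z
  simp only [h1] at h2
  linarith

end Pool.Agent.Lib.MP_17a322_nt.JAC
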