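import Pool.Agent.Lib.MP_17a322_nt.JAC.B7

universe u

namespace Pool.Agent.Lib.MP_17a322_nt.JAC

open MvPolynomial hiding psum
open Height NumberField
open Pool.Agent.Lib.MP_17a322_nt.EQ

/-- The determinant of a matrix whose row `none` is the unit vector of `none`. -/
private theorem B9_det_option {F α : Type*} [Field F] [Fintype α] [DecidableEq α] (N : Matrix (Option α) (Option α) F)
    (h1 : N none none = 1) (h0 : ∀ c, N none (some c) = 0) :
    N.det = (N.submatrix some some).det := by
  have e1 : N.submatrix (Equiv.optionEquivSumPUnit.{0} α).symm (Equiv.optionEquivSumPUnit.{0} α).symm =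
      Matrix.fromBlocks (N.submatrix some some) (Matrix.of fun l _ => N (some l) none) 0 1 := by
    ext i j
    rcases i with i | i <;> rcases j with j | j
    · rfl
    · rfl
    · exact h0 j
    · rw [Matrix.fromBlocks_apply₂₂]
      have : j = i := Subsingleton.elim _ _
      subst this
      rw [Matrix.one_apply_eq]
      exact h1
  rw [← Matrix.det_submatrix_equiv_self (Equiv.optionEquivSumPUnit.{0} α).symm N, e1, Matrix.det_fromBlocks_zero₂₁,
    Matrix.det_one, mul_one]

/-- Expansion along the row `none` whose entries are in the valuation ring. -/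
private theorem B9_expand {F ι α : Type*} [Field F] [Fintype α] [DecidableEq α] (A : ValuationSubring F)
    (D : α → ι → F) (y : ι → F) (hy : ∀ a, y a ∈ A) (s : Option α → ι) :
    ∃ Y : α → ι, A.valuation (Matrix.of fun a b : Option α => a.elim (y (s b)) fun l => D l (s b)).det ≤
      A.valuation (Matrix.of fun (i l : α) => D l (Y i)).det := by
  classical
  set M : Matrix (Option α) (Option α) F := Matrix.of fun a b : Option α => a.elim (y (s b)) fun l => D l (s b) with hM
  obtain ⟨j₀, hj₀⟩ := Finite.exists_max fun j : Option α => A.valuation (M.updateRow none (Pi.single j 1)).det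
  refine ⟨fun c => s (Equiv.swap none j₀ (some c)), ?_⟩
  have h1 : A.valuation M.det ≤ A.valuation (M.updateRow none (Pi.single j₀ 1)).det := by
    rw [Matrix.det_eq_sum_mul_adjugate_row M none]
    refine Valuation.map_sum_le _ fun j _ => ?_
    rw [map_mul, Matrix.adjugate_apply]
    have h2 : A.valuation (M none j) ≤ 1 := (A.valuation_le_one_iff _).2 (hy (s j))
    calc A.valuation (M none j) * A.valuation (M.updateRow none (Pi.single j 1)).det ≤
        1 * A.valuation (M.updateRow none (Pi.single j₀ 1)).det := mul_le_mul' h2 (hj₀ j)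
      _ = _ := one_mul _
  refine h1.trans (le_of_eq ?_)
  set N : Matrix (Option α) (Option α) F := (M.updateRow none (Pi.single j₀ 1)).submatrix id (Equiv.swap none j₀) with hN
  have h2 : N.det = (Equiv.Perm.sign (Equiv.swap none j₀) : F) * (M.updateRow none (Pi.single j₀ 1)).det := by
    rw [hN, Matrix.det_permute']
  have h3 : N.det = (N.submatrix some some).det := by
    apply B9_det_option
    · rw [hN, Matrix.submatrix_apply, Equiv.swap_apply_left, id_eq, Matrix.updateRow_self, Pi.single_eq_same]
    · intro c
      rw [hN, Matrix.submatrix_apply, id_eq, Matrix.updateRow_self]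
      apply Pi.single_eq_of_ne
      intro h
      have h4 := congrArg (Equiv.swap none j₀) h
      rw [Equiv.swap_apply_self, Equiv.swap_apply_right] at h4
      exact Option.some_ne_none c h4
  have h4 : (N.submatrix some some).det = (Matrix.of fun (i l : α) => D l (s (Equiv.swap none j₀ (some i)))).det := by
    rw [← Matrix.det_transpose]
    congr 1
  have h5 : A.valuation N.det = A.valuation (M.updateRow none (Pi.single j₀ 1)).det := by
    rw [h2]
    rcases Int.units_eq_one_or (Equiv.Perm.sign (Equiv.swap none j₀)) with h | h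
    · rw [h]
      simp
    · rw [h]
      simp [Valuation.map_neg]
  rw [← h5, h3, h4]

/-- The determinant of the values and the derivatives in terms of the quotients `z a / z b`. -/
private theorem B9_det_z {k F ι α : Type*} [Field k] [Field F] [Algebra k F] [Fintype α] [DecidableEq α]
    (δ : α → Derivation k F F) (z : ι → F) (b : ι) (hb : z b ≠ 0) (s : Option α → ι) :
    (Matrix.of fun a c : Option α => a.elim (z (s c)) fun l => δ l (z (s c))).det =
      z b ^ (Fintype.card (Option α)) *
        (Matrix.of fun a c : Option α => a.elim (z (s c) / z b) fun l => δ l (z (s c) / z b)).det := by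
  rw [← Matrix.det_smul]
  apply Matrix.det_eq_of_forall_row_eq_smul_add_const (fun a : Option α => a.elim 0 fun l => δ l (z b) / z b) none rfl
  intro a c
  have hz : z (s c) = z b * (z (s c) / z b) := by field_simp
  cases a with
  | none =>
    simp only [Matrix.of_apply, Option.elim_none, Matrix.smul_apply, smul_eq_mul, zero_mul, add_zero]
    exact hz
  | some l =>
    simp only [Matrix.of_apply, Option.elim_some, Option.elim_none, Matrix.smul_apply, smul_eq_mul]
    have h1 : δ l (z (s c)) = z b * δ l (z (s c) / z b) + z (s c) / z b * δ l (z b) := by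
      have h2 := (δ l).leibniz (z b) (z (s c) / z b)
      rw [← hz, smul_eq_mul, smul_eq_mul] at h2
      exact h2
    rw [h1]
    field_simp

/-- The products `phiS` for all choices are at most the one for the best choice. -/
private theorem B9_phi_le {K F α σ S : Type*} [Field K] [Field F] [Algebra K F] [Fintype σ] [Fintype S]
    (δ : α → Derivation K F F) (x : α → F) (t : σ → F)
    (ht : ∀ s, t s ≠ 0) (u v : S → MvPolynomial (α ⊕ σ) K) (gS : S → F × (σ → ℤ)) (hrep : ∀ g, Rep δ x (u g) (v g) (gS g))
    (A : ValuationSubring F) (A₀ B : S → Bool) (hA₀ : ∀ g, A₀ g = true ↔ vl t (gS g) ∉ A) :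
    A.valuation (aeval (Sum.elim x t) (phiS u v B)) ≤ A.valuation (aeval (Sum.elim x t) (phiS u v A₀)) := by
  unfold phiS
  rw [map_prod, map_prod, map_prod, map_prod]
  refine Finset.prod_le_prod' fun g _ => ?_
  obtain ⟨hu, hv, huv, _⟩ := hrep g t ht
  have h1 : A.valuation (aeval (Sum.elim x t) (u g)) = A.valuation (vl t (gS g)) * A.valuation (aeval (Sum.elim x t) (v g)) := by
    rw [← map_mul, ← huv, div_mul_cancel₀ _ hv]
  by_cases hg : vl t (gS g) ∈ A
  · have h2 : A₀ g = false := by
      rw [← Bool.not_eq_true, hA₀]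
      exact fun h => h hg
    have h3 : A.valuation (aeval (Sum.elim x t) (u g)) ≤ A.valuation (aeval (Sum.elim x t) (v g)) := by
      rw [h1]
      calc A.valuation (vl t (gS g)) * A.valuation (aeval (Sum.elim x t) (v g)) ≤
          1 * A.valuation (aeval (Sum.elim x t) (v g)) := mul_le_mul' ((A.valuation_le_one_iff _).2 hg) le_rfl
        _ = _ := one_mul _
    rw [h2]
    cases B g with
    | true => exact h3
    | false => exact le_rfl
  · have h2 : A₀ g = true := (hA₀ g).2 hg
    have h3 : A.valuation (aeval (Sum.elim x t) (v g)) ≤ A.valuation (aeval (Sum.elim x t) (u g)) := by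
      rw [h1]
      have h4 : 1 ≤ A.valuation (vl t (gS g)) := by
        by_contra hcon
        exact hg ((A.valuation_le_one_iff _).1 (not_le.1 hcon).le)
      calc A.valuation (aeval (Sum.elim x t) (v g)) = 1 * A.valuation (aeval (Sum.elim x t) (v g)) := (one_mul _).symm
        _ ≤ _ := mul_le_mul' h4 le_rfl
    rw [h2]
    cases B g with
    | true => exact le_rfl
    | false => exact h3

/-- The inequality at one valuation ring: the determinant of the values and derivatives of the coordinates times the
values of the products `phiS` is at most one minor of the jets times coordinates and the `t s`. -/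
theorem val_ineq {K F ι α σ S : Type*} [Field K] [Field F] [Algebra K F] [Finite ι] [Fintype α] [DecidableEq α]
    [Fintype σ] [DecidableEq σ] [Fintype S] [DecidableEq S] (δ : α → Derivation K F F) (x : α → F) (z : ι → F) (t : σ → F)
    (ht : ∀ s, t s ≠ 0) (u v : S → MvPolynomial (α ⊕ σ) K) (gS : S → F × (σ → ℤ)) (hrep : ∀ g, Rep δ x (u g) (v g) (gS g))
    (A : ValuationSubring F) (hOk : Ok δ z t (Set.range gS) A) (s : Option α → ι) (AA : Option (α ⊕ σ) → S → Bool) :
    ∃ (R : Option (α ⊕ σ) → S → Bool) (κ : Option α → ι),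
      A.valuation ((Matrix.of fun a b : Option α => a.elim (z (s b)) fun l => δ l (z (s b))).det *
          ∏ a, aeval (Sum.elim x t) (phiS u v (AA a))) ≤
        A.valuation (mnr (Sum.elim x t) (phiS u v) R * ((∏ b, z (κ b)) * ∏ s, t s)) := by
  classical
  obtain ⟨b, hb, hyA, hY⟩ := hOk
  obtain ⟨Y, hYle⟩ := B9_expand A (fun l a => δ l (z a / z b)) (fun a => z a / z b) hyA s
  obtain ⟨g, hg, a, haA, hdet⟩ := hY Y
  choose i hi using fun j => (hg j).1
  set A₀ : S → Bool := fun g => decide (vl t (gS g) ∉ A) with hA₀
  have hA₀' : ∀ g, A₀ g = true ↔ vl t (gS g) ∉ A := fun g => by rw [hA₀]; exact decide_eq_true_iff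
  have hA₀i : ∀ j, A₀ (i j) = false := by
    intro j
    rw [← Bool.not_eq_true, hA₀', hi j]
    exact fun h => h (hg j).2
  refine ⟨fun o => o.elim A₀ fun j => Function.update A₀ (i j) true, fun _ => b, ?_⟩
  have hmin := minor_id u v (Sum.elim x t) A₀ i hA₀i (fun j => (hrep (i j) t ht).2.1)
  -- the matrix of `minor_id`
  have hmat : (Matrix.of fun i' j => (aeval (Sum.elim x t) (v (i i')) * aeval (Sum.elim x t) (pderiv j (u (i i'))) -
      aeval (Sum.elim x t) (u (i i')) * aeval (Sum.elim x t) (pderiv j (v (i i')))) / aeval (Sum.elim x t) (v (i i')) ^ 2).det =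
      GM (fun l => δ l) t g * ∏ s, (t s)⁻¹ := by
    have h1 : (Matrix.of fun i' j => (aeval (Sum.elim x t) (v (i i')) * aeval (Sum.elim x t) (pderiv j (u (i i'))) -
        aeval (Sum.elim x t) (u (i i')) * aeval (Sum.elim x t) (pderiv j (v (i i')))) / aeval (Sum.elim x t) (v (i i')) ^ 2) =
        Matrix.of fun i' j => vl t (g i') * (Matrix.of fun i' j => Sum.elim (fun _ => 1) (fun s => (t s)⁻¹) j *
          (Matrix.of fun i j => Sum.elim (fun l => δ l (g i).1 / (g i).1) (fun s => ((g i).2 s : F)) j) i' j) i' j := by
      ext i' j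
      rw [Matrix.of_apply, Matrix.of_apply, Matrix.of_apply, Matrix.of_apply, (hrep (i i') t ht).2.2.2 j, hi i']
      congr 1
      rcases j with l | s'
      · rw [Sum.elim_inl, Sum.elim_inl, Sum.elim_inl, one_mul]
      · rw [Sum.elim_inr, Sum.elim_inr, Sum.elim_inr, div_eq_mul_inv, mul_comm]
    have h2 : ∏ j : α ⊕ σ, Sum.elim (fun _ => (1 : F)) (fun s => (t s)⁻¹) j = ∏ s, (t s)⁻¹ := by
      rw [Fintype.prod_sum_type]
      simp
    rw [h1, Matrix.det_mul_column, Matrix.det_mul_row, h2]
    unfold GM
    ring
  have htp : (∏ s, (t s)⁻¹) * ∏ s, t s = 1 := by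
    rw [← Finset.prod_mul_distrib]
    exact Finset.prod_eq_one fun s _ => inv_mul_cancel₀ (ht s)
  have hR : mnr (Sum.elim x t) (phiS u v) (fun o : Option (α ⊕ σ) => o.elim A₀ fun j => Function.update A₀ (i j) true) *
      ((∏ _c : Option α, z b) * ∏ s, t s) =
      aeval (Sum.elim x t) (phiS u v A₀) ^ (Fintype.card (α ⊕ σ) + 1) * (GM (fun l => δ l) t g *
        z b ^ (Fintype.card (Option α))) := by
    rw [hmin, hmat, Finset.prod_const, Finset.card_univ]
    calc aeval (Sum.elim x t) (phiS u v A₀) ^ (Fintype.card (α ⊕ σ) + 1) * (GM (fun l => δ l) t g * ∏ s, (t s)⁻¹) *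
        (z b ^ (Fintype.card (Option α)) * ∏ s, t s) =
        aeval (Sum.elim x t) (phiS u v A₀) ^ (Fintype.card (α ⊕ σ) + 1) * (GM (fun l => δ l) t g *
          z b ^ (Fintype.card (Option α))) * ((∏ s, (t s)⁻¹) * ∏ s, t s) := by ring
      _ = _ := by rw [htp, mul_one]
  rw [hR, B9_det_z δ z b hb s]
  have hprod : A.valuation (∏ a, aeval (Sum.elim x t) (phiS u v (AA a))) ≤
      A.valuation (aeval (Sum.elim x t) (phiS u v A₀) ^ (Fintype.card (α ⊕ σ) + 1)) := by
    rw [map_prod, map_pow, ← Fintype.card_option, ← Finset.card_univ, ← Finset.prod_const]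
    exact Finset.prod_le_prod' fun a _ => B9_phi_le δ x t ht u v gS hrep A A₀ (AA a) hA₀'
  have hd : A.valuation (Matrix.of fun a c : Option α => a.elim (z (s c) / z b) fun l => δ l (z (s c) / z b)).det ≤
      A.valuation (GM (fun l => δ l) t g) := by
    refine hYle.trans ?_
    rw [hdet, map_mul]
    calc A.valuation a * A.valuation (GM (fun l => δ l) t g) ≤ 1 * A.valuation (GM (fun l => δ l) t g) :=
        mul_le_mul' ((A.valuation_le_one_iff _).2 haA) le_rfl
      _ = _ := one_mul _
  rw [map_mul, map_mul, map_mul A.valuation (_ ^ _) (_ * _), map_mul A.valuation (GM _ _ _)]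
  calc A.valuation (z b ^ Fintype.card (Option α)) *
      A.valuation (Matrix.of fun a c : Option α => a.elim (z (s c) / z b) fun l => δ l (z (s c) / z b)).det *
      A.valuation (∏ a, aeval (Sum.elim x t) (phiS u v (AA a))) ≤
      A.valuation (z b ^ Fintype.card (Option α)) * A.valuation (GM (fun l => δ l) t g) *
      A.valuation (aeval (Sum.elim x t) (phiS u v A₀) ^ (Fintype.card (α ⊕ σ) + 1)) :=
        mul_le_mul' (mul_le_mul' le_rfl hd) hprod
    _ = _ := by
        rw [mul_comm (A.valuation (z b ^ Fintype.card (Option α))), mul_comm]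

end Pool.Agent.Lib.MP_17a322_nt.JAC
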