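import Pool.Agent.Lib.MP_17a322_nt.JAC.B2
import Pool.Agent.Lib.MP_17a322_nt.JAC.B8
import Pool.Agent.Lib.MP_17a322_nt.JAC.B9

universe u

namespace Pool.Agent.Lib.MP_17a322_nt.JAC

open MvPolynomial hiding psum
open Height NumberField
open Pool.Agent.Lib.MP_17a322_nt.EQ

variable {K : Type u} [Field K] [NumberField K] {ι : Type} [Fintype ι]

section B13_aux

variable {K L L' ι α σ S : Type*} [Field K] [CommRing L] [Algebra K L] [CommRing L'] [Algebra K L']
  [Fintype α] [DecidableEq α] [Fintype σ] [DecidableEq σ] [Fintype S]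

private theorem B13_map_mnr {τ κ : Type*} [Fintype τ] [DecidableEq τ] (Φ : L →ₐ[K] L') (w : τ → L)
    (φ : κ → MvPolynomial τ K) (s : Option τ → κ) : Φ (mnr w φ s) = mnr (fun j => Φ (w j)) φ s := by
  unfold mnr
  rw [show Φ (Matrix.of fun i j => jet w (φ (s i)) j).det =
    (Φ : L →+* L') (Matrix.of fun i j => jet w (φ (s i)) j).det from rfl, RingHom.map_det]
  congr 1
  ext i j
  cases j with
  | none => simp [jet, comp_aeval_apply]
  | some j => simp [jet, comp_aeval_apply]

/-- the left side of the comparison -/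
private noncomputable def B13_f (zz : ι → L) (τ : α → ι → L) (w : α ⊕ σ → L)
    (u v : S → MvPolynomial (α ⊕ σ) K) (p : (Option α → ι) × (Option (α ⊕ σ) → S → Bool)) : L :=
  (Matrix.of fun a b : Option α => a.elim (zz (p.1 b)) fun l => τ l (p.1 b)).det *
    ∏ a, aeval w (phiS u v (p.2 a))

/-- the right side of the comparison -/
private noncomputable def B13_g (zz : ι → L) (t : σ → L) (w : α ⊕ σ → L)
    (u v : S → MvPolynomial (α ⊕ σ) K) (q : (Option (α ⊕ σ) → S → Bool) × (Option α → ι)) : L :=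
  mnr w (phiS u v) q.1 * ((∏ b, zz (q.2 b)) * ∏ s, t s)

private theorem B13_map_f (Φ : L →ₐ[K] L') (zz : ι → L) (τ : α → ι → L) (w : α ⊕ σ → L)
    (u v : S → MvPolynomial (α ⊕ σ) K) (p : (Option α → ι) × (Option (α ⊕ σ) → S → Bool)) :
    Φ (B13_f zz τ w u v p) =
      B13_f (fun i => Φ (zz i)) (fun l i => Φ (τ l i)) (fun j => Φ (w j)) u v p := by
  unfold B13_f
  rw [map_mul, map_prod]
  congr 1
  · rw [show Φ (Matrix.of fun a b : Option α => a.elim (zz (p.1 b)) fun l => τ l (p.1 b)).det =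
      (Φ : L →+* L') (Matrix.of fun a b : Option α => a.elim (zz (p.1 b)) fun l => τ l (p.1 b)).det
      from rfl, RingHom.map_det]
    congr 1
    ext i j
    cases i with
    | none => simp
    | some i => simp
  · refine Finset.prod_congr rfl fun a _ => ?_
    rw [comp_aeval_apply]

private theorem B13_map_g (Φ : L →ₐ[K] L') (zz : ι → L) (t : σ → L) (w : α ⊕ σ → L)
    (u v : S → MvPolynomial (α ⊕ σ) K) (q : (Option (α ⊕ σ) → S → Bool) × (Option α → ι)) :
    Φ (B13_g zz t w u v q) =
      B13_g (fun i => Φ (zz i)) (fun s => Φ (t s)) (fun j => Φ (w j)) u v q := by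
  unfold B13_g
  rw [map_mul, map_mul, map_prod, map_prod, B13_map_mnr]

end B13_aux

/-- The comparison of the heights: the transfer of the inequality at the valuation rings to the points of the variety. -/
theorem comparison (I : Ideal (MvPolynomial ι K)) [I.IsPrime] {α σ S : Type} [Fintype α] [DecidableEq α] [Fintype σ] [DecidableEq σ]
    [Fintype S] [DecidableEq S] (x : α → ι) (δ : α → Derivation K (FF I) (FF I)) (u v : S → MvPolynomial (α ⊕ σ) K)
    (gS : S → FF I × (σ → ℤ)) (hrep : ∀ g, Rep δ (fun l => gn I (x l)) (u g) (v g) (gS g))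
    (BN : MvPolynomial ι K) (N : α → ι → MvPolynomial ι K) (hBN : BN ∉ I)
    (hN : ∀ l i, δ l (gn I i) * aeval (gn I) BN = aeval (gn I) (N l i))
    (B₀ : MvPolynomial ι K) (hB₀ : B₀ ∉ I) (M : σ → MvPolynomial ι K) (hM : ∀ s, M s ∉ I)
    (hOk : ∀ A : ValuationSubring (FF I), (∀ c : K, algebraMap K (FF I) c ∈ A) →
      Ok δ (gn I) (fun s => aeval (gn I) (M s) / aeval (gn I) B₀) (Set.range gS) A) :
    ∃ C : ℝ, ∀ z : ι → K, (∀ H ∈ I, eval z H = 0) → z ≠ 0 → eval z BN ≠ 0 → eval z B₀ ≠ 0 → (∀ s, eval z (M s) ≠ 0) →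
      (fun A => eval (Sum.elim (fun l => z (x l)) fun s => eval z (M s) / eval z B₀) (phiS u v A)) ≠ 0 →
      (fun s : Option α → ι => (Matrix.of fun a b : Option α =>
          a.elim (z (s b)) fun l => eval z (N l (s b))).det) ≠ 0 →
      logHeight (fun s : Option α → ι => (Matrix.of fun a b : Option α =>
          a.elim (z (s b)) fun l => eval z (N l (s b))).det) +
        (Fintype.card (α ⊕ σ) + 1) * logHeight (fun A =>
          eval (Sum.elim (fun l => z (x l)) fun s => eval z (M s) / eval z B₀) (phiS u v A)) ≤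
      logHeight (mnr (Sum.elim (fun l => z (x l)) fun s => eval z (M s) / eval z B₀) (phiS u v)) +
        (Fintype.card α + 1) * logHeight z + C := by
  classical
  by_cases hι : Nonempty ι
  swap
  · refine ⟨0, fun z _ hz0 => ?_⟩
    exfalso
    apply hz0
    funext i
    exact absurd ⟨i⟩ hι
  have hB : BN * B₀ ∉ I := fun h => by
    rcases (Ideal.IsPrime.mem_or_mem ‹_› h) with h | h
    · exact hBN h
    · exact hB₀ h
  have hB₀' : aeval (gn I) B₀ ≠ 0 := fun h => hB₀ ((aeval_gn_eq_zero I B₀).1 h)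
  have hBN' : aeval (gn I) BN ≠ 0 := fun h => hBN ((aeval_gn_eq_zero I BN).1 h)
  have hτ : ∀ l i, ∃ r : RB I (BN * B₀),
      emb I hB r = aeval (gn I) (N l i) / aeval (gn I) BN ∧
      ∀ (z : ι → K) (hz : ∀ H ∈ I, eval z H = 0) (hBz : eval z (BN * B₀) ≠ 0),
        evz I hz hBz r = eval z (N l i) / eval z BN :=
    fun l i => exists_quot I (B₁ := BN) (B₂ := B₀) rfl hB (N l i)
  choose τ hτ1 hτ2 using hτ
  have ht : ∀ s, ∃ r : RB I (BN * B₀),
      emb I hB r = aeval (gn I) (M s) / aeval (gn I) B₀ ∧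
      ∀ (z : ι → K) (hz : ∀ H ∈ I, eval z H = 0) (hBz : eval z (BN * B₀) ≠ 0),
        evz I hz hBz r = eval z (M s) / eval z B₀ :=
    fun s => exists_quot I (B₁ := B₀) (B₂ := BN) (mul_comm _ _) hB (M s)
  choose t ht1 ht2 using ht
  have hzz : ∀ i, ∃ r : RB I (BN * B₀), emb I hB r = gn I i ∧
      ∀ (z : ι → K) (hz : ∀ H ∈ I, eval z H = 0) (hBz : eval z (BN * B₀) ≠ 0),
        evz I hz hBz r = z i := by
    intro i
    refine ⟨algebraMap (MvPolynomial ι K ⧸ I) (RB I (BN * B₀)) (Ideal.Quotient.mk I (X i)), ?_, ?_⟩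
    · rw [emb_mk, aeval_X]
    · intro z hz hBz
      rw [evz_mk, eval_X]
  choose zz hzz1 hzz2 using hzz
  set w : α ⊕ σ → RB I (BN * B₀) := Sum.elim (fun l => zz (x l)) t with hw
  have hw1 : (fun j => emb I hB (w j)) = Sum.elim (fun l => gn I (x l))
      (fun s => aeval (gn I) (M s) / aeval (gn I) B₀) := by
    funext j
    cases j with
    | inl l => simp [hw, hzz1]
    | inr s => simp [hw, ht1]
  have hδ : ∀ l i, emb I hB (τ l i) = δ l (gn I i) := by
    intro l i
    rw [hτ1, ← hN, mul_div_cancel_right₀ _ hBN']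
  -- the inequalities at the valuation rings
  have key : ∀ p : (Option α → ι) × (Option (α ⊕ σ) → S → Bool),
      ∃ C : Pl K → ℝ, (∀ v, 1 ≤ C v) ∧ {w : FinitePlace K | C (Sum.inr w) ≠ 1}.Finite ∧
      ∀ (v' : Pl K) (z : ι → K) (hz : ∀ H ∈ I, eval z H = 0) (hBz : eval z (BN * B₀) ≠ 0),
        av v' (evz I hz hBz (B13_f zz τ w u v p)) ≤
          C v' * ⨆ q : (Option (α ⊕ σ) → S → Bool) × (Option α → ι),
            av v' (evz I hz hBz (B13_g zz t w u v q)) := by
    intro p
    refine TRB I hB (B13_f zz τ w u v p) (fun q => B13_g zz t w u v q) ?_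
    intro A hA
    obtain ⟨R, κ, hRκ⟩ := val_ineq δ (fun l => gn I (x l)) (gn I)
      (fun s => aeval (gn I) (M s) / aeval (gn I) B₀)
      (fun s => div_ne_zero (fun h => hM s ((aeval_gn_eq_zero I (M s)).1 h)) hB₀')
      u v gS hrep A (hOk A hA) p.1 p.2
    refine ⟨(R, κ), ?_⟩
    rw [B13_map_f, B13_map_g, hw1]
    simp only [hδ, hzz1, ht1]
    exact hRκ
  choose C hC1 hC2 hC3 using key
  obtain ⟨C0, hC0⟩ := height_comp (σ₁ := (Option α → ι) × (Option (α ⊕ σ) → S → Bool))
    (σ₂ := (Option (α ⊕ σ) → S → Bool) × (Option α → ι)) (fun v' => ∏ p, C p v')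
    (fun v' => by
      rw [← Finset.prod_const_one (s := (Finset.univ : Finset ((Option α → ι) × (Option (α ⊕ σ) → S → Bool))))]
      exact Finset.prod_le_prod (fun _ _ => zero_le_one) (fun p _ => hC1 p v'))
    ((Set.finite_iUnion hC2).subset (by
      intro w' hw'
      simp only [Set.mem_ofPred_eq] at hw'
      rw [Set.mem_iUnion]
      by_contra hcon
      push Not at hcon
      apply hw'
      refine Finset.prod_eq_one fun p _ => ?_
      by_contra h1
      exact hcon p h1))
  refine ⟨C0, ?_⟩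
  intro z hz hz0 hBNz hB₀z hMz hφ hπ
  have hBz : eval z (BN * B₀) ≠ 0 := by
    rw [map_mul]
    exact mul_ne_zero hBNz hB₀z
  set wz : α ⊕ σ → K := Sum.elim (fun l => z (x l)) fun s => eval z (M s) / eval z B₀ with hwz
  have hw2 : (fun j => evz I hz hBz (w j)) = wz := by
    funext j
    cases j with
    | inl l => simp [hw, hwz, hzz2]
    | inr s => simp [hw, hwz, ht2]
  -- the vector of the left side
  set π' : (Option α → ι) → K := fun s => (Matrix.of fun a b : Option α =>
          a.elim (z (s b)) fun l => eval z (N l (s b)) / eval z BN).det with hπ'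
  set φw : (S → Bool) → K := fun A => eval wz (phiS u v A) with hφw
  have hππ : (fun s : Option α → ι => (Matrix.of fun a b : Option α =>
          a.elim (z (s b)) fun l => eval z (N l (s b))).det) = (eval z BN) ^ Fintype.card α • π' := by
    funext s
    rw [Pi.smul_apply, smul_eq_mul, hπ']
    have h1 : (Matrix.of fun a b : Option α => a.elim (z (s b)) fun l => eval z (N l (s b))) =
        Matrix.of fun a b : Option α => (a.elim 1 fun _ => eval z BN : K) *
          (Matrix.of fun a b : Option α =>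
            a.elim (z (s b)) fun l => eval z (N l (s b)) / eval z BN) a b := by
      ext a b
      cases a with
      | none => simp
      | some l =>
        simp only [Matrix.of_apply, Option.elim]
        rw [mul_div_cancel₀ _ hBNz]
    rw [h1]
    refine (Matrix.det_mul_column (fun a : Option α => (a.elim 1 fun _ => eval z BN : K)) _).trans ?_
    congr 1
    rw [Fintype.prod_option]
    simp
  have hπ'0 : π' ≠ 0 := by
    intro h
    apply hπ
    rw [hππ, h, smul_zero]
  have hae : ∀ P : MvPolynomial (α ⊕ σ) K, aeval wz P = eval wz P := fun P => by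
    rfl
  have hev_f : (fun p => evz I hz hBz (B13_f zz τ w u v p)) =
      fun p : (Option α → ι) × (Option (α ⊕ σ) → S → Bool) => π' p.1 * ∏ a, φw (p.2 a) := by
    funext p
    rw [B13_map_f, hw2]
    unfold B13_f
    simp only [hzz2, hτ2, hπ', hφw, hae]
  have hev_g : (fun q => evz I hz hBz (B13_g zz t w u v q)) =
      (∏ s, eval z (M s) / eval z B₀) •
      fun q : (Option (α ⊕ σ) → S → Bool) × (Option α → ι) =>
        mnr wz (phiS u v) q.1 * ∏ b, z (q.2 b) := by
    funext q
    rw [B13_map_g, hw2]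
    unfold B13_g
    simp only [hzz2, ht2, Pi.smul_apply, smul_eq_mul]
    ring
  have hφw1 : (fun AA : Option (α ⊕ σ) → S → Bool => ∏ a, φw (AA a)) ≠ 0 := by
    obtain ⟨A, hA⟩ := Function.ne_iff.1 hφ
    refine Function.ne_iff.2 ⟨fun _ => A, ?_⟩
    simpa using hA
  have ha0 : (fun p => evz I hz hBz (B13_f zz τ w u v p)) ≠ 0 := by
    rw [hev_f]
    obtain ⟨s, hs⟩ := Function.ne_iff.1 hπ'0
    obtain ⟨AA, hAA⟩ := Function.ne_iff.1 hφw1
    exact Function.ne_iff.2 ⟨(s, AA), mul_ne_zero hs hAA⟩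
  obtain ⟨hb0, hle⟩ := hC0 (fun p => evz I hz hBz (B13_f zz τ w u v p))
    (fun q => evz I hz hBz (B13_g zz t w u v q)) ha0 (by
      intro v' p
      refine (hC3 p v' z hz hBz).trans ?_
      refine mul_le_mul_of_nonneg_right ?_ (Real.iSup_nonneg fun q => apply_nonneg _ _)
      rw [← Finset.mul_prod_erase _ _ (Finset.mem_univ p)]
      refine le_mul_of_one_le_right (zero_le_one.trans (hC1 p v')) ?_
      rw [← Finset.prod_const_one (s := (Finset.univ : Finset ((Option α → ι) × (Option (α ⊕ σ) → S → Bool))).erase p)]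
      exact Finset.prod_le_prod (fun _ _ => zero_le_one) (fun p _ => hC1 p v'))
  have hT : (∏ s, eval z (M s) / eval z B₀) ≠ 0 :=
    Finset.prod_ne_zero_iff.2 fun s _ => div_ne_zero (hMz s) hB₀z
  have hmnr : mnr wz (phiS u v) ≠ 0 := by
    intro h
    apply hb0
    rw [hev_g, h]
    funext q
    simp
  have hzprod : (fun κ : Option α → ι => ∏ b, z (κ b)) ≠ 0 := by
    obtain ⟨i, hi⟩ := Function.ne_iff.1 hz0
    refine Function.ne_iff.2 ⟨fun _ => i, ?_⟩
    simpa using hi
  have e1 : logHeight (fun p => evz I hz hBz (B13_f zz τ w u v p)) =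
      logHeight π' + (Fintype.card (α ⊕ σ) + 1) * logHeight φw := by
    rw [hev_f, logHeight_fun_mul_eq (x := π') (y := fun AA : Option (α ⊕ σ) → S → Bool => ∏ a, φw (AA a)) hπ'0 hφw1,
      logHeight_fun_prod_eq (α := Option (α ⊕ σ)) (x := fun _ => φw) (fun _ => hφ)]
    simp
  have e2 : logHeight (fun q => evz I hz hBz (B13_g zz t w u v q)) =
      logHeight (mnr wz (phiS u v)) + (Fintype.card α + 1) * logHeight z := by
    rw [hev_g, logHeight_smul_eq_logHeight _ hT,
      logHeight_fun_mul_eq (x := mnr wz (phiS u v)) (y := fun κ : Option α → ι => ∏ b, z (κ b)) hmnr hzprod,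
      logHeight_fun_prod_eq (α := Option α) (x := fun _ => z) (fun _ => hz0)]
    simp
  rw [hππ, logHeight_smul_eq_logHeight _ (pow_ne_zero _ hBNz)]
  rw [e1, e2] at hle
  exact hle

end Pool.Agent.Lib.MP_17a322_nt.JAC
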