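import Pool.Agent.Lib.MP_17a322_nt.JAC.B1

universe u

namespace Pool.Agent.Lib.MP_17a322_nt.JAC

open MvPolynomial hiding psum
open Height NumberField
open Pool.Agent.Lib.MP_17a322_nt.EQ

variable {K : Type u} [Field K] {ι : Type} [Fintype ι]

section aux

variable {L : Type*} [Field L] [Algebra K L]

theorem B3_aeval_mul {F : MvPolynomial ι K} {d : ℕ} (hF : F.IsHomogeneous d) (c : L) (p : ι → L) :
    aeval (fun i => c * p i) F = c ^ d * aeval p F := by
  rw [aeval_def, aeval_def, eval₂_eq', eval₂_eq', Finset.mul_sum]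
  refine Finset.sum_congr rfl fun m hm => ?_
  have h1 : ∑ i, m i = d := by
    have h2 := hF (mem_support_iff.mp hm)
    rwa [Finsupp.weight_apply, Finsupp.sum_fintype _ _ (fun i => by rw [zero_smul]),
      Finset.sum_congr rfl fun i _ => (by rw [Pi.one_apply, smul_eq_mul, mul_one])] at h2
  rw [Finset.prod_congr rfl fun i _ => mul_pow c (p i) (m i), Finset.prod_mul_distrib,
    Finset.prod_pow_eq_pow_sum, h1]
  ring

theorem B3_aeval_div {F : MvPolynomial ι K} {d : ℕ} (hF : F.IsHomogeneous d) {c : L} (hc : c ≠ 0) (p : ι → L) :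
    aeval p F = c ^ d * aeval (fun i => p i / c) F := by
  rw [← B3_aeval_mul hF]
  have h : (fun i => c * (p i / c)) = p := by
    funext i
    exact mul_div_cancel₀ (p i) hc
  rw [h]

/-- The homogenization. -/
noncomputable def B3_h (i₀ : ι) (H : MvPolynomial ι K) : MvPolynomial ι K :=
  ∑ k ∈ Finset.range (H.totalDegree + 1), homogeneousComponent k H * X i₀ ^ (H.totalDegree - k)

omit [Fintype ι] in
theorem B3_h_hom (i₀ : ι) (H : MvPolynomial ι K) : (B3_h i₀ H).IsHomogeneous H.totalDegree := by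
  unfold B3_h
  refine IsHomogeneous.sum _ _ _ fun k hk => ?_
  have h1 := (homogeneousComponent_isHomogeneous k H).mul
    (isHomogeneous_X_pow (R := K) i₀ (H.totalDegree - k))
  have h2 : k + (H.totalDegree - k) = H.totalDegree := by
    have := Finset.mem_range.1 hk
    omega
  rwa [h2] at h1

theorem B3_h_aeval (i₀ : ι) (H : MvPolynomial ι K) (p : ι → L) (hp : p i₀ ≠ 0) :
    aeval p (B3_h i₀ H) = p i₀ ^ H.totalDegree * aeval (fun i => p i / p i₀) H := by
  have h3 : aeval (fun i => p i / p i₀) H =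
      ∑ k ∈ Finset.range (H.totalDegree + 1), aeval (fun i => p i / p i₀) (homogeneousComponent k H) := by
    rw [← map_sum, sum_homogeneousComponent]
  rw [h3, B3_h, map_sum, Finset.mul_sum]
  refine Finset.sum_congr rfl fun k hk => ?_
  rw [map_mul, map_pow, aeval_X, B3_aeval_div (homogeneousComponent_isHomogeneous k H) hp p]
  have h2 : p i₀ ^ H.totalDegree = p i₀ ^ k * p i₀ ^ (H.totalDegree - k) := by
    rw [← pow_add]
    congr 1
    have := Finset.mem_range.1 hk
    omega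
  rw [h2]
  ring

end aux

omit [Fintype ι] in
theorem B3_gn_ne (J : Ideal (MvPolynomial ι K)) [J.IsPrime] (i₀ : ι) (hi : X i₀ ∉ J) : gn J i₀ ≠ 0 := by
  intro h
  apply hi
  rw [← aeval_gn_eq_zero, aeval_X]
  exact h

omit [Fintype ι] in
theorem B3_mem_dh (J : Ideal (MvPolynomial ι K)) [J.IsPrime] (i₀ : ι) (F : MvPolynomial ι K) :
    F ∈ dh J i₀ ↔ aeval (fun i => gn J i / gn J i₀) F = 0 := RingHom.mem_ker

theorem B3_h_mem (J : Ideal (MvPolynomial ι K)) [J.IsPrime] (i₀ : ι) (hi : X i₀ ∉ J) (H : MvPolynomial ι K) :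
    B3_h i₀ H ∈ J ↔ H ∈ dh J i₀ := by
  have hc := B3_gn_ne J i₀ hi
  rw [← aeval_gn_eq_zero, B3_h_aeval i₀ H (gn J) hc, B3_mem_dh, mul_eq_zero]
  constructor
  · rintro (h | h)
    · exact absurd h (pow_ne_zero _ hc)
    · exact h
  · exact fun h => Or.inr h

theorem B3_eval (i₀ : ι) (H : MvPolynomial ι K) (p : ι → K) (hp : p i₀ ≠ 0) :
    eval p (B3_h i₀ H) = p i₀ ^ H.totalDegree * eval (fun i => p i / p i₀) H := by
  have h := B3_h_aeval (L := K) i₀ H p hp
  have e : ∀ (q : ι → K) (F : MvPolynomial ι K), aeval q F = eval q F := fun q F => by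
    rw [aeval_def, Algebra.algebraMap_self]
    rfl
  rwa [e, e] at h

instance dh_prime (J : Ideal (MvPolynomial ι K)) [J.IsPrime] (i₀ : ι) : (dh J i₀).IsPrime :=
  RingHom.ker_isPrime _

/-- The coordinate `i₀` is equal to one on the affine variety. -/
theorem dh_sub_one (J : Ideal (MvPolynomial ι K)) [J.IsPrime] (i₀ : ι) (hi : X i₀ ∉ J) :
    X i₀ - 1 ∈ dh J i₀ := by
  rw [B3_mem_dh, map_sub, aeval_X, map_one, div_self (B3_gn_ne J i₀ hi), sub_self]

/-- The forms in `dh J i₀` are the forms in `J`. -/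
theorem le_dh (J : Ideal (MvPolynomial ι K)) [J.IsPrime] (hJ : ∀ F ∈ J, ∀ i, homogeneousComponent i F ∈ J) (i₀ : ι)
    (hi : X i₀ ∉ J) : J ≤ dh J i₀ ∧ ∀ F ∈ dh J i₀, ∀ d, F.IsHomogeneous d → F ∈ J := by
  have hc := B3_gn_ne J i₀ hi
  constructor
  · intro F hF
    rw [B3_mem_dh]
    have h3 : aeval (fun i => gn J i / gn J i₀) F =
        ∑ k ∈ Finset.range (F.totalDegree + 1),
          aeval (fun i => gn J i / gn J i₀) (homogeneousComponent k F) := by
      rw [← map_sum, sum_homogeneousComponent]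
    rw [h3]
    refine Finset.sum_eq_zero fun k _ => ?_
    have h4 := (aeval_gn_eq_zero J _).2 (hJ F hF k)
    rw [B3_aeval_div (homogeneousComponent_isHomogeneous k F) hc (gn J), mul_eq_zero] at h4
    rcases h4 with h4 | h4
    · exact absurd h4 (pow_ne_zero _ hc)
    · exact h4
  · intro F hF d hd
    rw [← aeval_gn_eq_zero, B3_aeval_div hd hc (gn J), (B3_mem_dh J i₀ F).1 hF, mul_zero]

/-- The polynomials in `dh J i₀` vanish at the points of the affine variety. -/
theorem eval_dh (J : Ideal (MvPolynomial ι K)) [J.IsPrime] (i₀ : ι) (hi : X i₀ ∉ J) (H : MvPolynomial ι K)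
    (hH : H ∈ dh J i₀) (p : ι → K) (hp : ∀ F ∈ J, eval p F = 0) (hp0 : p i₀ ≠ 0) :
    eval (fun i => p i / p i₀) H = 0 := by
  have h1 := hp _ ((B3_h_mem J i₀ hi H).2 hH)
  rw [B3_eval i₀ H p hp0, mul_eq_zero] at h1
  rcases h1 with h1 | h1
  · exact absurd h1 (pow_ne_zero _ hp0)
  · exact h1

/-- A form `G` not in `J` which cuts out the complement of `G' X_{i₀} ≠ 0`. -/
theorem exists_form (J : Ideal (MvPolynomial ι K)) [J.IsPrime] (i₀ : ι) (hi : X i₀ ∉ J) (G' : MvPolynomial ι K)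
    (hG : G' ∉ dh J i₀) :
    ∃ G : MvPolynomial ι K, G ∉ J ∧ (∃ d, G.IsHomogeneous d) ∧
      ∀ p : ι → K, eval p G ≠ 0 → p i₀ ≠ 0 ∧ eval (fun i => p i / p i₀) G' ≠ 0 := by
  refine ⟨X i₀ * B3_h i₀ G', ?_, ⟨1 + G'.totalDegree, (isHomogeneous_X K i₀).mul (B3_h_hom i₀ G')⟩, ?_⟩
  · intro h
    rcases Ideal.IsPrime.mem_or_mem (inferInstance : J.IsPrime) h with h | h
    · exact hi h
    · exact hG ((B3_h_mem J i₀ hi G').1 h)
  · intro p h
    rw [map_mul, eval_X] at h
    have hp : p i₀ ≠ 0 := left_ne_zero_of_mul h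
    refine ⟨hp, ?_⟩
    have h1 := right_ne_zero_of_mul h
    rw [B3_eval i₀ G' p hp] at h1
    exact right_ne_zero_of_mul h1

end Pool.Agent.Lib.MP_17a322_nt.JAC
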