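import Pool.Agent.Lib.MP_17a322_nt.JAC.B0
import Pool.Agent.Lib.MP_17a322_nt.EQ.G0

universe u

namespace Pool.Agent.Lib.MP_17a322_nt.JAC

open MvPolynomial hiding psum
open Height NumberField
open Pool.Agent.Lib.MP_17a322_nt.EQ

section

variable {K : Type u} [Field K] {τ : Type}

/-- The form of degree `d` which is `P` on the hyperplane `X none = 1`. -/
private noncomputable def B6_hom (d : ℕ) (P : MvPolynomial τ K) : MvPolynomial (Option τ) K :=
  ∑ k ∈ Finset.range (d + 1), X none ^ (d - k) * rename some (homogeneousComponent k P)

private theorem B6_isHom (d : ℕ) (P : MvPolynomial τ K) : (B6_hom d P).IsHomogeneous d := by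
  unfold B6_hom
  apply IsHomogeneous.sum
  intro k hk
  have h1 : (X none ^ (d - k) : MvPolynomial (Option τ) K).IsHomogeneous (1 * (d - k)) :=
    (isHomogeneous_X K none).pow (d - k)
  have h2 := h1.mul ((homogeneousComponent_isHomogeneous k P).rename_isHomogeneous (f := some))
  have h3 : 1 * (d - k) + k = d := by
    have := Finset.mem_range.1 hk
    omega
  rwa [h3] at h2

private theorem B6_sum (d : ℕ) (P : MvPolynomial τ K) (hP : P.totalDegree ≤ d) :
    ∑ k ∈ Finset.range (d + 1), homogeneousComponent k P = P := by
  have h1 : ∑ k ∈ Finset.range (d + 1), homogeneousComponent k P =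
      ∑ k ∈ Finset.range (P.totalDegree + 1), homogeneousComponent k P := by
    symm
    apply Finset.sum_subset
    · intro k hk
      rw [Finset.mem_range] at hk ⊢
      omega
    · intro k _ hk
      apply homogeneousComponent_eq_zero
      rw [Finset.mem_range] at hk
      omega
  rw [h1, sum_homogeneousComponent]

private theorem B6_ren (w : τ → K) (Q : MvPolynomial τ K) :
    eval (fun o : Option τ => o.elim 1 w) (rename some Q) = eval w Q := by
  rw [eval_rename]
  rfl

private theorem B6_eval (d : ℕ) (P : MvPolynomial τ K) (hP : P.totalDegree ≤ d) (w : τ → K) :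
    eval (fun o : Option τ => o.elim 1 w) (B6_hom d P) = eval w P := by
  unfold B6_hom
  rw [map_sum]
  have h1 : ∀ k ∈ Finset.range (d + 1),
      eval (fun o : Option τ => o.elim 1 w) (X none ^ (d - k) * rename some (homogeneousComponent k P)) =
      eval w (homogeneousComponent k P) := by
    intro k _
    rw [map_mul, map_pow, eval_X, B6_ren]
    simp
  rw [Finset.sum_congr rfl h1, ← map_sum, B6_sum d P hP]

private theorem B6_some (d : ℕ) (P : MvPolynomial τ K) (hP : P.totalDegree ≤ d) (w : τ → K) (j : τ) :
    eval (fun o : Option τ => o.elim 1 w) (pderiv (some j) (B6_hom d P)) = eval w (pderiv j P) := by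
  unfold B6_hom
  rw [map_sum, map_sum]
  have h1 : ∀ k ∈ Finset.range (d + 1),
      eval (fun o : Option τ => o.elim 1 w)
        (pderiv (some j) (X none ^ (d - k) * rename some (homogeneousComponent k P))) =
      eval w (pderiv j (homogeneousComponent k P)) := by
    intro k _
    rw [Derivation.leibniz, Derivation.leibniz_pow, pderiv_X_of_ne (by simp),
      pderiv_rename (Option.some_injective τ)]
    simp only [smul_zero, add_zero, smul_eq_mul, mul_zero]
    rw [map_mul, map_pow, eval_X, B6_ren]
    simp
  rw [Finset.sum_congr rfl h1, ← map_sum, ← map_sum, B6_sum d P hP]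

private theorem B6_none [Fintype τ] (d : ℕ) (P : MvPolynomial τ K) (hP : P.totalDegree ≤ d) (w : τ → K) :
    eval (fun o : Option τ => o.elim 1 w) (pderiv none (B6_hom d P)) =
      d * eval w P - ∑ j, w j * eval w (pderiv j P) := by
  have h1 := congrArg (eval (fun o : Option τ => o.elim 1 w)) (B6_isHom d P).sum_X_mul_pderiv
  rw [map_sum, nsmul_eq_mul, map_mul, map_natCast, B6_eval d P hP, Fintype.sum_option] at h1
  simp only [map_mul, eval_X, Option.elim_none, Option.elim_some, one_mul, B6_some d P hP] at h1
  rw [← h1]
  ring

end

/-- From forms to polynomials. -/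
theorem aff_of_jac {K : Type u} [Field K] [NumberField K] (h : JacIneq K) : JacAff K := by
  intro τ κ _ _ _ φ ε hε
  obtain ⟨d, hd1, hd⟩ : ∃ d : ℕ, 1 ≤ d ∧ ∀ a, (φ a).totalDegree ≤ d := by
    refine ⟨1 + Finset.univ.sup (fun a => (φ a).totalDegree), by omega, fun a => ?_⟩
    have := Finset.le_sup (f := fun a => (φ a).totalDegree) (Finset.mem_univ a)
    omega
  have hd0 : (d : K) ≠ 0 := by
    have : d ≠ 0 := by omega
    exact_mod_cast this
  obtain ⟨G, C, hG, ⟨d', hG'⟩, hGC⟩ := h (Option τ) κ (fun a => B6_hom d (φ a)) d
    (fun a => B6_isHom d (φ a)) ε hε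
  have hev : ∀ w : τ → K, eval w (aeval (fun o : Option τ => o.elim 1 (X : τ → MvPolynomial τ K)) G) =
      eval (fun o : Option τ => o.elim 1 w) G := by
    intro w
    have h1 := aeval_comp (L := K) w (fun o : Option τ => o.elim 1 (X : τ → MvPolynomial τ K)) G
    have h2 : (fun o : Option τ => aeval w (o.elim 1 (X : τ → MvPolynomial τ K))) =
        fun o : Option τ => o.elim 1 w := by
      funext o
      cases o with
      | none => simp
      | some j => simp
    rw [h2] at h1
    exact h1
  refine ⟨aeval (fun o : Option τ => o.elim 1 (X : τ → MvPolynomial τ K)) G, C, ?_, ?_⟩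
  · intro h0
    apply hG
    have h1 : G * X none = 0 := by
      apply MvPolynomial.funext
      intro p
      rw [map_mul, eval_X, map_zero]
      by_cases hp : p none = 0
      · rw [hp, mul_zero]
      · have h2 := aeval_mul hG' (p none) (fun o : Option τ => o.elim 1 fun j => p (some j) / p none)
        have h3 : (fun o : Option τ => p none * o.elim 1 fun j => p (some j) / p none) = p := by
          funext o
          cases o with
          | none => simp
          | some j =>
            simp only [Option.elim_some]
            field_simp
        have h4 := hev fun j => p (some j) / p none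
        rw [h0, map_zero] at h4
        have h5 : aeval (fun o : Option τ => o.elim 1 fun j => p (some j) / p none) G = (0 : K) :=
          h4.symm
        rw [h3, h5, mul_zero] at h2
        have h6 : eval p G = 0 := h2
        rw [h6, zero_mul]
    rcases mul_eq_zero.1 h1 with h2 | h2
    · exact h2
    · exact absurd h2 (X_ne_zero none)
  · intro w hw
    rw [hev w] at hw
    have h1 := hGC _ hw
    have h2 : (fun a => eval (fun o : Option τ => o.elim 1 w) (B6_hom d (φ a))) =
        fun a => eval w (φ a) := by
      funext a
      exact B6_eval d (φ a) (hd a) w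
    have h3 : (fun s : Option τ → κ => (Matrix.of fun i j =>
        eval (fun o : Option τ => o.elim 1 w) (pderiv j (B6_hom d (φ (s i))))).det) =
        (d : K) • mnr w φ := by
      funext s
      have h4 : (Matrix.of fun i j =>
          eval (fun o : Option τ => o.elim 1 w) (pderiv j (B6_hom d (φ (s i))))) =
          (Matrix.of fun i j => jet w (φ (s i)) j).updateCol none
            (fun k => ∑ o : Option τ, (fun o : Option τ => o.elim (d : K) fun j => - w j) o •
              (Matrix.of fun i j => jet w (φ (s i)) j) k o) := by
        ext i j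
        cases j with
        | none =>
          rw [Matrix.updateCol_self, Matrix.of_apply, B6_none d _ (hd _), Fintype.sum_option]
          simp only [Matrix.of_apply, jet, Option.elim_none, Option.elim_some, smul_eq_mul, neg_mul,
            Finset.sum_neg_distrib, sub_eq_add_neg]
          rfl
        | some j =>
          rw [Matrix.updateCol_ne (by simp), Matrix.of_apply, Matrix.of_apply, B6_some d _ (hd _)]
          rfl
      rw [h4, Matrix.det_updateCol_sum]
      rfl
    rw [h3, h2, logHeight_smul_eq_logHeight _ hd0, Fintype.card_option] at h1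
    push_cast at h1
    exact h1

end Pool.Agent.Lib.MP_17a322_nt.JAC
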