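import Pool.Agent.Lib.MP_17a322_nt.JAC.E5

namespace Pool.Agent.Lib.MP_17a322_nt.JAC

/-- A valuation ring of `E` is the trace of a valuation ring of the field extension `L`. -/
theorem E6_ext {E L : Type*} [Field E] [Field L] [Algebra E L] (O : ValuationSubring E) :
    ∃ A : ValuationSubring L, ∀ x : E, algebraMap E L x ∈ A ↔ x ∈ O := by
  obtain ⟨A, h, hA⟩ := IsLocalRing.exists_factor_valuationRing
    ((algebraMap E L).comp O.subtype)
  refine ⟨A, fun x => ⟨fun hx => ?_, fun hx => h ⟨x, hx⟩⟩⟩
  by_contra hxO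
  have hx0 : x ≠ 0 := by
    rintro rfl
    exact hxO O.zero_mem
  have hinv : x⁻¹ ∈ O := (O.mem_or_inv_mem x).resolve_left hxO
  have hu : IsUnit ((((algebraMap E L).comp O.subtype).codRestrict A.toSubring h) ⟨x⁻¹, hinv⟩) := by
    rw [isUnit_iff_exists_inv]
    refine ⟨⟨algebraMap E L x, hx⟩, ?_⟩
    apply Subtype.ext
    change algebraMap E L (x⁻¹) * algebraMap E L x = 1
    rw [← map_mul, inv_mul_cancel₀ hx0, map_one]
  have hu2 : IsUnit (⟨x⁻¹, hinv⟩ : O) := hA.map_nonunit _ hu
  rw [isUnit_iff_exists_inv] at hu2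
  obtain ⟨⟨z, hz⟩, hz2⟩ := hu2
  have hz3 : x⁻¹ * z = 1 := congrArg Subtype.val hz2
  have hz4 : z = x := by
    have : x * (x⁻¹ * z) = x * 1 := by rw [hz3]
    rwa [← mul_assoc, mul_inv_cancel₀ hx0, one_mul, mul_one] at this
  exact hxO (hz4 ▸ hz)

/-- Algebraic elements stay algebraic over the image of the small field. -/
theorem E6_alg {E L : Type*} [Field E] [Field L] [Algebra E L] (E0 : Subfield E) (f : E)
    (hf : IsAlgebraic E0 f) : IsAlgebraic (E0.map (algebraMap E L)) (algebraMap E L f) := by
  obtain ⟨P, hP, hPf⟩ := hf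
  let g : E0 →+* (E0.map (algebraMap E L)) :=
    { toFun := fun a => ⟨algebraMap E L a, ⟨a.1, a.2, rfl⟩⟩
      map_one' := Subtype.ext (map_one _)
      map_mul' := fun a b => Subtype.ext (map_mul _ _ _)
      map_zero' := Subtype.ext (map_zero _)
      map_add' := fun a b => Subtype.ext (map_add _ _ _) }
  refine ⟨P.map g, ?_, ?_⟩
  · rwa [Ne, Polynomial.map_eq_zero_iff g.injective]
  · rw [Polynomial.aeval_def, Polynomial.eval₂_map]
    have h1 : (algebraMap (E0.map (algebraMap E L)) L).comp g =
        (algebraMap E L).comp (algebraMap E0 E) := by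
      ext a
      rfl
    rw [h1, ← Polynomial.hom_eval₂]
    have h2 : Polynomial.eval₂ (algebraMap E0 E) f P = 0 := hPf
    rw [h2, map_zero]

/-- Lemma (Et): if `E / E0` is algebraic with the same value group and residue characteristic zero,
then the differentials of the elements of `O` are combinations with coefficients in `O` of the
differentials of the elements of `O ∩ E0`. -/
theorem E6 {E V : Type*} [Field E] [CharZero E] [AddCommGroup V] [Module E V] (O : ValuationSubring E)
    (hO : ∀ n : ℕ, n ≠ 0 → (n : E)⁻¹ ∈ O) (E0 : Subfield E) (halg : ∀ f : E, IsAlgebraic E0 f)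
    (hv : ∀ f : E, f ≠ 0 → ∃ b ∈ E0, b ≠ 0 ∧ f / b ∈ O ∧ b / f ∈ O) (D : Derivation ℤ E V) (y : E)
    (hy : y ∈ O) : D y ∈ spn O (D '' {b | b ∈ E0 ∧ b ∈ O}) := by
  obtain ⟨A, hA⟩ := E6_ext (L := AlgebraicClosure E) O
  have : CharZero (AlgebraicClosure E) :=
    charZero_of_injective_algebraMap (algebraMap E (AlgebraicClosure E)).injective
  have hinj := (algebraMap E (AlgebraicClosure E)).injective
  have hmem : ∀ b : E, algebraMap E (AlgebraicClosure E) b ∈
      E0.map (algebraMap E (AlgebraicClosure E)) ↔ b ∈ E0 := by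
    intro b
    constructor
    · rintro ⟨c, hc, hcb⟩
      have : c = b := hinj hcb
      exact this ▸ hc
    · intro hb
      exact ⟨b, hb, rfl⟩
  have key := E5 (L := AlgebraicClosure E) (E := E) A ?_ (E0.map (algebraMap E (AlgebraicClosure E)))
    ?_ ?_ ?_ D y ((hA y).2 hy)
  · refine AddSubgroup.closure_mono ?_ key
    rintro v ⟨a, b, ha, hb, hb0, rfl⟩
    exact ⟨a, (hA a).1 ha, D b, ⟨b, ⟨(hmem b).1 hb0, (hA b).1 hb⟩, rfl⟩, rfl⟩
  · intro n hn
    have := (hA _).2 (hO n hn)
    rwa [map_inv₀, map_natCast] at this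
  · rintro b ⟨c, hc, rfl⟩
    exact ⟨c, rfl⟩
  · intro f
    exact E6_alg E0 f (halg f)
  · intro f hf
    obtain ⟨b, hb, hb0, h1, h2⟩ := hv f hf
    refine ⟨algebraMap E (AlgebraicClosure E) b, (hmem b).2 hb, ?_, ?_⟩
    · intro h
      exact hb0 (hinj (by rw [h, map_zero]))
    · have h3 := (hA _).2 h1
      have h4 := (hA _).2 h2
      rw [map_div₀] at h3 h4
      have h5 := (A.valuation_le_one_iff _).2 h3
      have h6 := (A.valuation_le_one_iff _).2 h4
      have hf' : algebraMap E (AlgebraicClosure E) f ≠ 0 := by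
        intro h
        exact hf (hinj (by rw [h, map_zero]))
      have hb' : algebraMap E (AlgebraicClosure E) b ≠ 0 := by
        intro h
        exact hb0 (hinj (by rw [h, map_zero]))
      have h7 : A.valuation (algebraMap E (AlgebraicClosure E) f /
          algebraMap E (AlgebraicClosure E) b) *
          A.valuation (algebraMap E (AlgebraicClosure E) b /
            algebraMap E (AlgebraicClosure E) f) = 1 := by
        rw [← map_mul, div_mul_div_cancel₀ hb', div_self hf', map_one]
      refine le_antisymm h5 ?_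
      rw [← h7]
      calc A.valuation (algebraMap E (AlgebraicClosure E) f /
          algebraMap E (AlgebraicClosure E) b) *
          A.valuation (algebraMap E (AlgebraicClosure E) b /
            algebraMap E (AlgebraicClosure E) f) ≤
          A.valuation (algebraMap E (AlgebraicClosure E) f /
          algebraMap E (AlgebraicClosure E) b) * 1 := mul_le_mul_right h6 _
        _ = _ := mul_one _

end Pool.Agent.Lib.MP_17a322_nt.JAC
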