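import Pool.Agent.Lib.MP_17a322_nt.JAC.B0

/-!
Functions regular where `B ≠ 0` and their values.
-/

universe u

namespace Pool.Agent.Lib.MP_17a322_nt.JAC

open MvPolynomial Height NumberField
open Pool.Agent.Lib.MP_17a322_nt.EQ

section

variable {K : Type u} [Field K] {ι : Type}

theorem isUnit_emb_aux (I : Ideal (MvPolynomial ι K)) [I.IsPrime] {B : MvPolynomial ι K} (hB : B ∉ I)
    (y : Submonoid.powers (Ideal.Quotient.mk I B)) :
    IsUnit (IsScalarTower.toAlgHom K (MvPolynomial ι K ⧸ I) (FF I) y) := by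
  obtain ⟨y, n, rfl⟩ := y
  simp only [map_pow]
  refine IsUnit.pow _ (isUnit_iff_ne_zero.2 ?_)
  intro h
  apply hB
  rw [← aeval_gn_eq_zero, aeval_gn]
  exact h

/-- The embedding into the function field. -/
noncomputable def emb (I : Ideal (MvPolynomial ι K)) [I.IsPrime] {B : MvPolynomial ι K} (hB : B ∉ I) :
    RB I B →ₐ[K] FF I :=
  IsLocalization.liftAlgHom (M := Submonoid.powers (Ideal.Quotient.mk I B))
    (f := IsScalarTower.toAlgHom K (MvPolynomial ι K ⧸ I) (FF I)) (isUnit_emb_aux I hB)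

theorem isUnit_evz_aux (I : Ideal (MvPolynomial ι K)) {B : MvPolynomial ι K} {z : ι → K}
    (hz : ∀ H ∈ I, eval z H = 0) (hB : eval z B ≠ 0)
    (y : Submonoid.powers (Ideal.Quotient.mk I B)) :
    IsUnit (Ideal.Quotient.liftₐ I (aeval z) hz y) := by
  obtain ⟨y, n, rfl⟩ := y
  simp only [map_pow]
  refine IsUnit.pow _ (isUnit_iff_ne_zero.2 ?_)
  exact hB

/-- The value at the point `z`. -/
noncomputable def evz (I : Ideal (MvPolynomial ι K)) {B : MvPolynomial ι K} {z : ι → K}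
    (hz : ∀ H ∈ I, eval z H = 0) (hB : eval z B ≠ 0) : RB I B →ₐ[K] K :=
  IsLocalization.liftAlgHom (M := Submonoid.powers (Ideal.Quotient.mk I B))
    (f := Ideal.Quotient.liftₐ I (aeval z) hz) (isUnit_evz_aux I hz hB)

theorem emb_mk (I : Ideal (MvPolynomial ι K)) [I.IsPrime] {B : MvPolynomial ι K} (hB : B ∉ I)
    (P : MvPolynomial ι K) :
    emb I hB (algebraMap (MvPolynomial ι K ⧸ I) (RB I B) (Ideal.Quotient.mk I P)) = aeval (gn I) P := by
  rw [aeval_gn]
  exact IsLocalization.lift_eq _ _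

theorem evz_mk (I : Ideal (MvPolynomial ι K)) {B : MvPolynomial ι K} {z : ι → K}
    (hz : ∀ H ∈ I, eval z H = 0) (hB : eval z B ≠ 0) (P : MvPolynomial ι K) :
    evz I hz hB (algebraMap (MvPolynomial ι K ⧸ I) (RB I B) (Ideal.Quotient.mk I P)) = eval z P :=
  IsLocalization.lift_eq _ _

end

end Pool.Agent.Lib.MP_17a322_nt.JAC
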