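import Pool.Agent.Lib.MP_17a322_nt.JAC.B0

universe u

namespace Pool.Agent.Lib.MP_17a322_nt.JAC

open MvPolynomial hiding psum
open Height NumberField
open Pool.Agent.Lib.MP_17a322_nt.EQ

private theorem B7_false {K τ S : Type*} [Field K] [Fintype S] [DecidableEq S]
    (u v : S → MvPolynomial τ K) (A₀ : S → Bool) (a : S) (ha : A₀ a = false) :
    phiS u v A₀ = v a * ∏ g ∈ Finset.univ.erase a, (if A₀ g then u g else v g) := by
  unfold phiS
  rw [← Finset.mul_prod_erase Finset.univ _ (Finset.mem_univ a), ha]
  rfl

private theorem B7_true {K τ S : Type*} [Field K] [Fintype S] [DecidableEq S]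
    (u v : S → MvPolynomial τ K) (A₀ : S → Bool) (a : S) :
    phiS u v (Function.update A₀ a true)
      = u a * ∏ g ∈ Finset.univ.erase a, (if A₀ g then u g else v g) := by
  unfold phiS
  rw [← Finset.mul_prod_erase Finset.univ _ (Finset.mem_univ a), Function.update_self, if_pos rfl]
  congr 1
  refine Finset.prod_congr rfl (fun g hg => ?_)
  rw [Function.update_of_ne (Finset.ne_of_mem_erase hg)]

/-- Jets of `ψ v` and `ψ u`. -/
private theorem B7_row {L : Type*} [Field L] (U V U' V' P P' : L) (hV : V ≠ 0) :
    U * P' + U' * P = V * P * ((V * U' - U * V') / V ^ 2) + U / V * (V * P' + V' * P) := by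
  field_simp
  ring

private theorem B7_det {L τ : Type*} [Field L] [Fintype τ] [DecidableEq τ] (c : L) (r : τ → L)
    (D : Matrix τ τ L) :
    (Matrix.of fun (o : Option τ) (o' : Option τ) =>
      o.elim (o'.elim c r) (fun i => o'.elim 0 fun j => c * D i j)).det
      = c ^ (Fintype.card τ + 1) * D.det := by
  set M : Matrix (Option τ) (Option τ) L := Matrix.of fun (o : Option τ) (o' : Option τ) =>
      o.elim (o'.elim c r) (fun i => o'.elim 0 fun j => c * D i j) with hM
  have h1 : M.submatrix (Equiv.optionEquivSumPUnit τ).symm (Equiv.optionEquivSumPUnit τ).symm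
      = Matrix.fromBlocks (c • D) 0 (Matrix.of fun (_ : PUnit.{1}) j => r j)
        (Matrix.of fun (_ _ : PUnit.{1}) => c) := by
    ext a b
    rcases a with a | a <;> rcases b with b | b <;> simp [hM]
  have h2 : (Matrix.of fun (_ _ : PUnit.{1}) => c).det = c := by
    rw [Matrix.det_unique, Matrix.of_apply]
  rw [← Matrix.det_submatrix_equiv_self (Equiv.optionEquivSumPUnit τ).symm M, h1,
    Matrix.det_fromBlocks_zero₁₂, Matrix.det_smul, h2]
  ring

/-- The minor of the rows of `φ_{A₀}` and the `φ_{A₀ ∪ {i j}}`. -/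
theorem minor_id {K L τ S : Type*} [Field K] [Field L] [Algebra K L] [Fintype τ] [DecidableEq τ] [Fintype S] [DecidableEq S]
    (u v : S → MvPolynomial τ K) (w : τ → L) (A₀ : S → Bool) (i : τ → S) (hA : ∀ j, A₀ (i j) = false)
    (hv : ∀ j, aeval w (v (i j)) ≠ 0) :
    mnr w (phiS u v) (fun o : Option τ => o.elim A₀ fun j => Function.update A₀ (i j) true) =
      aeval w (phiS u v A₀) ^ (Fintype.card τ + 1) *
        (Matrix.of fun i' j => (aeval w (v (i i')) * aeval w (pderiv j (u (i i'))) -
          aeval w (u (i i')) * aeval w (pderiv j (v (i i')))) / aeval w (v (i i')) ^ 2).det := by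
  set c : L := aeval w (phiS u v A₀) with hc
  set D : Matrix τ τ L := Matrix.of fun i' j => (aeval w (v (i i')) * aeval w (pderiv j (u (i i'))) -
          aeval w (u (i i')) * aeval w (pderiv j (v (i i')))) / aeval w (v (i i')) ^ 2 with hD
  rw [← B7_det c (fun j => aeval w (pderiv j (phiS u v A₀))) D]
  unfold mnr
  refine Matrix.det_eq_of_forall_row_eq_smul_add_const
    (fun o => o.elim 0 fun i' => aeval w (u (i i')) / aeval w (v (i i'))) none rfl ?_
  intro o o'
  rcases o with _ | i'
  · rcases o' with _ | j
    · simp [jet, hc]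
    · simp [jet]
  · have h0 : c = aeval w (v (i i')) *
        aeval w (∏ g ∈ Finset.univ.erase (i i'), (if A₀ g then u g else v g)) := by
      rw [hc, B7_false u v A₀ (i i') (hA i'), map_mul]
    rcases o' with _ | j
    · simp only [Matrix.of_apply, jet, Option.elim_none, Option.elim_some, zero_add]
      rw [B7_true, map_mul, h0, div_mul_eq_mul_div, mul_div_assoc, mul_div_cancel_left₀ _ (hv i')]
    · simp only [Matrix.of_apply, jet, Option.elim_none, Option.elim_some]
      rw [B7_true, B7_false u v A₀ (i i') (hA i'), Derivation.leibniz, Derivation.leibniz, hD,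
        Matrix.of_apply, h0]
      simp only [map_add, map_mul, smul_eq_mul]
      have h1 := B7_row (aeval w (u (i i'))) (aeval w (v (i i'))) (aeval w (pderiv j (u (i i'))))
        (aeval w (pderiv j (v (i i'))))
        (aeval w (∏ g ∈ Finset.univ.erase (i i'), (if A₀ g then u g else v g)))
        (aeval w (pderiv j (∏ g ∈ Finset.univ.erase (i i'), (if A₀ g then u g else v g)))) (hv i')
      linear_combination h1

end Pool.Agent.Lib.MP_17a322_nt.JAC
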