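import Pool.Agent.Lib.MP_17a322_nt.JAC.V0

namespace Pool.Agent.Lib.MP_17a322_nt.JAC

open Polynomial in
/-- A product of linear polynomials over `O` in normal form has a unit coefficient. -/
private theorem E1_unit {L : Type*} [Field L] (O : ValuationSubring L) (T U : Finset L)
    (r r' : L → O) (h : ∀ ρ ∈ U, O.valuation (r' ρ : L) < 1) :
    ∃ i, O.valuation (((∏ ρ ∈ T, (X - C (r ρ))) * ∏ ρ ∈ U, (C (r' ρ) * X - 1) :
      O[X]).coeff i : L) = 1 := by
  have h1 : ((∏ ρ ∈ T, (X - C (r ρ))) * ∏ ρ ∈ U, (C (r' ρ) * X - 1) : O[X]).map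
      (IsLocalRing.residue O) ≠ 0 := by
    rw [Polynomial.map_mul, Polynomial.map_prod, Polynomial.map_prod]
    refine mul_ne_zero (Finset.prod_ne_zero_iff.2 fun ρ _ => ?_)
      (Finset.prod_ne_zero_iff.2 fun ρ hρ => ?_)
    · rw [Polynomial.map_sub, map_X, map_C]
      exact X_sub_C_ne_zero _
    · have h2 : IsLocalRing.residue O (r' ρ) = 0 := by
        rw [IsLocalRing.residue_eq_zero_iff, ValuationSubring.valuation_lt_one_iff]
        exact h ρ hρ
      rw [Polynomial.map_sub, Polynomial.map_mul, map_X, map_C, h2, Polynomial.map_one, C_0,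
        zero_mul, zero_sub]
      exact neg_ne_zero.2 one_ne_zero
  obtain ⟨i, hi⟩ : ∃ i, (((∏ ρ ∈ T, (X - C (r ρ))) * ∏ ρ ∈ U, (C (r' ρ) * X - 1) : O[X]).map
      (IsLocalRing.residue O)).coeff i ≠ 0 := by
    by_contra hcon
    push Not at hcon
    exact h1 (Polynomial.ext fun i => by rw [hcon i, coeff_zero])
  refine ⟨i, ?_⟩
  rw [coeff_map] at hi
  refine le_antisymm (O.valuation_le_one _) (not_lt.1 fun hlt => hi ?_)
  rw [IsLocalRing.residue_eq_zero_iff, ValuationSubring.valuation_lt_one_iff]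
  exact hlt

/-- A polynomial with coefficients in a valuation ring, at least one of them a unit, which splits:
the roots congruent to `g` are factored out. -/
theorem E1 {L : Type*} [Field L] [DecidableEq L] (O : ValuationSubring L) (F : Polynomial L) (R : Finset L) (a : L)
    (hF : F = Polynomial.C a * ∏ ρ ∈ R, (Polynomial.X - Polynomial.C ρ))
    (h1 : ∀ i, F.coeff i ∈ O) (h2 : ∃ i, O.valuation (F.coeff i) = 1) (g : L) (hg : g ∈ O)
    (S : Finset L) (hS : ∀ ρ, ρ ∈ S ↔ ρ ∈ R ∧ O.valuation (ρ - g) < 1) :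
    ∃ P : Polynomial L, (∀ i, P.coeff i ∈ O) ∧ O.valuation (P.eval g) = 1 ∧
      F = (∏ ρ ∈ S, (Polynomial.X - Polynomial.C ρ)) * P := by
  classical
  have hvO : ∀ x, O.valuation x ≤ 1 ↔ x ∈ O := O.valuation_le_one_iff
  have hSO : ∀ ρ ∈ S, ρ ∈ O := by
    intro ρ hρ
    have h3 := ((hS ρ).1 hρ).2
    have h4 : ρ = (ρ - g) + g := by ring
    rw [h4]
    exact O.add_mem _ _ ((hvO _).1 h3.le) hg
  let RO := R.filter (fun ρ => ρ ∈ O)
  let R2 := R.filter (fun ρ => ¬ ρ ∈ O)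
  let R1 := RO.filter (fun ρ => ¬ O.valuation (ρ - g) < 1)
  have hSe : RO.filter (fun ρ => O.valuation (ρ - g) < 1) = S := by
    ext ρ
    simp only [RO, Finset.mem_filter]
    constructor
    · rintro ⟨⟨h3, -⟩, h4⟩
      exact (hS ρ).2 ⟨h3, h4⟩
    · intro h3
      exact ⟨⟨((hS ρ).1 h3).1, hSO ρ h3⟩, ((hS ρ).1 h3).2⟩
  have hR2 : ∀ ρ ∈ R2, O.valuation ρ⁻¹ < 1 := by
    intro ρ hρ
    have h3 : ¬ ρ ∈ O := (Finset.mem_filter.1 hρ).2
    rw [← hvO, not_le] at h3
    rw [map_inv₀]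
    exact inv_lt_one_of_one_lt₀ h3
  let r : L → O := fun ρ => if h : ρ ∈ O then ⟨ρ, h⟩ else 0
  let r' : L → O := fun ρ => if h : ρ⁻¹ ∈ O then ⟨ρ⁻¹, h⟩ else 0
  have hr : ∀ ρ ∈ O, (r ρ : L) = ρ := by
    intro ρ hρ
    simp only [r, dif_pos hρ]
  have hr' : ∀ ρ ∈ R2, (r' ρ : L) = ρ⁻¹ := by
    intro ρ hρ
    have h3 : ρ⁻¹ ∈ O := (hvO _).1 (hR2 ρ hρ).le
    simp only [r', dif_pos h3]
  let a' := a * ∏ ρ ∈ R2, ρ
  -- the product of the integral factors
  have hsplit : F = Polynomial.C a' * (∏ ρ ∈ RO, (Polynomial.X - Polynomial.C ρ)) *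
      ∏ ρ ∈ R2, (Polynomial.C ρ⁻¹ * Polynomial.X - 1) := by
    rw [hF, ← Finset.prod_filter_mul_prod_filter_not R (fun ρ => ρ ∈ O)]
    have h3 : ∏ ρ ∈ R2, (Polynomial.X - Polynomial.C ρ) =
        Polynomial.C (∏ ρ ∈ R2, ρ) * ∏ ρ ∈ R2, (Polynomial.C ρ⁻¹ * Polynomial.X - 1) := by
      rw [map_prod, ← Finset.prod_mul_distrib]
      refine Finset.prod_congr rfl fun ρ hρ => ?_
      have h4 : ρ ≠ 0 := by
        rintro rfl
        exact (Finset.mem_filter.1 hρ).2 O.zero_mem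
      rw [mul_sub, ← mul_assoc, ← Polynomial.C_mul, mul_inv_cancel₀ h4, Polynomial.C_1, one_mul,
        mul_one]
    rw [show R.filter (fun ρ => ¬ ρ ∈ O) = R2 from rfl, h3]
    simp only [a', Polynomial.C_mul]
    ring
  have hmap1 : ∀ T : Finset L, (∀ ρ ∈ T, ρ ∈ O) →
      (∏ ρ ∈ T, (Polynomial.X - Polynomial.C (r ρ)) : Polynomial O).map (algebraMap O L) =
      ∏ ρ ∈ T, (Polynomial.X - Polynomial.C ρ) := by
    intro T hT
    rw [Polynomial.map_prod]
    refine Finset.prod_congr rfl fun ρ hρ => ?_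
    rw [Polynomial.map_sub, Polynomial.map_X, Polynomial.map_C]
    exact congrArg (fun z => Polynomial.X - Polynomial.C z) (hr ρ (hT ρ hρ))
  have hmap2 : (∏ ρ ∈ R2, (Polynomial.C (r' ρ) * Polynomial.X - 1) : Polynomial O).map
      (algebraMap O L) = ∏ ρ ∈ R2, (Polynomial.C ρ⁻¹ * Polynomial.X - 1) := by
    rw [Polynomial.map_prod]
    refine Finset.prod_congr rfl fun ρ hρ => ?_
    rw [Polynomial.map_sub, Polynomial.map_mul, Polynomial.map_X, Polynomial.map_C,
      Polynomial.map_one]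
    exact congrArg (fun z => Polynomial.C z * Polynomial.X - 1) (hr' ρ hρ)
  have hF' : F = Polynomial.C a' * (((∏ ρ ∈ RO, (Polynomial.X - Polynomial.C (r ρ))) *
      ∏ ρ ∈ R2, (Polynomial.C (r' ρ) * Polynomial.X - 1) : Polynomial O).map
        (algebraMap O L)) := by
    rw [Polynomial.map_mul, hmap1 RO (fun ρ hρ => (Finset.mem_filter.1 hρ).2), hmap2, hsplit]
    ring
  -- `a'` is a unit
  have ha' : O.valuation a' = 1 := by
    refine le_antisymm ?_ ?_
    · obtain ⟨i, hi⟩ := E1_unit O RO R2 r r' (fun ρ hρ => by rw [hr' ρ hρ]; exact hR2 ρ hρ)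
      have h3 := (hvO _).2 (h1 i)
      rw [hF', Polynomial.coeff_C_mul, Polynomial.coeff_map, map_mul] at h3
      have h4 : O.valuation (algebraMap O L (((∏ ρ ∈ RO, (Polynomial.X - Polynomial.C (r ρ))) *
        ∏ ρ ∈ R2, (Polynomial.C (r' ρ) * Polynomial.X - 1) : Polynomial O).coeff i)) = 1 := hi
      rwa [h4, mul_one] at h3
    · obtain ⟨i, hi⟩ := h2
      rw [hF', Polynomial.coeff_C_mul, Polynomial.coeff_map, map_mul] at hi
      have h4 : O.valuation (algebraMap O L (((∏ ρ ∈ RO, (Polynomial.X - Polynomial.C (r ρ))) *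
        ∏ ρ ∈ R2, (Polynomial.C (r' ρ) * Polynomial.X - 1) : Polynomial O).coeff i)) ≤ 1 :=
        O.valuation_le_one _
      calc (1 : O.ValueGroup) = _ := hi.symm
        _ ≤ O.valuation a' * 1 := mul_le_mul_right h4 _
        _ = O.valuation a' := mul_one _
  have haO : a' ∈ O := (hvO _).1 ha'.le
  refine ⟨Polynomial.C a' * (∏ ρ ∈ R1, (Polynomial.X - Polynomial.C ρ)) *
      ∏ ρ ∈ R2, (Polynomial.C ρ⁻¹ * Polynomial.X - 1), ?_, ?_, ?_⟩
  · intro i
    have h3 : Polynomial.C a' * (∏ ρ ∈ R1, (Polynomial.X - Polynomial.C ρ)) *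
        ∏ ρ ∈ R2, (Polynomial.C ρ⁻¹ * Polynomial.X - 1) =
        ((Polynomial.C ⟨a', haO⟩ * ∏ ρ ∈ R1, (Polynomial.X - Polynomial.C (r ρ))) *
          ∏ ρ ∈ R2, (Polynomial.C (r' ρ) * Polynomial.X - 1) : Polynomial O).map
            (algebraMap O L) := by
      rw [Polynomial.map_mul, Polynomial.map_mul, hmap1 R1
        (fun ρ hρ => (Finset.mem_filter.1 (Finset.mem_filter.1 hρ).1).2), hmap2,
        Polynomial.map_C]
      rfl
    rw [h3, Polynomial.coeff_map]
    exact Subtype.property _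
  · rw [Polynomial.eval_mul, Polynomial.eval_mul, Polynomial.eval_C, map_mul, map_mul, ha',
      one_mul, Polynomial.eval_prod, Polynomial.eval_prod, map_prod, map_prod,
      Finset.prod_eq_one, Finset.prod_eq_one, mul_one]
    · intro ρ hρ
      rw [Polynomial.eval_sub, Polynomial.eval_mul, Polynomial.eval_C, Polynomial.eval_X,
        Polynomial.eval_one]
      have h3 : O.valuation (ρ⁻¹ * g) < 1 := by
        rw [map_mul]
        exact mul_lt_one_of_lt_of_le (hR2 ρ hρ) ((hvO g).2 hg)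
      have h4 : O.valuation (ρ⁻¹ * g) < O.valuation (1 : L) := by rwa [map_one]
      rw [Valuation.map_sub_swap, Valuation.map_sub_eq_of_lt_left _ h4, map_one]
    · intro ρ hρ
      rw [Polynomial.eval_sub, Polynomial.eval_X, Polynomial.eval_C, Valuation.map_sub_swap]
      obtain ⟨h3, h4⟩ := Finset.mem_filter.1 hρ
      refine le_antisymm ((hvO _).2 (sub_mem (Finset.mem_filter.1 h3).2 hg)) (not_lt.1 h4)
  · rw [hsplit, ← Finset.prod_filter_mul_prod_filter_not RO (fun ρ => O.valuation (ρ - g) < 1), hSe]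
    ring

end Pool.Agent.Lib.MP_17a322_nt.JAC
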