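import Pool.Agent.Lib.MP_17a322_nt.JAC.V0

namespace Pool.Agent.Lib.MP_17a322_nt.JAC

open Polynomial in
private theorem E2_iter {R : Type*} [CommRing R] (f : R[X]) (a : R) (n : ℕ) :
    (derivative^[n] f).eval a = (n.factorial : R) * (taylor a f).coeff n := by
  rw [← factorial_smul_hasseDeriv, taylor_coeff, LinearMap.smul_apply, eval_smul, nsmul_eq_mul]

open Polynomial in
private theorem E2_tay {R : Type*} [CommRing R] (a : R) (s : ℕ) (Q : R[X]) :
    taylor a ((X - C a) ^ s * Q) = taylor a Q * X ^ s := by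
  rw [taylor_mul, taylor_pow, map_sub, taylor_X, taylor_C, add_sub_cancel_right, mul_comm]

open Polynomial in
private theorem E2_pow_lt {R : Type*} [CommRing R] (a : R) {s n : ℕ} (h : n < s) (Q : R[X]) :
    (derivative^[n] ((X - C a) ^ s * Q)).eval a = 0 := by
  rw [E2_iter, E2_tay, coeff_mul_X_pow', if_neg (by omega), mul_zero]

open Polynomial in
private theorem E2_pow_eq {R : Type*} [CommRing R] (a : R) (s : ℕ) (Q : R[X]) :
    (derivative^[s] ((X - C a) ^ s * Q)).eval a = (s.factorial : R) * Q.eval a := by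
  rw [E2_iter, E2_tay, coeff_mul_X_pow', if_pos le_rfl, Nat.sub_self, taylor_coeff_zero]

open Polynomial in
private theorem E2_comp {R : Type*} [CommRing R] (F : R[X]) (g d : R) (n : ℕ) :
    derivative^[n] (F.comp (C g + C d * X)) = C (d ^ n) * (derivative^[n] F).comp (C g + C d * X) := by
  induction n with
  | zero => simp
  | succ n ih =>
    rw [Function.iterate_succ_apply', ih, Function.iterate_succ_apply', derivative_C_mul, derivative_comp]
    have e : derivative (C g + C d * X : R[X]) = C d := by simp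
    rw [e, pow_succ, C_mul]
    ring

open Polynomial in
private theorem E2_lin {R : Type*} [CommRing R] (f : R[X]) (m : ℕ) (hm : f.Monic) (hd : f.natDegree = m + 1)
    (u v : R) : (derivative^[m] f).eval u - (derivative^[m] f).eval v = ((m + 1).factorial : R) * (u - v) := by
  have h1 : (derivative^[m] f).natDegree ≤ 1 := by
    rw [natDegree_le_iff_coeff_eq_zero]
    intro N hN
    rw [coeff_iterate_derivative, coeff_eq_zero_of_natDegree_lt (by omega), smul_zero]
  have h2 : (derivative^[m] f).coeff 1 = ((m + 1).factorial : R) := by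
    rw [coeff_iterate_derivative]
    have e : f.coeff (1 + m) = 1 := by
      have := hm.coeff_natDegree
      rwa [hd, add_comm] at this
    have e2 : (1 + m).descFactorial m = (m + 1).factorial := by
      have := Nat.factorial_mul_descFactorial (n := 1 + m) (k := m) (by omega)
      rw [show 1 + m - m = 1 by omega, Nat.factorial_one, one_mul] at this
      rw [this, add_comm]
    rw [e, e2, nsmul_eq_mul, mul_one]
  rw [eq_X_add_C_of_natDegree_le_one h1, h2]
  simp only [eval_add, eval_mul, eval_C, eval_X]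
  ring

open Polynomial in
/-- a polynomial with coefficients in `O` comes from `O` -/
private theorem E2_lift {L : Type*} [Field L] (O : ValuationSubring L) (P : L[X]) (hP : ∀ i, P.coeff i ∈ O) :
    ∃ P₀ : O[X], P₀.map O.subtype = P := by
  have h : P ∈ lifts O.subtype := by
    rw [lifts_iff_coeff_lifts]
    intro n
    exact ⟨⟨P.coeff n, hP n⟩, rfl⟩
  rw [lifts_iff_set_range] at h
  exact h

private theorem E2_res_zero {L : Type*} [Field L] (O : ValuationSubring L) (a : O) :
    IsLocalRing.residue O a = 0 ↔ O.valuation (a : L) < 1 := by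
  rw [IsLocalRing.residue_eq_zero_iff, ValuationSubring.valuation_lt_one_iff]

private theorem E2_res_one {L : Type*} [Field L] (O : ValuationSubring L) (a : O) :
    IsLocalRing.residue O a ≠ 0 ↔ O.valuation (a : L) = 1 := by
  rw [Ne, E2_res_zero]
  have h := O.valuation_lt_one_or_eq_one a
  constructor
  · intro h1
    exact h.resolve_left h1
  · intro h1
    rw [h1]
    exact lt_irrefl _

private theorem E2_nat {L : Type*} [Field L] [CharZero L] (O : ValuationSubring L)
    (hO : ∀ n : ℕ, n ≠ 0 → (n : L)⁻¹ ∈ O) (n : ℕ) (hn : n ≠ 0) :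
    (n : IsLocalRing.ResidueField O) ≠ 0 := by
  have h1 : (n : O) * ⟨(n : L)⁻¹, hO n hn⟩ = 1 := by
    apply Subtype.ext
    push_cast
    exact mul_inv_cancel₀ (by exact_mod_cast hn)
  intro h2
  have h3 := congrArg (IsLocalRing.residue O) h1
  rw [map_mul, map_natCast, h2, zero_mul, map_one] at h3
  exact zero_ne_one h3

open Polynomial in
private theorem E2_eval {L : Type*} [Field L] (O : ValuationSubring L) (Q : O[X]) (n : ℕ) (a : O) :
    (derivative^[n] (Q.map O.subtype)).eval (a : L) = (((derivative^[n] Q).eval a : O) : L) := by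
  rw [iterate_derivative_map]
  exact eval_map_apply O.subtype a

open Polynomial in
private theorem E2_evalr {L : Type*} [Field L] (O : ValuationSubring L) (Q : O[X]) (n : ℕ) (a : O) :
    IsLocalRing.residue O ((derivative^[n] Q).eval a) =
      (derivative^[n] (Q.map (IsLocalRing.residue O))).eval (IsLocalRing.residue O a) := by
  rw [iterate_derivative_map]
  exact (eval_map_apply (IsLocalRing.residue O) a).symm

/-- The derivative of order `#S - 1` near the point `g`, `S` the set of the roots of `F` congruent to `g`. -/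
theorem E2 {L : Type*} [Field L] [DecidableEq L] [CharZero L] (O : ValuationSubring L)
    (hO : ∀ n : ℕ, n ≠ 0 → (n : L)⁻¹ ∈ O) (F P : Polynomial L) (S : Finset L) (g : L) (hg : g ∈ O) (hgS : g ∈ S)
    (hP : ∀ i, P.coeff i ∈ O) (hPg : O.valuation (P.eval g) = 1)
    (hF : F = (∏ ρ ∈ S, (Polynomial.X - Polynomial.C ρ)) * P)
    (hS : ∀ ρ ∈ S, O.valuation (ρ - g) < 1) :
    O.valuation ((Polynomial.derivative^[S.card - 1] F).eval g) < 1 ∧
    O.valuation ((Polynomial.derivative (Polynomial.derivative^[S.card - 1] F)).eval g) = 1 ∧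
    (2 ≤ S.card → (∀ ρ ∈ S, (Polynomial.derivative^[S.card - 1] F).eval ρ ≠ 0) →
      ∃ ρ ∈ S, ¬ O.valuation ((Polynomial.derivative^[S.card - 1] F).eval ρ /
        (Polynomial.derivative^[S.card - 1] F).eval g - 1) < 1) := by
  obtain ⟨P₀, rfl⟩ := E2_lift O P hP
  obtain ⟨g₀, rfl⟩ : ∃ g₀ : O, (g₀ : L) = g := ⟨⟨g, hg⟩, rfl⟩
  have hs0 : 0 < S.card := Finset.card_pos.2 ⟨_, hgS⟩
  obtain ⟨m, hm⟩ : ∃ m, S.card = m + 1 := ⟨S.card - 1, by omega⟩
  have hm1 : S.card - 1 = m := by omega
  rw [hm1]
  have hPr : (P₀.map (IsLocalRing.residue O)).eval (IsLocalRing.residue O g₀) ≠ 0 := by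
    have e : (P₀.map (IsLocalRing.residue O)).eval (IsLocalRing.residue O g₀) =
        IsLocalRing.residue O (P₀.eval g₀) := Polynomial.eval_map_apply (IsLocalRing.residue O) g₀
    rw [e, E2_res_one]
    have e2 : ((P₀.map O.subtype).eval (g₀ : L)) = ((P₀.eval g₀ : O) : L) :=
      Polynomial.eval_map_apply O.subtype g₀
    rw [← e2]
    exact hPg
  -- lifts of the roots
  have hSO : ∀ ρ ∈ S, ∃ a : O, (a : L) = ρ ∧ IsLocalRing.residue O a = IsLocalRing.residue O g₀ := by
    intro ρ hρ
    have h1 := hS ρ hρ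
    have h2 : ρ - g₀ ∈ O := (O.valuation_le_one_iff _).1 h1.le
    refine ⟨⟨ρ - g₀, h2⟩ + g₀, by push_cast; ring, ?_⟩
    rw [map_add, (E2_res_zero O ⟨ρ - g₀, h2⟩).2 h1, zero_add]
  choose! lf hlf hlr using hSO
  have hF₀ : F = ((∏ ρ ∈ S, (Polynomial.X - Polynomial.C (lf ρ))) * P₀).map O.subtype := by
    rw [hF, Polynomial.map_mul, Polynomial.map_prod]
    congr 1
    refine Finset.prod_congr rfl fun ρ hρ => ?_
    rw [Polynomial.map_sub, Polynomial.map_X, Polynomial.map_C]
    have e : O.subtype (lf ρ) = ρ := hlf ρ hρ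
    rw [e]
  have hFr : ((∏ ρ ∈ S, (Polynomial.X - Polynomial.C (lf ρ))) * P₀).map (IsLocalRing.residue O) =
      (Polynomial.X - Polynomial.C (IsLocalRing.residue O g₀)) ^ (m + 1) * P₀.map (IsLocalRing.residue O) := by
    rw [Polynomial.map_mul, Polynomial.map_prod]
    congr 1
    rw [← hm, ← Finset.prod_const]
    refine Finset.prod_congr rfl fun ρ hρ => ?_
    rw [Polynomial.map_sub, Polynomial.map_X, Polynomial.map_C, hlr ρ hρ]
  refine ⟨?_, ?_, ?_⟩
  · rw [hF₀, E2_eval, ← E2_res_zero, E2_evalr, hFr]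
    exact E2_pow_lt _ (Nat.lt_succ_self m) _
  · have e : Polynomial.derivative (Polynomial.derivative^[m] F) = Polynomial.derivative^[m + 1] F :=
      (Function.iterate_succ_apply' _ _ _).symm
    rw [e, hF₀, E2_eval, ← E2_res_one, E2_evalr, hFr, E2_pow_eq]
    exact mul_ne_zero (E2_nat O hO _ (Nat.factorial_ne_zero _)) hPr
  · intro h2 hne
    by_contra hcon
    push Not at hcon
    -- the pair with maximal distance
    have hoff : S.offDiag.Nonempty := by
      obtain ⟨x, hx, y, hy, hxy⟩ := Finset.one_lt_card.1 (show 1 < S.card by omega)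
      exact ⟨(x, y), Finset.mem_offDiag.2 ⟨hx, hy, hxy⟩⟩
    obtain ⟨⟨ρ₁, ρ₂⟩, hρ, hmax⟩ := Finset.exists_max_image S.offDiag
      (fun x => O.valuation (x.1 - x.2)) hoff
    rw [Finset.mem_offDiag] at hρ
    obtain ⟨hρ₁, hρ₂, hρρ⟩ := hρ
    simp only at hρ₁ hρ₂ hρρ hmax
    have hd0 : ρ₁ - ρ₂ ≠ 0 := sub_ne_zero.2 hρρ
    have hmax' : ∀ ρ ∈ S, O.valuation (ρ - g₀) ≤ O.valuation (ρ₁ - ρ₂) := by
      intro ρ hρ
      by_cases h : ρ = g₀
      · rw [h, sub_self, map_zero]
        exact zero_le
      · exact hmax (ρ, (g₀ : L)) (Finset.mem_offDiag.2 ⟨hρ, hgS, h⟩)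
    have hdlt : O.valuation (ρ₁ - ρ₂) < 1 := by
      have e : ρ₁ - ρ₂ = (ρ₁ - g₀) - (ρ₂ - g₀) := by ring
      rw [e]
      exact Valuation.map_sub_lt _ (hS ρ₁ hρ₁) (hS ρ₂ hρ₂)
    obtain ⟨d₀, hd⟩ : ∃ d₀ : O, (d₀ : L) = ρ₁ - ρ₂ := ⟨⟨ρ₁ - ρ₂, (O.valuation_le_one_iff _).1 hdlt.le⟩, rfl⟩
    rw [← hd] at hd0 hdlt hmax'
    have hdr : IsLocalRing.residue O d₀ = 0 := (E2_res_zero O d₀).2 hdlt
    have hξ : ∀ ρ ∈ S, ∃ a : O, ρ = g₀ + d₀ * a := by
      intro ρ hρ
      obtain ⟨a, ha⟩ := (O.valuation_le_iff _ _).1 (hmax' ρ hρ)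
      exact ⟨a, by linear_combination -ha⟩
    choose! ξ hξ using hξ
    -- the rescaled polynomial
    obtain ⟨q, hq⟩ : ∃ q : Polynomial O, q = ∏ ρ ∈ S, (Polynomial.X - Polynomial.C (ξ ρ)) := ⟨_, rfl⟩
    obtain ⟨Pd, hPd⟩ : ∃ Pd : Polynomial O, Pd = P₀.comp (Polynomial.C g₀ + Polynomial.C d₀ * Polynomial.X) :=
      ⟨_, rfl⟩
    have hcomp : F.comp (Polynomial.C (g₀ : L) + Polynomial.C (d₀ : L) * Polynomial.X) =
        Polynomial.C ((d₀ : L) ^ (m + 1)) * (q * Pd).map O.subtype := by
      rw [hF, Polynomial.mul_comp, Polynomial.map_mul, ← mul_assoc]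
      congr 1
      · rw [Polynomial.prod_comp, hq, Polynomial.map_prod, Polynomial.C_pow, ← hm, ← Finset.prod_const,
          ← Finset.prod_mul_distrib]
        refine Finset.prod_congr rfl fun ρ hρ => ?_
        rw [Polynomial.sub_comp, Polynomial.X_comp, Polynomial.C_comp, Polynomial.map_sub, Polynomial.map_X,
          Polynomial.map_C]
        have e : O.subtype (ξ ρ) = (ξ ρ : L) := rfl
        rw [e]
        have e2 : (Polynomial.C ρ : Polynomial L) = Polynomial.C (g₀ : L) + Polynomial.C (d₀ : L) *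
            Polynomial.C (ξ ρ : L) := by
          rw [← Polynomial.C_mul, ← Polynomial.C_add, ← hξ ρ hρ]
        rw [e2]
        ring
      · rw [hPd, Polynomial.map_comp, Polynomial.map_add, Polynomial.map_mul, Polynomial.map_C, Polynomial.map_C,
          Polynomial.map_X]
        rfl
    have key : ∀ a : O, (Polynomial.derivative^[m] F).eval ((g₀ : L) + d₀ * a) =
        d₀ * (((Polynomial.derivative^[m] (q * Pd)).eval a : O) : L) := by
      intro a
      have h1 := congrArg (Polynomial.eval (a : L)) (E2_comp F (g₀ : L) (d₀ : L) m)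
      rw [hcomp, Polynomial.iterate_derivative_C_mul, Polynomial.eval_C_mul, Polynomial.eval_C_mul, E2_eval,
        Polynomial.eval_comp, Polynomial.eval_add, Polynomial.eval_C_mul, Polynomial.eval_C, Polynomial.eval_X] at h1
      have h3 : ((d₀ : L)) ^ m ≠ 0 := pow_ne_zero _ hd0
      apply mul_left_cancel₀ h3
      rw [← h1]
      ring
    -- the residues
    have hres : ∀ a : O, IsLocalRing.residue O ((Polynomial.derivative^[m] (q * Pd)).eval a) =
        (P₀.map (IsLocalRing.residue O)).eval (IsLocalRing.residue O g₀) *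
        (Polynomial.derivative^[m] (q.map (IsLocalRing.residue O))).eval (IsLocalRing.residue O a) := by
      intro a
      rw [E2_evalr, Polynomial.map_mul]
      have e : Pd.map (IsLocalRing.residue O) =
          Polynomial.C ((P₀.map (IsLocalRing.residue O)).eval (IsLocalRing.residue O g₀)) := by
        rw [hPd, Polynomial.map_comp, Polynomial.map_add, Polynomial.map_mul, Polynomial.map_C, Polynomial.map_C,
          Polynomial.map_X, hdr, Polynomial.C_0, zero_mul, add_zero, Polynomial.comp_C]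
      rw [e, mul_comm, Polynomial.iterate_derivative_C_mul, Polynomial.eval_C_mul]
    have hqm : (q.map (IsLocalRing.residue O)).Monic := by
      rw [hq]
      exact (Polynomial.monic_prod_of_monic _ _ fun ρ _ => Polynomial.monic_X_sub_C _).map _
    have hqd : (q.map (IsLocalRing.residue O)).natDegree = m + 1 := by
      have h1 : q.Monic := by
        rw [hq]
        exact Polynomial.monic_prod_of_monic _ _ fun ρ _ => Polynomial.monic_X_sub_C _
      rw [h1.natDegree_map, hq, Polynomial.natDegree_prod_of_monic _ _ fun ρ _ => Polynomial.monic_X_sub_C _]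
      simp only [Polynomial.natDegree_X_sub_C, Finset.sum_const, smul_eq_mul, mul_one]
      exact hm
    -- all residues agree
    obtain ⟨e₀, he₀⟩ : ∃ e₀ : O, e₀ = (Polynomial.derivative^[m] (q * Pd)).eval 0 := ⟨_, rfl⟩
    have hg0 : (Polynomial.derivative^[m] F).eval (g₀ : L) = d₀ * (e₀ : L) := by
      have h1 := key 0
      rw [← he₀] at h1
      rw [← h1]
      congr 1
      push_cast
      ring
    have hall : ∀ ρ ∈ S, IsLocalRing.residue O ((Polynomial.derivative^[m] (q * Pd)).eval (ξ ρ)) =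
        IsLocalRing.residue O e₀ := by
      intro ρ hρ
      have h1 := hcon ρ hρ
      have h3 := key (ξ ρ)
      rw [← hξ ρ hρ] at h3
      have h4 : (Polynomial.derivative^[m] F).eval (g₀ : L) ≠ 0 := hne _ hgS
      have he0 : (e₀ : L) ≠ 0 := by
        intro h5
        rw [hg0, h5, mul_zero] at h4
        exact h4 rfl
      have h6 : (Polynomial.derivative^[m] F).eval ρ / (Polynomial.derivative^[m] F).eval (g₀ : L) - 1 ∈ O :=
        (O.valuation_le_one_iff _).1 h1.le
      have h7 := (E2_res_zero O ⟨_, h6⟩).2 h1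
      have h8 : (Polynomial.derivative^[m] (q * Pd)).eval (ξ ρ) - e₀ = ⟨_, h6⟩ * e₀ := by
        apply Subtype.ext
        push_cast
        rw [h3, hg0]
        field_simp
      have h9 := congrArg (IsLocalRing.residue O) h8
      rw [map_mul, h7, zero_mul, map_sub] at h9
      exact sub_eq_zero.1 h9
    have h10 := (hall ρ₁ hρ₁).trans (hall ρ₂ hρ₂).symm
    rw [hres, hres] at h10
    have h11 := mul_left_cancel₀ hPr h10
    have h12 := E2_lin _ m hqm hqd (IsLocalRing.residue O (ξ ρ₁)) (IsLocalRing.residue O (ξ ρ₂))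
    rw [h11, sub_self] at h12
    have h13 := (mul_eq_zero.1 h12.symm).resolve_left (E2_nat O hO _ (Nat.factorial_ne_zero _))
    have h14 : ξ ρ₁ - ξ ρ₂ = 1 := by
      apply Subtype.ext
      push_cast
      have h15 := hξ ρ₁ hρ₁
      have h16 := hξ ρ₂ hρ₂
      apply mul_left_cancel₀ hd0
      linear_combination h16 - h15 - hd
    rw [← map_sub, h14, map_one] at h13
    exact one_ne_zero h13

end Pool.Agent.Lib.MP_17a322_nt.JAC
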