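import Pool.Agent.Lib.MP_17a322_nt.JAC.V0

namespace Pool.Agent.Lib.MP_17a322_nt.JAC

open IsLocalRing in
private theorem E3_res {L : Type*} [Field L] (O : ValuationSubring L) (x : O) :
    residue O x = 0 ↔ O.valuation (x : L) < 1 := by
  rw [residue_eq_zero_iff, ValuationSubring.valuation_lt_one_iff]

private theorem E3_nat {L : Type*} [Field L] [CharZero L] (O : ValuationSubring L)
    (hO : ∀ n : ℕ, n ≠ 0 → (n : L)⁻¹ ∈ O) {n : ℕ} (hn : n ≠ 0) : O.valuation (n : L) = 1 := by
  have h1 : (n : L) ≠ 0 := Nat.cast_ne_zero.2 hn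
  refine le_antisymm ((O.valuation_le_one_iff _).2 (natCast_mem O n)) ?_
  have h2 := (O.valuation_le_one_iff _).2 (hO n hn)
  rw [map_inv₀] at h2
  exact (inv_le_one₀ (zero_lt_iff.2 ((Valuation.ne_zero_iff _).2 h1))).1 h2

open IsLocalRing in
private theorem E3_char {L : Type*} [Field L] [CharZero L] (O : ValuationSubring L)
    (hO : ∀ n : ℕ, n ≠ 0 → (n : L)⁻¹ ∈ O) : CharZero (ResidueField O) := by
  refine charZero_of_inj_zero fun n hn => ?_
  by_contra h0
  rw [← map_natCast (residue O), E3_res] at hn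
  have h1 : (((n : O) : L)) = (n : L) := by simp
  rw [h1, E3_nat O hO h0] at hn
  exact lt_irrefl _ hn

/-- For `ρ ∉ O` at most one exponent is bad. -/
private theorem E3_M {L : Type*} [Field L] (O : ValuationSubring L) {ρ x y : L}
    (hρ : 1 < O.valuation ρ) (hx : x ≠ 0) :
    {M : ℕ | O.valuation ρ ^ M * O.valuation x = O.valuation y}.Finite := by
  refine Set.Subsingleton.finite ?_
  intro M hM M' hM'
  have h0 : O.valuation ρ ^ M * O.valuation x = O.valuation y := hM
  have h0' : O.valuation ρ ^ M' * O.valuation x = O.valuation y := hM'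
  have h1 : O.valuation ρ ^ M * O.valuation x = O.valuation ρ ^ M' * O.valuation x :=
    h0.trans h0'.symm
  have h2 := mul_right_cancel₀ ((Valuation.ne_zero_iff _).2 hx) h1
  exact (pow_right_injective₀ (zero_lt_one.trans hρ) hρ.ne') h2

/-- Choice of the multiplier `(X - c)^M`. `R` is a finite set, `g ∈ O`, no `ρ ∈ R` is congruent to `g` modulo the
maximal ideal of the valuation ring `O` (residue characteristic 0); `h ρ ≠ 0`, `h g ≠ 0`. There are `M ≥ 1` and `c ∈ ℕ` with
`g - c` a unit of `O` and `(ρ - c)^M h(ρ) / ((g - c)^M h(g)) ≢ 1` for all `ρ ∈ R`. -/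
theorem E3 {L : Type*} [Field L] [CharZero L] (O : ValuationSubring L)
    (hO : ∀ n : ℕ, n ≠ 0 → (n : L)⁻¹ ∈ O) (R : Finset L) (g : L) (hg : g ∈ O)
    (hR : ∀ ρ ∈ R, ¬ O.valuation (ρ - g) < 1) (h : L → L) (hh : ∀ ρ ∈ R, h ρ ≠ 0) (hhg : h g ≠ 0) :
    ∃ M c : ℕ, 1 ≤ M ∧ O.valuation (g - c) = 1 ∧
      ∀ ρ ∈ R, ¬ O.valuation ((ρ - c) ^ M * h ρ / ((g - c) ^ M * h g) - 1) < 1 := by
  classical
  have hchar := E3_char O hO
  -- the exponent
  have hfM : (⋃ ρ ∈ R.filter fun ρ => 1 < O.valuation ρ,
      {M : ℕ | O.valuation ρ ^ M * O.valuation (h ρ) = O.valuation (h g)}).Finite := by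
    refine Set.Finite.biUnion (Finset.finite_toSet _) fun ρ hρ => ?_
    have hρ' := Finset.mem_filter.1 (Finset.mem_coe.1 hρ)
    exact E3_M O hρ'.2 (hh ρ hρ'.1)
  obtain ⟨M, hM1, hM2⟩ := (Set.Ici_infinite 1).exists_notMem_finite hfM
  have hM3 : ∀ ρ ∈ R, 1 < O.valuation ρ →
      O.valuation ρ ^ M * O.valuation (h ρ) ≠ O.valuation (h g) := by
    intro ρ hρ h1 h2
    apply hM2
    simp only [Set.mem_iUnion]
    exact ⟨ρ, Finset.mem_filter.2 ⟨hρ, h1⟩, h2⟩
  have hM0 : M ≠ 0 := Nat.one_le_iff_ne_zero.1 hM1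
  -- general facts
  have hsub : ∀ x : L, x ∈ O → ∀ c : ℕ, x - (c : L) ∈ O := fun x hx c =>
    sub_mem hx (natCast_mem O c)
  have hX : ∀ (ρ : L) (c : ℕ), O.valuation (g - c) = 1 →
      O.valuation ((ρ - c) ^ M * h ρ / ((g - c) ^ M * h g) - 1) < 1 →
      O.valuation (ρ - c) ^ M * O.valuation (h ρ) = O.valuation (h g) := by
    intro ρ c hc hv
    have h1 := Valuation.map_one_add_of_lt O.valuation hv
    rw [add_sub_cancel, map_div₀, map_mul, map_mul, map_pow, map_pow, hc, one_pow, one_mul] at h1
    exact (div_eq_one_iff_eq ((Valuation.ne_zero_iff _).2 hhg)).1 h1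
  -- bad `c`
  have hS1 : {c : ℕ | O.valuation (g - c) < 1}.Finite := by
    refine ((Set.finite_singleton (IsLocalRing.residue O ⟨g, hg⟩)).preimage
      (Nat.cast_injective (R := IsLocalRing.ResidueField O)).injOn).subset fun c hc => ?_
    rw [Set.mem_preimage, Set.mem_singleton_iff, ← map_natCast (IsLocalRing.residue O), eq_comm,
      ← sub_eq_zero, ← map_sub, E3_res]
    simpa using hc
  have hS2 : ∀ ρ ∈ R, {c : ℕ | O.valuation (g - c) = 1 ∧
      O.valuation ((ρ - c) ^ M * h ρ / ((g - c) ^ M * h g) - 1) < 1}.Finite := by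
    intro ρ hρ
    by_cases hρO : ρ ∈ O
    · by_cases hr : O.valuation (h ρ / h g) = 1
      · have hrO : h ρ / h g ∈ O := (O.valuation_le_one_iff _).1 hr.le
        let P : Polynomial (IsLocalRing.ResidueField O) :=
          Polynomial.C (IsLocalRing.residue O ⟨h ρ / h g, hrO⟩) *
            (Polynomial.C (IsLocalRing.residue O ⟨ρ, hρO⟩) - Polynomial.X) ^ M -
            (Polynomial.C (IsLocalRing.residue O ⟨g, hg⟩) - Polynomial.X) ^ M
        have hP : P ≠ 0 := by
          intro h0
          have h1 := congrArg (Polynomial.eval (IsLocalRing.residue O ⟨ρ, hρO⟩)) h0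
          simp only [P, Polynomial.eval_sub, Polynomial.eval_mul, Polynomial.eval_pow,
            Polynomial.eval_C, Polynomial.eval_X, sub_self, zero_pow hM0, mul_zero, zero_sub,
            Polynomial.eval_zero, neg_eq_zero] at h1
          have h2 := eq_zero_of_pow_eq_zero h1
          rw [← map_sub, E3_res] at h2
          apply hR ρ hρ
          rw [Valuation.map_sub_swap]
          simpa using h2
        have hfin : ({x | P.IsRoot x} ∪ {IsLocalRing.residue O ⟨ρ, hρO⟩}).Finite :=
          (Polynomial.finite_setOfPred_isRoot hP).union (Set.finite_singleton _)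
        refine (hfin.preimage
          (Nat.cast_injective (R := IsLocalRing.ResidueField O)).injOn).subset fun c hc => ?_
        obtain ⟨hc1, hc2⟩ := hc
        rw [Set.mem_preimage, ← map_natCast (IsLocalRing.residue O)]
        left
        change Polynomial.eval _ P = 0
        simp only [P, Polynomial.eval_sub, Polynomial.eval_mul, Polynomial.eval_pow,
            Polynomial.eval_C, Polynomial.eval_X]
        rw [← map_sub, ← map_sub, ← map_pow, ← map_pow, ← map_mul, ← map_sub, E3_res]
        have hgc : g - (c : L) ≠ 0 := by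
          intro h0
          rw [h0, map_zero] at hc1
          exact zero_ne_one hc1
        have h3 : h ρ / h g * (ρ - (c : L)) ^ M - (g - (c : L)) ^ M =
            (g - (c : L)) ^ M * ((ρ - c) ^ M * h ρ / ((g - c) ^ M * h g) - 1) := by
          have h4 := pow_ne_zero M hgc
          field_simp
        have h5 : O.valuation (h ρ / h g * (ρ - (c : L)) ^ M - (g - (c : L)) ^ M) < 1 := by
          rw [h3, map_mul, map_pow, hc1, one_pow, one_mul]
          exact hc2
        simpa using h5
      · refine ((Set.finite_singleton (IsLocalRing.residue O ⟨ρ, hρO⟩)).preimage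
          (Nat.cast_injective (R := IsLocalRing.ResidueField O)).injOn).subset fun c hc => ?_
        obtain ⟨hc1, hc2⟩ := hc
        rw [Set.mem_preimage, Set.mem_singleton_iff, ← map_natCast (IsLocalRing.residue O), eq_comm,
          ← sub_eq_zero, ← map_sub, E3_res]
        by_contra h6
        have h7 : O.valuation (ρ - c) = 1 := by
          refine le_antisymm ((O.valuation_le_one_iff _).2 (hsub ρ hρO c)) ?_
          simpa using h6
        have h8 := hX ρ c hc1 hc2
        rw [h7, one_pow, one_mul] at h8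
        apply hr
        rw [map_div₀, h8, div_self ((Valuation.ne_zero_iff _).2 hhg)]
    · have hρ1 : 1 < O.valuation ρ := by
        rw [← not_le, O.valuation_le_one_iff]
        exact hρO
      refine Set.finite_empty.subset fun c hc => ?_
      obtain ⟨hc1, hc2⟩ := hc
      have h8 := hX ρ c hc1 hc2
      have h9 : O.valuation (ρ - c) = O.valuation ρ := by
        have h10 : O.valuation (c : L) < O.valuation ρ :=
          lt_of_le_of_lt ((O.valuation_le_one_iff _).2 (natCast_mem O c)) hρ1
        exact Valuation.map_sub_eq_of_lt_left O.valuation h10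
      rw [h9] at h8
      exact hM3 ρ hρ hρ1 h8
  obtain ⟨c, hc⟩ := (hS1.union (Set.Finite.biUnion (Finset.finite_toSet R) hS2)).exists_notMem
  simp only [Set.mem_union, Set.mem_ofPred_eq, Set.mem_iUnion, not_or, not_exists] at hc
  have hc1 : O.valuation (g - c) = 1 :=
    le_antisymm ((O.valuation_le_one_iff _).2 (hsub g hg c)) (not_lt.1 hc.1)
  exact ⟨M, c, hM1, hc1, fun ρ hρ h9 => hc.2 ρ hρ ⟨hc1, h9⟩⟩

end Pool.Agent.Lib.MP_17a322_nt.JAC
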