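import Pool.Agent.Lib.MP_17a322_nt.JAC.V0

namespace Pool.Agent.Lib.MP_17a322_nt.JAC

/-- The roots in `L` of the minimal polynomial over `E0` of `g ∈ L` which are congruent to `g` modulo the maximal ideal of `O`. -/
noncomputable def cls {L : Type*} [Field L] (O : ValuationSubring L) (E0 : Subfield L) (g : L) : Set L :=
  {ρ | (Polynomial.aeval ρ) (minpoly E0 g) = 0 ∧ O.valuation (ρ - g) < 1}

/-- Every conjugate of an element `Θ(g)` is of the form `Θ(ρ)` with a conjugate `ρ` of `g`. -/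
theorem E4_conj {L : Type*} [Field L] [IsAlgClosed L] (E0 : Subfield L) (g : L)
    (hg : IsAlgebraic E0 g) (Θ : Polynomial E0) (y : L)
    (hy : Polynomial.aeval y (minpoly E0 (Polynomial.aeval g Θ)) = 0) :
    ∃ ρ : L, Polynomial.aeval ρ (minpoly E0 g) = 0 ∧ Polynomial.aeval ρ Θ = y := by
  have hmem : Polynomial.aeval g Θ ∈ IntermediateField.adjoin E0 ({g} : Set L) := by
    have h1 : g ∈ IntermediateField.adjoin E0 ({g} : Set L) :=
      IntermediateField.subset_adjoin E0 _ rfl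
    have h2 : Polynomial.aeval g Θ =
        ((Polynomial.aeval (⟨g, h1⟩ : IntermediateField.adjoin E0 ({g} : Set L)) Θ :
          IntermediateField.adjoin E0 ({g} : Set L)) : L) :=
      Polynomial.aeval_algebraMap_apply L
        (⟨g, h1⟩ : IntermediateField.adjoin E0 ({g} : Set L)) Θ
    rw [h2]
    exact Subtype.property _
  have hK : ∀ s ∈ ({g} : Set L), IsIntegral E0 s ∧
      ((minpoly E0 s).map (algebraMap E0 L)).Splits := by
    intro s hs
    rw [Set.mem_singleton_iff.1 hs]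
    exact ⟨hg.isIntegral, IsAlgClosed.splits _⟩
  obtain ⟨φ, hφ⟩ := IntermediateField.exists_algHom_adjoin_of_splits_of_aeval hK hmem hy
  have h1 : g ∈ IntermediateField.adjoin E0 ({g} : Set L) :=
    IntermediateField.subset_adjoin E0 _ rfl
  refine ⟨φ ⟨g, h1⟩, ?_, ?_⟩
  · rw [Polynomial.aeval_algHom_apply]
    have h3 : Polynomial.aeval (⟨g, h1⟩ : IntermediateField.adjoin E0 ({g} : Set L))
        (minpoly E0 g) = 0 := by
      apply Subtype.ext
      have h4 := (Polynomial.aeval_algebraMap_apply L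
        (⟨g, h1⟩ : IntermediateField.adjoin E0 ({g} : Set L)) (minpoly E0 g)).symm
      exact h4.trans (minpoly.aeval E0 g)
    rw [h3, map_zero]
  · rw [Polynomial.aeval_algHom_apply, ← hφ]
    congr 1
    apply Subtype.ext
    exact (Polynomial.aeval_algebraMap_apply L
      (⟨g, h1⟩ : IntermediateField.adjoin E0 ({g} : Set L)) Θ).symm

/-- Let `u = Ψ(g) / b` be a unit of `O`, `Ψ` a polynomial over `E0`, `b ∈ E0` nonzero, `g` algebraic
over `E0`. The number of the conjugates of `u` congruent to `u` is at most the number of the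
conjugates `ρ` of `g` with `Ψ(ρ) / Ψ(g) ≡ 1`. -/
theorem E4 {L : Type*} [Field L] [IsAlgClosed L] (O : ValuationSubring L) (E0 : Subfield L) (g : L)
    (hg : IsAlgebraic E0 g) (Ψ : Polynomial E0) (b : L) (hb : b ∈ E0) (hb0 : b ≠ 0)
    (hu : O.valuation (Polynomial.aeval g Ψ / b) = 1) (T : Finset L)
    (hT : ∀ ρ : L, Polynomial.aeval ρ (minpoly E0 g) = 0 →
      O.valuation (Polynomial.aeval ρ Ψ / Polynomial.aeval g Ψ - 1) < 1 → ρ ∈ T) :
    (cls O E0 (Polynomial.aeval g Ψ / b)).ncard ≤ T.card := by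
  classical
  have hΘ : ∀ ρ : L, Polynomial.aeval ρ (Ψ * Polynomial.C (⟨b, hb⟩ : E0)⁻¹) =
      Polynomial.aeval ρ Ψ / b := by
    intro ρ
    rw [map_mul, Polynomial.aeval_C, div_eq_mul_inv]
    rfl
  have hg0 : Polynomial.aeval g Ψ / b ≠ 0 := by
    intro h
    rw [h, map_zero] at hu
    exact zero_ne_one hu
  have hg1 : Polynomial.aeval g Ψ ≠ 0 := by
    intro h
    exact hg0 (by rw [h, zero_div])
  have hsub : cls O E0 (Polynomial.aeval g Ψ / b) ⊆
      ((T.image fun ρ => Polynomial.aeval ρ Ψ / b : Finset L) : Set L) := by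
    rintro y ⟨hy1, hy2⟩
    rw [← hΘ g] at hy1
    obtain ⟨ρ, hρ1, hρ2⟩ := E4_conj E0 g hg _ y hy1
    rw [hΘ ρ] at hρ2
    rw [Finset.coe_image]
    refine ⟨ρ, ?_, hρ2⟩
    refine hT ρ hρ1 ?_
    have h1 : Polynomial.aeval ρ Ψ / Polynomial.aeval g Ψ - 1 =
        (y - Polynomial.aeval g Ψ / b) / (Polynomial.aeval g Ψ / b) := by
      rw [← hρ2]
      field_simp
    rw [h1, map_div₀, hu, div_one]
    exact hy2
  calc (cls O E0 (Polynomial.aeval g Ψ / b)).ncard
      ≤ ((T.image fun ρ => Polynomial.aeval ρ Ψ / b : Finset L) : Set L).ncard :=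
        Set.ncard_le_ncard hsub (Finset.finite_toSet _)
    _ = (T.image fun ρ => Polynomial.aeval ρ Ψ / b).card := Set.ncard_coe_finset _
    _ ≤ T.card := Finset.card_image_le

end Pool.Agent.Lib.MP_17a322_nt.JAC
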