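import Pool.Agent.Lib.MP_17a322_nt.JAC.E1
import Pool.Agent.Lib.MP_17a322_nt.JAC.E2
import Pool.Agent.Lib.MP_17a322_nt.JAC.E3
import Pool.Agent.Lib.MP_17a322_nt.JAC.E4

namespace Pool.Agent.Lib.MP_17a322_nt.JAC

section

variable {L E V : Type*} [Field L] [Field E] [Algebra E L] [AddCommGroup V] [Module E V]

/-- The additive group generated by `a • D b`, `a` integral, `b` integral in the subfield. -/
private def E5_M (O : ValuationSubring L) (E0 : Subfield L) (D : Derivation ℤ E V) : AddSubgroup V :=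
  AddSubgroup.closure {v : V | ∃ a b : E, algebraMap E L a ∈ O ∧ algebraMap E L b ∈ O ∧
      algebraMap E L b ∈ E0 ∧ v = a • D b}

variable {O : ValuationSubring L} {E0 : Subfield L} {D : Derivation ℤ E V}

private theorem E5_smul {a : E} (ha : algebraMap E L a ∈ O) {v : V} (hv : v ∈ E5_M O E0 D) :
    a • v ∈ E5_M O E0 D := by
  unfold E5_M at hv ⊢
  induction hv using AddSubgroup.closure_induction with
  | mem v hv =>
    obtain ⟨c, b, hc, hb, hb0, rfl⟩ := hv
    refine AddSubgroup.subset_closure ⟨a * c, b, ?_, hb, hb0, smul_smul _ _ _⟩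
    rw [map_mul]
    exact O.mul_mem _ _ ha hc
  | zero => rw [smul_zero]; exact zero_mem _
  | add v w _ _ hv hw => rw [smul_add]; exact add_mem hv hw
  | neg v _ hv => rw [smul_neg]; exact neg_mem hv

private theorem E5_D {b : E} (hb : algebraMap E L b ∈ O) (hb0 : algebraMap E L b ∈ E0) :
    D b ∈ E5_M O E0 D :=
  AddSubgroup.subset_closure ⟨1, b, by rw [map_one]; exact O.one_mem, hb, hb0, (one_smul _ _).symm⟩

/-- The derivation at the value of a polynomial. -/
private theorem E5_poly {Q : Polynomial E}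
    (hQ : ∀ i, algebraMap E L (Q.coeff i) ∈ O ∧ algebraMap E L (Q.coeff i) ∈ E0) {g : E}
    (hg : algebraMap E L g ∈ O) :
    D (Q.eval g) - (Polynomial.derivative Q).eval g • D g ∈ E5_M O E0 D := by
  have h1 : D (Q.eval g) - (Polynomial.derivative Q).eval g • D g =
      ∑ i ∈ Q.support, g ^ i • D (Q.coeff i) := by
    rw [Polynomial.eval_eq_sum, Polynomial.derivative_eval, Polynomial.sum, Polynomial.sum, map_sum,
      Finset.sum_smul, ← Finset.sum_sub_distrib]
    refine Finset.sum_congr rfl fun i _ => ?_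
    rw [D.leibniz, D.leibniz_pow, add_sub_right_comm]
    have h2 : Q.coeff i • i • g ^ (i - 1) • D g = (Q.coeff i * i * g ^ (i - 1)) • D g := by
      rw [← Nat.cast_smul_eq_nsmul E, smul_smul, smul_smul]
    rw [h2, sub_self, zero_add]
  rw [h1]
  refine sum_mem fun i _ => ?_
  refine E5_smul ?_ (E5_D (hQ i).1 (hQ i).2)
  rw [map_pow]
  exact pow_mem hg i

/-- The coefficients of a product of polynomials with coefficients in a subring. -/
private theorem E5_mul {A : Type*} [CommRing A] (S : Subring A) {P Q : Polynomial A}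
    (hP : ∀ i, P.coeff i ∈ S) (hQ : ∀ i, Q.coeff i ∈ S) (i : ℕ) : (P * Q).coeff i ∈ S := by
  rw [Polynomial.coeff_mul]
  exact sum_mem fun x _ => mul_mem (hP _) (hQ _)

private theorem E5_pow {A : Type*} [CommRing A] (S : Subring A) {P : Polynomial A}
    (hP : ∀ i, P.coeff i ∈ S) (M : ℕ) : ∀ i : ℕ, (P ^ M).coeff i ∈ S := by
  induction M with
  | zero =>
    intro i
    rw [pow_zero, Polynomial.coeff_one]
    split_ifs
    · exact one_mem _
    · exact zero_mem _
  | succ n ih =>
    intro i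
    rw [pow_succ]
    exact E5_mul S ih hP i

private theorem E5_one_mul {y z : L} (hy : O.valuation (y - 1) < 1) (hz : O.valuation (z - 1) < 1) :
    O.valuation (y * z - 1) < 1 := by
  have h1 : O.valuation z = 1 := by
    have h2 := Valuation.map_one_add_of_lt O.valuation hz
    rwa [add_sub_cancel] at h2
  have h2 : y * z - 1 = (y - 1) * z + (z - 1) := by ring
  rw [h2]
  refine Valuation.map_add_lt _ ?_ hz
  rw [map_mul, h1, mul_one]
  exact hy

private theorem E5_one_inv {y : L} (hy : O.valuation (y - 1) < 1) :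
    O.valuation (y⁻¹ - 1) < 1 := by
  have h1 : O.valuation y = 1 := by
    have h2 := Valuation.map_one_add_of_lt O.valuation hy
    rwa [add_sub_cancel] at h2
  have h0 : y ≠ 0 := by
    rintro rfl
    rw [map_zero] at h1
    exact zero_ne_one h1
  have h2 : y⁻¹ - 1 = -((y - 1) * y⁻¹) := by
    field_simp
    ring
  rw [h2, Valuation.map_neg, map_mul, map_inv₀, h1, inv_one, mul_one]
  exact hy

private theorem E5_one_pow {y : L} (hy : O.valuation (y - 1) < 1) (M : ℕ) :
    O.valuation (y ^ M - 1) < 1 := by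
  induction M with
  | zero =>
    rw [pow_zero, sub_self, map_zero]
    exact zero_lt_one
  | succ n ih =>
    rw [pow_succ]
    exact E5_one_mul ih hy

end

/-- Version of the main lemma in an algebraically closed field `L` for a derivation `D` on a subfield
`E` (given by a field `E` with an embedding): the differential of an integral element of `E` is a sum of
integral multiples of differentials of integral elements of `E0`. -/
theorem E5 {L E V : Type*} [Field L] [IsAlgClosed L] [CharZero L] [Field E] [Algebra E L] [AddCommGroup V] [Module E V]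
    (O : ValuationSubring L) (hO : ∀ n : ℕ, n ≠ 0 → (n : L)⁻¹ ∈ O) (E0 : Subfield L)
    (hE : ∀ b ∈ E0, ∃ c : E, algebraMap E L c = b) (halg : ∀ f : E, IsAlgebraic E0 (algebraMap E L f))
    (hv : ∀ f : E, f ≠ 0 → ∃ b ∈ E0, b ≠ 0 ∧ O.valuation (algebraMap E L f / b) = 1)
    (D : Derivation ℤ E V) (g : E) (hg : algebraMap E L g ∈ O) :
    D g ∈ AddSubgroup.closure {v : V | ∃ a b : E, algebraMap E L a ∈ O ∧ algebraMap E L b ∈ O ∧
      algebraMap E L b ∈ E0 ∧ v = a • D b} := by
  classical
  change D g ∈ E5_M O E0 D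
  have hinj : Function.Injective (algebraMap E L) := (algebraMap E L).injective
  choose j0 hj0 using fun b : E0 => hE b b.2
  let j : E0 →+* E :=
    { toFun := j0
      map_one' := hinj (by rw [hj0, map_one]; rfl)
      map_mul' := fun x y => hinj (by rw [hj0, map_mul, hj0, hj0]; rfl)
      map_zero' := hinj (by rw [hj0, map_zero]; rfl)
      map_add' := fun x y => hinj (by rw [hj0, map_add, hj0, hj0]; rfl) }
  have hj : ∀ b : E0, algebraMap E L (j b) = b := hj0
  have hj' : (algebraMap E L).comp j = algebraMap E0 L := RingHom.ext hj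
  have heval : ∀ (Q : Polynomial E0) (y : E),
      algebraMap E L ((Q.map j).eval y) = Polynomial.aeval (algebraMap E L y) Q := by
    intro Q y
    rw [Polynomial.eval_map, Polynomial.hom_eval₂, hj', Polynomial.aeval_def]
  -- induction on the number of conjugates congruent to `g`
  obtain ⟨n, hn⟩ : ∃ n, (cls O E0 (algebraMap E L g)).ncard = n := ⟨_, rfl⟩
  induction n using Nat.strong_induction_on generalizing g with
  | _ n ih =>
  set x : L := algebraMap E L g with hx
  have hxint : IsIntegral E0 x := (halg g).isIntegral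
  let μ : Polynomial E0 := minpoly E0 x
  have hμ : μ.Monic := minpoly.monic hxint
  have hμirr : Irreducible μ := minpoly.irreducible hxint
  have hμx : Polynomial.aeval x μ = 0 := minpoly.aeval _ _
  let μL : Polynomial L := μ.map (algebraMap E0 L)
  have hμL : μL.Monic := hμ.map _
  have hsep : μL.Separable := hμirr.separable.map
  let R : Finset L := μL.roots.toFinset
  have hR : ∀ ρ, ρ ∈ R ↔ Polynomial.aeval ρ μ = 0 := by
    intro ρ
    rw [Multiset.mem_toFinset, Polynomial.mem_roots hμL.ne_zero, Polynomial.IsRoot.def,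
      Polynomial.eval_map_algebraMap]
  have hprod : μL = ∏ ρ ∈ R, (Polynomial.X - Polynomial.C ρ) := by
    have h1 := (IsAlgClosed.splits μL).eq_prod_roots
    rw [hμL.leadingCoeff, Polynomial.C_1, one_mul] at h1
    have h2 : R.val = μL.roots := by
      rw [Multiset.toFinset_val, (Polynomial.nodup_roots hsep).dedup]
    rw [Finset.prod, h2]
    exact h1
  -- scaling
  obtain ⟨i₀, hi₀, hmax⟩ := Finset.exists_max_image μ.support
    (fun i => O.valuation (μ.coeff i : L)) (by
      rw [Polynomial.support_nonempty]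
      exact hμ.ne_zero)
  have ha₀ : μ.coeff i₀ ≠ 0 := Polynomial.mem_support_iff.1 hi₀
  have ha₀' : (μ.coeff i₀ : L) ≠ 0 := fun h => ha₀ (Subtype.ext h)
  have hmax' : ∀ i, O.valuation (μ.coeff i : L) ≤ O.valuation (μ.coeff i₀ : L) := by
    intro i
    by_cases hi : i ∈ μ.support
    · exact hmax i hi
    · rw [Polynomial.notMem_support_iff.1 hi]
      have h0 : ((0 : E0) : L) = 0 := rfl
      rw [h0, map_zero]
      exact zero_le
  let F₀ : Polynomial E0 := Polynomial.C (μ.coeff i₀)⁻¹ * μ
  have hF₀c : ∀ i, ((F₀.coeff i : E0) : L) = (μ.coeff i₀ : L)⁻¹ * (μ.coeff i : L) := by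
    intro i
    rw [Polynomial.coeff_C_mul]
    rfl
  let F : Polynomial L := F₀.map (algebraMap E0 L)
  have hFc : ∀ i, F.coeff i = (μ.coeff i₀ : L)⁻¹ * (μ.coeff i : L) := by
    intro i
    rw [Polynomial.coeff_map]
    exact hF₀c i
  have hFO : ∀ i, F.coeff i ∈ O := by
    intro i
    rw [← O.valuation_le_one_iff, hFc, map_mul, map_inv₀]
    have h1 : O.valuation (μ.coeff i₀ : L) ≠ 0 := (Valuation.ne_zero_iff _).2 ha₀'
    calc (O.valuation (μ.coeff i₀ : L))⁻¹ * O.valuation (μ.coeff i : L)
        ≤ (O.valuation (μ.coeff i₀ : L))⁻¹ * O.valuation (μ.coeff i₀ : L) :=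
          mul_le_mul_right (hmax' i) _
      _ = 1 := inv_mul_cancel₀ h1
  have hF1 : ∃ i, O.valuation (F.coeff i) = 1 := by
    refine ⟨i₀, ?_⟩
    rw [hFc, inv_mul_cancel₀ ha₀', map_one]
  have hFprod : F = Polynomial.C ((μ.coeff i₀ : L)⁻¹) * ∏ ρ ∈ R, (Polynomial.X - Polynomial.C ρ) := by
    rw [← hprod]
    simp only [F, F₀, Polynomial.map_mul, Polynomial.map_C]
    rfl
  let S : Finset L := R.filter fun ρ => O.valuation (ρ - x) < 1
  have hS : ∀ ρ, ρ ∈ S ↔ ρ ∈ R ∧ O.valuation (ρ - x) < 1 := fun ρ => Finset.mem_filter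
  have hcls : cls O E0 x = (S : Set L) := by
    ext ρ
    rw [Finset.mem_coe, hS, hR]
    rfl
  have hSn : S.card = n := by
    rw [← hn, hcls, Set.ncard_coe_finset]
  have hxS : x ∈ S := by
    rw [hS, hR]
    refine ⟨hμx, ?_⟩
    rw [sub_self, map_zero]
    exact zero_lt_one
  obtain ⟨P, hPO, hPx, hFP⟩ := E1 O F R _ hFprod hFO hF1 x hg S hS
  obtain ⟨hH1, hH2, hH3⟩ := E2 O hO F P S x hg hxS hPO hPx hFP fun ρ hρ => ((hS ρ).1 hρ).2
  let H₀ : Polynomial E0 := Polynomial.derivative^[S.card - 1] F₀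
  have hH₀ : Polynomial.derivative^[S.card - 1] F = H₀.map (algebraMap E0 L) :=
    Polynomial.iterate_derivative_map _ _ _
  have hHev : ∀ ρ, (Polynomial.derivative^[S.card - 1] F).eval ρ = Polynomial.aeval ρ H₀ := by
    intro ρ
    rw [hH₀, Polynomial.eval_map_algebraMap]
  have hH'ev : (Polynomial.derivative (Polynomial.derivative^[S.card - 1] F)).eval x =
      Polynomial.aeval x (Polynomial.derivative H₀) := by
    rw [hH₀, Polynomial.derivative_map, Polynomial.eval_map_algebraMap]
  -- the subring of the integral elements of `E0`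
  let A₀ : Subring E0 := O.toSubring.comap (algebraMap E0 L)
  have hA₀ : ∀ b : E0, b ∈ A₀ ↔ (b : L) ∈ O := fun b => Iff.rfl
  have hF₀A : ∀ i, F₀.coeff i ∈ A₀ := by
    intro i
    have h1 := hFO i
    rwa [Polynomial.coeff_map] at h1
  have hH₀A : ∀ i, H₀.coeff i ∈ A₀ := by
    intro i
    rw [Polynomial.coeff_iterate_derivative]
    exact nsmul_mem (hF₀A _) _
  have hcoef : ∀ Q : Polynomial E0, (∀ i, Q.coeff i ∈ A₀) → ∀ i,
      algebraMap E L ((Q.map j).coeff i) ∈ O ∧ algebraMap E L ((Q.map j).coeff i) ∈ E0 := by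
    intro Q hQ i
    rw [Polynomial.coeff_map, hj]
    exact ⟨hQ i, (Q.coeff i).2⟩
  -- the end of the proof for a polynomial `Ψ`
  have hend : ∀ Ψ : Polynomial E0, (∀ i, Ψ.coeff i ∈ A₀) →
      O.valuation (Polynomial.aeval x (Polynomial.derivative Ψ)) = 1 →
      D ((Ψ.map j).eval g) ∈ E5_M O E0 D → D g ∈ E5_M O E0 D := by
    intro Ψ hΨ h1 h2
    have h3 := E5_poly (D := D) (hcoef Ψ hΨ) hg
    have h4 : (Polynomial.derivative (Ψ.map j)).eval g • D g ∈ E5_M O E0 D := by
      have h5 := sub_mem h2 h3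
      rwa [sub_sub_cancel] at h5
    rw [Polynomial.derivative_map] at h4
    have h5 : algebraMap E L (((Polynomial.derivative Ψ).map j).eval g) =
        Polynomial.aeval x (Polynomial.derivative Ψ) := heval _ _
    have h6 : ((Polynomial.derivative Ψ).map j).eval g ≠ 0 := by
      intro h7
      rw [h7, map_zero] at h5
      rw [← h5, map_zero] at h1
      exact zero_ne_one h1
    have h7 : algebraMap E L (((Polynomial.derivative Ψ).map j).eval g)⁻¹ ∈ O := by
      rw [← O.valuation_le_one_iff, map_inv₀, h5, map_inv₀, h1, inv_one]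
    have h8 := E5_smul h7 h4
    rwa [smul_smul, inv_mul_cancel₀ h6, one_smul] at h8
  have hn1 : 1 ≤ n := by
    rw [← hSn]
    exact Finset.card_pos.2 ⟨x, hxS⟩
  rcases Nat.eq_or_lt_of_le hn1 with hn1 | hn2
  · -- one conjugate
    have hS1 : S.card - 1 = 0 := by omega
    have hH₀F : H₀ = F₀ := by
      change Polynomial.derivative^[S.card - 1] F₀ = F₀
      rw [hS1]
      rfl
    refine hend F₀ hF₀A ?_ ?_
    · rw [← hH₀F, ← hH'ev]
      exact hH2
    · have h1 : (F₀.map j).eval g = 0 := by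
        refine hinj ?_
        rw [heval, map_zero]
        change Polynomial.aeval x (Polynomial.C (μ.coeff i₀)⁻¹ * μ) = 0
        rw [map_mul, hμx, mul_zero]
      rw [h1, map_zero]
      exact zero_mem _
  -- at least two conjugates
  have hHx : Polynomial.aeval x (Polynomial.derivative H₀) ≠ 0 := by
    intro h0
    rw [hH'ev, h0, map_zero] at hH2
    exact zero_ne_one hH2
  have hH₀0 : H₀ ≠ 0 := by
    intro h0
    rw [h0, Polynomial.derivative_zero, map_zero] at hHx
    exact hHx rfl
  have hdeg : H₀.natDegree < μ.natDegree := by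
    have h1 : H₀.natDegree ≤ F₀.natDegree - (S.card - 1) :=
      Polynomial.natDegree_iterate_derivative _ _
    have h2 : F₀.natDegree ≤ μ.natDegree := Polynomial.natDegree_C_mul_le _ _
    have h3 : 0 < μ.natDegree := minpoly.natDegree_pos hxint
    omega
  have hHne : ∀ ρ ∈ R, Polynomial.aeval ρ H₀ ≠ 0 := by
    intro ρ hρ h0
    have h1 : μ = minpoly E0 ρ :=
      minpoly.eq_of_irreducible_of_monic hμirr ((hR ρ).1 hρ) hμ
    have h2 : μ ∣ H₀ := by
      rw [h1]
      exact minpoly.dvd _ _ h0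
    have h3 := Polynomial.natDegree_le_of_dvd h2 hH₀0
    omega
  have hSR : ∀ ρ ∈ S, ρ ∈ R := fun ρ hρ => ((hS ρ).1 hρ).1
  have hH3' := hH3 (by omega) fun ρ hρ => by
    rw [hHev]
    exact hHne ρ (hSR ρ hρ)
  obtain ⟨ρ₁, hρ₁, hρ₁'⟩ := hH3'
  let T : Finset L := S.filter fun ρ =>
    O.valuation (Polynomial.aeval ρ H₀ / Polynomial.aeval x H₀ - 1) < 1
  have hTS : T.card < S.card := by
    refine Finset.card_lt_card (Finset.filter_ssubset.2 ⟨ρ₁, hρ₁, ?_⟩)
    rw [← hHev, ← hHev]
    exact hρ₁'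
  have hxR : x ∈ R := hSR x hxS
  obtain ⟨M, c, hM, hc, hMc⟩ := E3 O hO (R.filter fun ρ => ¬ O.valuation (ρ - x) < 1) x hg
    (fun ρ hρ => (Finset.mem_filter.1 hρ).2) (fun ρ => Polynomial.aeval ρ H₀)
    (fun ρ hρ => hHne ρ (Finset.mem_filter.1 hρ).1) (hHne x hxR)
  let Ψ : Polynomial E0 := (Polynomial.X - Polynomial.C (c : E0)) ^ M * H₀
  have hΨ : ∀ ρ : L, Polynomial.aeval ρ Ψ = (ρ - c) ^ M * Polynomial.aeval ρ H₀ := by
    intro ρ
    simp only [Ψ, map_mul, map_pow, map_sub, Polynomial.aeval_X, map_natCast]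
  have hΨA : ∀ i, Ψ.coeff i ∈ A₀ := by
    refine E5_mul A₀ (E5_pow A₀ (fun i => ?_) M) hH₀A
    rw [Polynomial.coeff_sub, Polynomial.coeff_X, Polynomial.coeff_C]
    refine sub_mem ?_ ?_
    · split_ifs
      · exact one_mem _
      · exact zero_mem _
    · split_ifs
      · exact natCast_mem _ _
      · exact zero_mem _
  have hcx : x - c ≠ 0 := by
    intro h0
    rw [h0, map_zero] at hc
    exact zero_ne_one hc
  have hΨx0 : Polynomial.aeval x Ψ ≠ 0 := by
    rw [hΨ]
    exact mul_ne_zero (pow_ne_zero _ hcx) (hHne x hxR)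
  have hHx1 : O.valuation (Polynomial.aeval x H₀) < 1 := by
    rw [← hHev]
    exact hH1
  let f : E := (Ψ.map j).eval g
  have hf : algebraMap E L f = Polynomial.aeval x Ψ := heval _ _
  have hf0 : f ≠ 0 := by
    intro h0
    rw [h0, map_zero] at hf
    exact hΨx0 hf.symm
  obtain ⟨b, hb, hb0, hbv⟩ := hv f hf0
  have hbv' : O.valuation b = O.valuation (algebraMap E L f) := by
    have h1 : O.valuation b ≠ 0 := (Valuation.ne_zero_iff _).2 hb0
    rw [map_div₀] at hbv
    exact (eq_of_div_eq_one hbv).symm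
  have hbO : b ∈ O := by
    rw [← O.valuation_le_one_iff, hbv', hf, hΨ, map_mul, map_pow, hc, one_pow, one_mul]
    exact hHx1.le
  let u : E := f / j ⟨b, hb⟩
  have hu : algebraMap E L u = Polynomial.aeval x Ψ / b := by
    simp only [u]
    rw [map_div₀, hj, hf]
  have huv : O.valuation (Polynomial.aeval x Ψ / b) = 1 := by
    rw [← hf]
    exact hbv
  have hcard := E4 O E0 x (halg g) Ψ b hb hb0 huv T (by
    intro ρ hρ hρv
    have hρR : ρ ∈ R := (hR ρ).2 hρ
    rw [hΨ, hΨ] at hρv
    have hρS : O.valuation (ρ - x) < 1 := by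
      by_contra hcon
      exact hMc ρ (Finset.mem_filter.2 ⟨hρR, hcon⟩) hρv
    rw [Finset.mem_filter, hS]
    refine ⟨⟨hρR, hρS⟩, ?_⟩
    have h1 : O.valuation ((ρ - c) / (x - c) - 1) < 1 := by
      have h2 : (ρ - c) / (x - c) - 1 = (ρ - x) / (x - c) := by
        field_simp
        ring
      rw [h2, map_div₀, hc, div_one]
      exact hρS
    have h2 := E5_one_mul (E5_one_inv (E5_one_pow h1 M)) hρv
    have h3 : (ρ - (c : L)) ≠ 0 := by
      intro h0
      rw [h0, zero_div, zero_sub, Valuation.map_neg, map_one] at h1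
      exact lt_irrefl _ h1
    have h4 : (((ρ - (c : L)) / (x - c)) ^ M)⁻¹ * ((ρ - c) ^ M * Polynomial.aeval ρ H₀ /
        ((x - c) ^ M * Polynomial.aeval x H₀)) =
        Polynomial.aeval ρ H₀ / Polynomial.aeval x H₀ := by
      have h5 := hHne x hxR
      rw [div_pow]
      field_simp
    rwa [h4] at h2)
  have huD : D u ∈ E5_M O E0 D := by
    refine ih _ ?_ u ?_ rfl
    · rw [hu]
      omega
    · rw [hu, ← O.valuation_le_one_iff, huv]
  have hfD : D f ∈ E5_M O E0 D := by
    have hjb : j ⟨b, hb⟩ ≠ 0 := by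
      intro h0
      have h1 := hj ⟨b, hb⟩
      rw [h0, map_zero] at h1
      exact hb0 h1.symm
    have h1 : f = u * j ⟨b, hb⟩ := (div_mul_cancel₀ f hjb).symm
    rw [h1, D.leibniz]
    refine add_mem (E5_smul ?_ (E5_D ?_ ?_)) (E5_smul ?_ huD)
    · rw [hu, ← O.valuation_le_one_iff, huv]
    · rw [hj]
      exact hbO
    · rw [hj]
      exact hb
    · rw [hj]
      exact hbO
  refine hend Ψ hΨA ?_ hfD
  have h1 : Polynomial.aeval x (Polynomial.derivative Ψ) =
      (x - c) ^ M * Polynomial.aeval x (Polynomial.derivative H₀) +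
        M * (x - c) ^ (M - 1) * Polynomial.aeval x H₀ := by
    simp only [Ψ, Polynomial.derivative_mul, Polynomial.derivative_pow, Polynomial.derivative_X,
      Polynomial.derivative_natCast, map_add, map_mul, map_pow, map_sub, Polynomial.aeval_X,
      map_natCast, sub_zero, mul_one]
    ring
  have h2 : O.valuation ((x - c) ^ M * Polynomial.aeval x (Polynomial.derivative H₀)) = 1 := by
    rw [map_mul, map_pow, hc, one_pow, one_mul, ← hH'ev]
    exact hH2
  rw [h1, Valuation.map_add_eq_of_lt_left, h2]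
  rw [h2, map_mul, map_mul, map_pow, hc, one_pow, mul_one]
  have h3 : O.valuation (M : L) ≤ 1 := (O.valuation_le_one_iff _).2 (natCast_mem O M)
  calc O.valuation (M : L) * O.valuation (Polynomial.aeval x H₀)
      ≤ 1 * O.valuation (Polynomial.aeval x H₀) := mul_le_mul_left h3 _
    _ = O.valuation (Polynomial.aeval x H₀) := one_mul _
    _ < 1 := hHx1

end Pool.Agent.Lib.MP_17a322_nt.JAC
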