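import Pool.Agent.Lib.MP_17a322_nt.JAC.T1a

namespace Pool.Agent.Lib.MP_17a322_nt.JAC

theorem X1_vl_extend {F σ τ : Type*} [Field F] [Fintype σ] [Fintype τ] {t : σ → F} {t' : τ → F}
    {j : σ → τ} (hj : Function.Injective j) (hjt : ∀ s, t' (j s) = t s) (b : F) (m : σ → ℤ) :
    vl t' (b, Function.extend j m 0) = vl t (b, m) := by
  classical
  unfold vl
  have h : ∏ r, t' r ^ Function.extend j m 0 r = ∏ s, t s ^ m s := by
    have h1 : ∏ r ∈ Finset.univ.map ⟨j, hj⟩, t' r ^ Function.extend j m 0 r =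
        ∏ r, t' r ^ Function.extend j m 0 r := by
      refine Finset.prod_subset (Finset.subset_univ _) ?_
      intro r _ hr
      have h2 : ¬ ∃ s, j s = r := by
        rintro ⟨s, hs⟩
        exact hr (Finset.mem_map.2 ⟨s, Finset.mem_univ s, hs⟩)
      rw [Function.extend_apply' _ _ _ h2, Pi.zero_apply, zpow_zero]
    rw [← h1, Finset.prod_map]
    refine Finset.prod_congr rfl fun s _ => ?_
    rw [Function.Embedding.coeFn_mk, hj.extend_apply, hjt]
  rw [h]

theorem X1_vl_single {F τ : Type*} [Field F] [Fintype τ] [DecidableEq τ] (t' : τ → F) (b : F)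
    (r : τ) (q : ℕ) : vl t' (b, Pi.single r (q : ℤ)) = b * t' r ^ q := by
  unfold vl
  have h : ∏ s, t' s ^ (Pi.single r (q : ℤ) : τ → ℤ) s = t' r ^ q := by
    rw [Finset.prod_eq_single r]
    · rw [Pi.single_eq_same, zpow_natCast]
    · intro s _ hs
      rw [Pi.single_eq_of_ne hs, zpow_zero]
    · intro h
      exact absurd (Finset.mem_univ r) h
  rw [h]

/-- Adding further elements to the list `t` does no harm. -/
theorem extend {F α σ τ : Type*} [Field F] [CharZero F] [Fintype α] [DecidableEq α] [Fintype σ] [DecidableEq σ]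
    [Fintype τ] [DecidableEq τ] (δ : α → F → F) (A : ValuationSubring F) (hA : ∀ n : ℕ, n ≠ 0 → (n : F)⁻¹ ∈ A)
    (F0 : Subfield F) (halg : ∀ f : F, IsAlgebraic F0 f) (t : σ → F) (t' : τ → F) (ht' : ∀ r, t' r ≠ 0)
    (j : σ → τ) (hj : Function.Injective j) (hjt : ∀ s, t' (j s) = t s)
    (g : α ⊕ σ → F × (σ → ℤ)) (hg : ∀ i, (g i).1 ∈ F0 ∧ (g i).1 ≠ 0 ∧ vl t (g i) ∈ A) :
    ∃ g' : α ⊕ τ → F × (τ → ℤ), (∀ i, (g' i).1 ∈ F0 ∧ (g' i).1 ≠ 0 ∧ vl t' (g' i) ∈ A) ∧
      ∃ a ∈ A, GM δ t g = a * GM δ t' g' := by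
  classical
  choose b q hb hb0 hq hbq hbq' using fun r : {r : τ // ¬ r ∈ Set.range j} =>
    torsion A F0 (t' r) (halg _) (ht' r)
  let eqv : σ ⊕ {r : τ // ¬ r ∈ Set.range j} ≃ τ :=
    (Equiv.sumCongr (Equiv.ofInjective j hj) (Equiv.refl _)).trans
      (Equiv.sumCompl fun r => r ∈ Set.range j)
  have eqv_inl : ∀ s, eqv (Sum.inl s) = j s := fun s => rfl
  have eqv_inr : ∀ r, eqv (Sum.inr r) = r.1 := fun r => rfl
  let E : (α ⊕ σ) ⊕ {r : τ // ¬ r ∈ Set.range j} ≃ α ⊕ τ :=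
    (Equiv.sumAssoc α σ _).trans (Equiv.sumCongr (Equiv.refl α) eqv)
  let g2 : (α ⊕ σ) ⊕ {r : τ // ¬ r ∈ Set.range j} → F × (τ → ℤ) :=
    Sum.elim (fun i => ((g i).1, Function.extend j (g i).2 0))
      fun r => (b r, Pi.single r.1 (q r : ℤ))
  have hv1 : ∀ i, vl t' (g2 (Sum.inl i)) = vl t (g i) := fun i =>
    X1_vl_extend hj hjt (g i).1 (g i).2
  have hv2 : ∀ r, vl t' (g2 (Sum.inr r)) = b r * t' r ^ q r := fun r =>
    X1_vl_single t' (b r) r.1 (q r)
  have hu : ∀ r, b r * t' r ^ q r ≠ 0 := fun r => mul_ne_zero (hb0 r) (pow_ne_zero _ (ht' r))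
  have hq0 : ∀ r, ((q r : ℕ) : F) ≠ 0 := fun r => by exact_mod_cast (hq r).ne'
  -- the determinant
  have hdet : (Matrix.of fun i k => Sum.elim (fun l => δ l (g2 (E.symm i)).1 / (g2 (E.symm i)).1)
      (fun s => ((g2 (E.symm i)).2 s : F)) k : Matrix (α ⊕ τ) (α ⊕ τ) F).det =
      (Matrix.of fun i k => Sum.elim (fun l => δ l (g i).1 / (g i).1)
        (fun s => ((g i).2 s : F)) k : Matrix (α ⊕ σ) (α ⊕ σ) F).det * ∏ r, ((q r : ℕ) : F) := by
    rw [← Matrix.det_submatrix_equiv_self E]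
    have h1 : (Matrix.of fun i k => Sum.elim (fun l => δ l (g2 (E.symm i)).1 / (g2 (E.symm i)).1)
        (fun s => ((g2 (E.symm i)).2 s : F)) k : Matrix (α ⊕ τ) (α ⊕ τ) F).submatrix E E =
        Matrix.fromBlocks (Matrix.of fun i k => Sum.elim (fun l => δ l (g i).1 / (g i).1)
          (fun s => ((g i).2 s : F)) k) 0
          (Matrix.of fun r k => Sum.elim (fun l => δ l (b r) / (b r)) (fun _ => (0 : F)) k)
          (Matrix.diagonal fun r => ((q r : ℕ) : F)) := by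
      ext x y
      rw [Matrix.submatrix_apply, Matrix.of_apply, Equiv.symm_apply_apply]
      rcases x with i | r
      · rcases y with (l | s) | r'
        · rfl
        · have h2 : E (Sum.inl (Sum.inr s)) = Sum.inr (j s) := rfl
          rw [h2, Sum.elim_inr, Matrix.fromBlocks_apply₁₁, Matrix.of_apply, Sum.elim_inr]
          have h3 : (g2 (Sum.inl i)).2 = Function.extend j (g i).2 0 := rfl
          rw [h3, hj.extend_apply]
        · have h2 : E (Sum.inr r') = Sum.inr r'.1 := rfl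
          rw [h2, Sum.elim_inr, Matrix.fromBlocks_apply₁₂, Matrix.zero_apply]
          have h3 : (g2 (Sum.inl i)).2 = Function.extend j (g i).2 0 := rfl
          rw [h3, Function.extend_apply' _ _ _ fun h => r'.2 h, Pi.zero_apply, Int.cast_zero]
      · have h3 : (g2 (Sum.inr r)).2 = Pi.single r.1 (q r : ℤ) := rfl
        rcases y with (l | s) | r'
        · rfl
        · have h2 : E (Sum.inl (Sum.inr s)) = Sum.inr (j s) := rfl
          rw [h2, Sum.elim_inr, Matrix.fromBlocks_apply₂₁, Matrix.of_apply, Sum.elim_inr, h3,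
            Pi.single_eq_of_ne fun h => r.2 ⟨s, h⟩, Int.cast_zero]
        · have h2 : E (Sum.inr r') = Sum.inr r'.1 := rfl
          rw [h2, Sum.elim_inr, Matrix.fromBlocks_apply₂₂, Matrix.diagonal_apply, h3]
          by_cases hr : r = r'
          · rw [if_pos hr, ← hr, Pi.single_eq_same, Int.cast_natCast]
          · rw [if_neg hr, Pi.single_eq_of_ne fun h => hr (Subtype.ext h.symm), Int.cast_zero]
    rw [h1, Matrix.det_fromBlocks_zero₁₂, Matrix.det_diagonal]
  refine ⟨fun i => g2 (E.symm i), ?_, (∏ r, (b r * t' r ^ q r)⁻¹) * ∏ r, ((q r : ℕ) : F)⁻¹, ?_, ?_⟩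
  · intro i
    obtain ⟨x, rfl⟩ := E.surjective i
    beta_reduce
    rw [Equiv.symm_apply_apply]
    rcases x with i | r
    · refine ⟨(hg i).1, (hg i).2.1, ?_⟩
      rw [hv1]
      exact (hg i).2.2
    · refine ⟨hb r, hb0 r, ?_⟩
      rw [hv2]
      exact hbq r
  · exact A.mul_mem _ _ (prod_mem fun r _ => hbq' r) (prod_mem fun r _ => hA _ (hq r).ne')
  · have h0 : ∏ i, vl t' (g2 (E.symm i)) = (∏ i, vl t (g i)) * ∏ r, (b r * t' r ^ q r) := by
      rw [Equiv.prod_comp E.symm fun x => vl t' (g2 x), Fintype.prod_sum_type]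
      simp only [hv1, hv2]
    unfold GM
    rw [hdet, h0, Finset.prod_inv_distrib, Finset.prod_inv_distrib]
    have h1 : (∏ r, (b r * t' r ^ q r)) ≠ 0 := Finset.prod_ne_zero_iff.2 fun r _ => hu r
    have h2 : (∏ r, ((q r : ℕ) : F)) ≠ 0 := Finset.prod_ne_zero_iff.2 fun r _ => hq0 r
    field_simp

end Pool.Agent.Lib.MP_17a322_nt.JAC
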