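import Pool.Agent.Lib.MP_17a322_nt.JAC.S3
import Pool.Agent.Lib.MP_17a322_nt.JAC.T1b
import Pool.Agent.Lib.MP_17a322_nt.JAC.X1
import Pool.Agent.Lib.MP_17a322_nt.JAC.C1

namespace Pool.Agent.Lib.MP_17a322_nt.JAC

open MvPolynomial

/-- `Ok` is monotone in `S`. -/
theorem F1_mono {k F ι α σ : Type*} [Field k] [Field F] [Algebra k F] [Fintype α] [DecidableEq α]
    [Fintype σ] [DecidableEq σ] (δ : α → Derivation k F F) (z : ι → F) (t : σ → F)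
    {S S' : Set (F × (σ → ℤ))} (hS : S ⊆ S') {A : ValuationSubring F} (h : Ok δ z t S A) :
    Ok δ z t S' A := by
  obtain ⟨b, hb, hba, hY⟩ := h
  refine ⟨b, hb, hba, fun Y => ?_⟩
  obtain ⟨g, hg, h2⟩ := hY Y
  exact ⟨g, fun i => ⟨hS (hg i).1, (hg i).2⟩, h2⟩

/-- `Ok` is a condition about finitely many elements. -/
theorem F1_fin {k F ι α σ : Type*} [Field k] [Field F] [Algebra k F] [Finite ι] [Fintype α]
    [DecidableEq α] [Fintype σ] [DecidableEq σ] (δ : α → Derivation k F F) (z : ι → F) (t : σ → F)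
    (S0 : Set (F × (σ → ℤ))) (A : ValuationSubring F) (h : Ok δ z t S0 A) :
    ∃ S : Finset (F × (σ → ℤ)), (S : Set (F × (σ → ℤ))) ⊆ S0 ∧ ∃ W : Set F, W.Finite ∧ W ⊆ A ∧
      ∀ A' : ValuationSubring F, W ⊆ A' → Ok δ z t S A' := by
  obtain ⟨b, hb, hba, hY⟩ := h
  choose g hg a ha hdet using hY
  have hfin1 : (Set.range (fun x : (α → ι) × (α ⊕ σ) => g x.1 x.2)).Finite := Set.finite_range _
  refine ⟨hfin1.toFinset, ?_, Set.range (fun c => z c / z b) ∪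
    (Set.range (fun x : (α → ι) × (α ⊕ σ) => vl t (g x.1 x.2)) ∪ Set.range a), ?_, ?_, ?_⟩
  · rw [Set.Finite.coe_toFinset]
    rintro _ ⟨x, rfl⟩
    exact (hg x.1 x.2).1
  · exact (Set.finite_range _).union ((Set.finite_range _).union (Set.finite_range _))
  · rintro f (⟨c, rfl⟩ | ⟨x, rfl⟩ | ⟨Y, rfl⟩)
    · exact hba c
    · exact (hg x.1 x.2).2
    · exact ha Y
  · intro A' hA'
    refine ⟨b, hb, fun c => hA' (Or.inl ⟨c, rfl⟩), fun Y => ⟨g Y, fun i => ⟨?_, ?_⟩, a Y, ?_, hdet Y⟩⟩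
    · rw [Set.Finite.coe_toFinset]
      exact ⟨(Y, i), rfl⟩
    · exact hA' (Or.inr (Or.inl ⟨(Y, i), rfl⟩))
    · exact hA' (Or.inr (Or.inr ⟨Y, rfl⟩))

/-- Compactness for open conditions. -/
theorem F1_cover {k F : Type*} [Field k] [Field F] [Algebra k F] {I : Type*}
    (P : I → ValuationSubring F → Prop)
    (hopen : ∀ i A, P i A → ∃ W : Set F, W.Finite ∧ W ⊆ A ∧
      ∀ A' : ValuationSubring F, W ⊆ A' → P i A')
    (h : ∀ A : ValuationSubring F, (∀ c : k, algebraMap k F c ∈ A) → ∃ i, P i A) :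
    ∃ s : Finset I, ∀ A : ValuationSubring F, (∀ c : k, algebraMap k F c ∈ A) → ∃ i ∈ s, P i A := by
  classical
  obtain ⟨s, hs⟩ := compact (k := k) (F := F)
    (I := {x : I × Set F // x.2.Finite ∧ ∀ A' : ValuationSubring F, x.2 ⊆ A' → P x.1 A'})
    (fun x => x.1.2) (fun x => x.2.1) (by
      intro A hA
      obtain ⟨i, hi⟩ := h A hA
      obtain ⟨W, hW, hWA, hWP⟩ := hopen i A hi
      exact ⟨⟨(i, W), hW, hWP⟩, hWA⟩)
  refine ⟨s.image (fun x => x.1.1), fun A hA => ?_⟩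
  obtain ⟨x, hx, hxA⟩ := hs A hA
  exact ⟨x.1.1, Finset.mem_image_of_mem _ hx, x.2.2 A hxA⟩

/-- Adding elements to the list `t`. -/
theorem F1_ext {k F ι α σ τ : Type*} [Field k] [CharZero k] [Field F] [Algebra k F] [Fintype α]
    [DecidableEq α] [Fintype σ] [DecidableEq σ] [Fintype τ] [DecidableEq τ]
    (δ : α → Derivation k F F) (F0 : Subfield F) (halg : ∀ f : F, IsAlgebraic F0 f) (z : ι → F)
    (t : σ → F) (t' : τ → F) (ht' : ∀ r, t' r ≠ 0) (j : σ → τ) (hj : Function.Injective j)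
    (hjt : ∀ s, t' (j s) = t s) (A : ValuationSubring F) (hA : ∀ c : k, algebraMap k F c ∈ A)
    (h : Ok δ z t {g | g.1 ∈ F0 ∧ g.1 ≠ 0} A) : Ok δ z t' {g | g.1 ∈ F0 ∧ g.1 ≠ 0} A := by
  have : CharZero F := charZero_of_injective_algebraMap (algebraMap k F).injective
  obtain ⟨b, hb, hba, hY⟩ := h
  refine ⟨b, hb, hba, fun Y => ?_⟩
  obtain ⟨g, hg, a, ha, hdet⟩ := hY Y
  obtain ⟨g', hg', a', ha', hGM⟩ := extend (fun l => (δ l : F → F)) A (by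
    intro n _
    have h1 := hA ((n : k)⁻¹)
    rwa [map_inv₀, map_natCast] at h1) F0 halg t t' ht' j hj hjt g
    (fun i => ⟨(hg i).1.1, (hg i).1.2, (hg i).2⟩)
  refine ⟨g', fun i => ⟨⟨(hg' i).1, (hg' i).2.1⟩, (hg' i).2.2⟩, a * a', A.mul_mem _ _ ha ha', ?_⟩
  rw [hdet, hGM, mul_assoc]

/-- For one valuation ring. -/
theorem F1_one {k F ι α : Type*} [Field k] [CharZero k] [Field F] [Algebra k F] [Finite ι]
    [Fintype α] [DecidableEq α] (δ : α → Derivation k F F) (F0 : Subfield F)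
    [FiniteDimensional F0 F] (z : ι → F) (hz : ∃ b, z b ≠ 0) (A : ValuationSubring F)
    (hA : ∀ c : k, algebraMap k F c ∈ A) :
    ∃ (N : ℕ) (t : Fin N → F), (∀ s, t s ≠ 0) ∧ Ok δ z t {g | g.1 ∈ F0 ∧ g.1 ≠ 0} A := by
  obtain ⟨N, t, ht, hv⟩ := vlist A F0
  refine ⟨N, t, ht, ?_⟩
  obtain ⟨b0, hb0⟩ := hz
  have : Nonempty ι := ⟨b0⟩
  obtain ⟨b, hb⟩ := Finite.exists_max (fun a => A.valuation (z a))
  have hzb : z b ≠ 0 := by
    intro h0
    have h1 := hb b0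
    rw [h0, map_zero] at h1
    exact hb0 ((map_eq_zero _).1 (le_antisymm h1 zero_le))
  have hba : ∀ a, z a / z b ∈ A := by
    intro a
    rw [← A.valuation_le_one_iff, map_div₀]
    exact div_le_one_of_le₀ (hb a) zero_le
  refine ⟨b, hzb, hba, fun Y => ?_⟩
  obtain ⟨g, hg, a, ha, hdet⟩ := SV δ F0 (fun f => Algebra.IsAlgebraic.isAlgebraic f) A hA t ht hv
    (fun i => z (Y i) / z b) (fun i => hba (Y i))
  exact ⟨g, fun i => ⟨⟨(hg i).1, (hg i).2.1⟩, (hg i).2.2⟩, a, ha, hdet⟩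

/-- The joint list of finitely many lists. -/
theorem F1_join {F : Type*} [Field F] (s : Finset (Σ N : ℕ, {t : Fin N → F // ∀ s, t s ≠ 0})) :
    ∃ (N : ℕ) (t' : Fin N → F), (∀ r, t' r ≠ 0) ∧ ∀ i ∈ s, ∃ j : Fin i.1 → Fin N,
      Function.Injective j ∧ ∀ r, t' (j r) = i.2.1 r := by
  classical
  obtain ⟨f, hf⟩ : ∃ f : (Σ i : s, Fin i.1.1) → F, ∀ x, f x = x.1.1.2.1 x.2 :=
    ⟨fun x => x.1.1.2.1 x.2, fun _ => rfl⟩
  have e := Fintype.equivFin (Σ i : s, Fin i.1.1)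
  refine ⟨_, fun r => f (e.symm r), fun r => ?_, fun i hi => ⟨fun r => e ⟨⟨i, hi⟩, r⟩, ?_, ?_⟩⟩
  · have h1 := (e.symm r).1.1.2.2 (e.symm r).2
    rwa [← hf] at h1
  · intro r r' hr
    exact eq_of_heq (Sigma.mk.inj (e.injective hr)).2
  · intro r
    exact (congrArg f (e.symm_apply_apply _)).trans (hf _)

/-- Finitely many elements `t` and monomials `S` suffice for all valuation rings. -/
theorem FMV {k F ι α : Type*} [Field k] [CharZero k] [Field F] [Algebra k F] [Finite ι] [Fintype α] [DecidableEq α]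
    (δ : α → Derivation k F F) (F0 : Subfield F) [FiniteDimensional F0 F] (z : ι → F) (hz : ∃ b, z b ≠ 0) :
    ∃ (N : ℕ) (t : Fin N → F) (S : Finset (F × (Fin N → ℤ))), (∀ s, t s ≠ 0) ∧
      (∀ g ∈ S, g.1 ∈ F0 ∧ g.1 ≠ 0) ∧
      ∀ A : ValuationSubring F, (∀ c : k, algebraMap k F c ∈ A) → Ok δ z t S A := by
  classical
  obtain ⟨s, hs⟩ := F1_cover (k := k) (F := F)
    (I := Σ N : ℕ, {t : Fin N → F // ∀ s, t s ≠ 0})
    (fun i A => Ok δ z i.2.1 {g | g.1 ∈ F0 ∧ g.1 ≠ 0} A) (by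
      intro i A hi
      obtain ⟨S, hS, W, hW, hWA, hWP⟩ := F1_fin δ z i.2.1 _ A hi
      exact ⟨W, hW, hWA, fun A' hA' => F1_mono δ z i.2.1 hS (hWP A' hA')⟩) (by
      intro A hA
      obtain ⟨N, t, ht, hOk⟩ := F1_one δ F0 z hz A hA
      exact ⟨⟨N, t, ht⟩, hOk⟩)
  obtain ⟨N, t', ht'0, hj⟩ := F1_join s
  have hall : ∀ A : ValuationSubring F, (∀ c : k, algebraMap k F c ∈ A) →
      Ok δ z t' {g | g.1 ∈ F0 ∧ g.1 ≠ 0} A := by
    intro A hA
    obtain ⟨i, hi, hOk⟩ := hs A hA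
    obtain ⟨j, hj1, hj2⟩ := hj i hi
    exact F1_ext δ F0 (fun f => Algebra.IsAlgebraic.isAlgebraic f) z i.2.1 t' ht'0 j hj1 hj2 A hA hOk
  obtain ⟨s2, hs2⟩ := F1_cover (k := k) (F := F)
    (I := {S : Finset (F × (Fin N → ℤ)) //
      (S : Set (F × (Fin N → ℤ))) ⊆ {g | g.1 ∈ F0 ∧ g.1 ≠ 0}})
    (fun i A => Ok δ z t' (i.1 : Set (F × (Fin N → ℤ))) A) (by
      intro i A hi
      obtain ⟨S, hS, W, hW, hWA, hWP⟩ := F1_fin δ z t' _ A hi
      exact ⟨W, hW, hWA, fun A' hA' => F1_mono δ z t' hS (hWP A' hA')⟩) (by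
      intro A hA
      obtain ⟨S, hS, W, hW, hWA, hWP⟩ := F1_fin δ z t' _ A (hall A hA)
      exact ⟨⟨S, hS⟩, hWP A hWA⟩)
  refine ⟨N, t', s2.biUnion (fun i => i.1), ht'0, ?_, ?_⟩
  · intro g hg
    obtain ⟨i, _, hi⟩ := Finset.mem_biUnion.1 hg
    exact i.2 hi
  · intro A hA
    obtain ⟨i, hi, hOk⟩ := hs2 A hA
    refine F1_mono δ z t' ?_ hOk
    intro g hg
    exact Finset.mem_coe.2 (Finset.mem_biUnion.2 ⟨i, hi, hg⟩)

end Pool.Agent.Lib.MP_17a322_nt.JAC
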