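import Pool.Agent.Lib.MP_17a322_nt.JAC.R2

universe u

namespace Pool.Agent.Lib.MP_17a322_nt.JAC

open MvPolynomial hiding psum
open Height NumberField
open Pool.Agent.Lib.MP_17a322_nt.EQ

/-- The evaluation of the Jacobian determinant. -/
private theorem R3_map {K : Type u} [Field K] {τ κ : Type} [Fintype τ] [DecidableEq τ]
    (Φ : κ → MvPolynomial τ K) (w : τ → K) (s : τ → κ) :
    (Matrix.of fun i j => eval w (pderiv j (Φ (s i)))).det =
      eval w (Matrix.of fun i j => pderiv j (Φ (s i))).det := by
  rw [RingHom.map_det]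
  rfl

/-- The right side of the inequality is nonnegative. -/
private theorem R3_nn {K : Type u} [Field K] [NumberField K] {τ κ : Type} [Fintype τ] [Fintype κ]
    (p : κ → K) (w : τ → K) {ε : ℝ} (hε : 0 < ε) :
    0 ≤ (Fintype.card τ : ℝ) * logHeight p + ε * logHeight w + 0 := by
  have h1 := logHeight_nonneg p
  have h2 := logHeight_nonneg w
  positivity

/-- Vojta's conjecture for `D = 0` and all projective varieties implies the inequality for polynomial maps. -/
theorem jac_of_gauss {K : Type u} [Field K] [NumberField K] (h : VojtaGauss K) : JacIneq K := by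
  intro τ κ _ _ _ Φ d hΦ ε hε
  by_cases h0 : ∀ s : τ → κ, (Matrix.of fun i j => pderiv j (Φ (s i))).det = 0
  · refine ⟨1, 0, one_ne_zero, ⟨0, isHomogeneous_one τ K⟩, fun w _ => ?_⟩
    have h1 : (fun s : τ → κ => (Matrix.of fun i j => eval w (pderiv j (Φ (s i)))).det) = 0 := by
      funext s
      rw [R3_map, h0 s, map_zero]
      rfl
    rw [h1, logHeight_zero]
    exact R3_nn _ _ hε
  · push Not at h0
    obtain ⟨s, hs⟩ := h0
    rcases isEmpty_or_nonempty τ with hτ | hτ
    · refine ⟨1, 0, one_ne_zero, ⟨0, isHomogeneous_one τ K⟩, fun w _ => ?_⟩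
      rw [logHeight_eq_zero_of_subsingleton]
      exact R3_nn _ _ hε
    · have hd : 0 < d := by
        rcases Nat.eq_zero_or_pos d with hd0 | hd0
        · exfalso
          apply hs
          have h2 : ∀ i j, pderiv j (Φ (s i)) = 0 := by
            intro i j
            have h3 := hΦ (s i)
            rw [hd0, ← totalDegree_zero_iff_isHomogeneous, totalDegree_eq_zero_iff_eq_C] at h3
            rw [h3, pderiv_C]
          have h4 : (Matrix.of fun i j => pderiv j (Φ (s i))) = (0 : Matrix τ τ (MvPolynomial τ K)) := by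
            ext1 i j
            exact h2 i j
          rw [h4, Matrix.det_zero]
        · exact hd0
      have hd1 : (0 : ℝ) < (d : ℝ) + 1 := by positivity
      obtain ⟨G0, C0, hG0, ⟨m, hm⟩, hG⟩ := h κ (imI Φ) (imI_prime Φ) (imI_homog Φ hd hΦ) (ε / (d + 1))
        (div_pos hε hd1)
      obtain ⟨C1, hC1⟩ := logHeight_eval_le' hΦ
      obtain ⟨H, hH0, ⟨d', hd'⟩, hH⟩ := hCan_image Φ hd hΦ s hs
      have hG1 : aeval Φ G0 ≠ 0 := hG0
      refine ⟨aeval Φ G0 * H, C0 + ε / (d + 1) * max C1 0, mul_ne_zero hG1 hH0,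
        ⟨_, (hm.aeval Φ hΦ).mul hd'⟩, fun w hw => ?_⟩
      rw [map_mul] at hw
      obtain ⟨hpt, hcan⟩ := hH w (right_ne_zero_of_mul hw)
      have h5 : eval (fun a => eval w (Φ a)) G0 = eval w (aeval Φ G0) := by
        rw [← coe_aeval_eq_eval, ← coe_aeval_eq_eval]
        have h6 : (aeval fun a => aeval w (Φ a) : MvPolynomial κ K →ₐ[K] K) = (aeval w).comp (aeval Φ) := by
          apply MvPolynomial.algHom_ext
          intro i
          simp
        exact DFunLike.congr_fun h6 G0
      have h7 := hG (fun a => eval w (Φ a)) hpt (by rw [h5]; exact left_ne_zero_of_mul hw)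
      rw [hcan] at h7
      have h8 := hC1 w
      have h9 := logHeight_nonneg w
      have he : 0 ≤ ε / ((d : ℝ) + 1) := (div_pos hε hd1).le
      have h10 : ε / ((d : ℝ) + 1) * logHeight (fun a => eval w (Φ a)) ≤
          ε / ((d : ℝ) + 1) * (max C1 0 + d * logHeight w) :=
        mul_le_mul_of_nonneg_left (h8.trans (by linarith [le_max_left C1 0])) he
      have h11 : ε / ((d : ℝ) + 1) * (d * logHeight w) ≤ ε * logHeight w := by
        rw [← mul_assoc]
        refine mul_le_mul_of_nonneg_right ?_ h9
        rw [div_mul_eq_mul_div, div_le_iff₀ hd1]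
        linarith
      linarith [mul_add (ε / ((d : ℝ) + 1)) (max C1 0) (d * logHeight w)]

end Pool.Agent.Lib.MP_17a322_nt.JAC
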