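import Pool.Agent.Lib.MP_17a322_nt.EQ.Q7
import Pool.Agent.Lib.MP_17a322_nt.AB.A7
import Pool.Agent.Lib.MP_17a322_nt.ABD.B12
import Pool.Agent.Lib.MP_17a322_nt.RAT.A2
import Pool.Agent.Lib.MP_17a322_nt.JAC.B14
import Pool.Agent.Lib.MP_17a322_nt.JAC.R3

/-!
The abc inequality for forms in several variables, the inequality for Jacobian minors and Vojta's
conjecture: the theorem.
-/

universe u

namespace Pool.Agent.Lib.MP_17a322_nt.JAC

open Pool.Agent.Lib.MP_17a322_nt.EQ
open Pool.Agent.Lib.MP_17a322_nt.AB (ABCIneq)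
open Pool.Agent.Lib.MP_17a322_nt.RAT (VojtaGaussRat)

/-- The three equivalent inequalities. -/
theorem abc_iff_gauss (K : Type u) [Field K] [NumberField K] :
    (ABCIneq K ↔ JacIneq K) ∧ (JacIneq K ↔ VojtaGauss K) :=
  ⟨⟨AB.jac_of_abc, ABD.abc_of_jac⟩, ⟨gauss_of_jac, jac_of_gauss⟩⟩

/-- Rational varieties are enough. -/
theorem rat_iff_gauss (K : Type u) [Field K] [NumberField K] : VojtaGaussRat K ↔ VojtaGauss K :=
  ⟨fun h => gauss_of_jac (RAT.jac_of_gaussRat h), fun h ι _ J hJ hh _ ε hε => h ι J hJ hh ε hε⟩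

/-- Vojta's conjecture for `D = 0` and all projective varieties implies Vojta's conjecture, also with
truncated counting functions. -/
theorem vojta_of_gauss {K : Type u} [Field K] [NumberField K] (h : VojtaGauss K) (n : ℕ) :
    VojtaZero K n ∧ Vojta K n ∧ VojtaTrunc K n := by
  have h0 : ∀ n, VojtaZero K n := fun n ι _ J hJ ε hε => h ι J hJ.prime hJ.homog ε hε
  have h1 : ∀ n, Vojta K n := fun n => (hz_main K n).1 (h0 (n + 1))
  exact ⟨h0 n, h1 n, (hz_main K n).2.1 (h1 (n + 1))⟩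

end Pool.Agent.Lib.MP_17a322_nt.JAC
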