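import Pool.Agent.Lib.MP_17a322_nt.JAC.B0

universe u

namespace Pool.Agent.Lib.MP_17a322_nt.JAC

open MvPolynomial hiding psum
open Height NumberField
open Pool.Agent.Lib.MP_17a322_nt.EQ

/-- The ideal of the image of the map given by the forms `Φ a`. -/
noncomputable def imI {K : Type u} [Field K] {τ κ : Type} (Φ : κ → MvPolynomial τ K) : Ideal (MvPolynomial κ K) :=
  RingHom.ker (aeval (R := K) Φ)

instance imI_prime {K : Type u} [Field K] {τ κ : Type} (Φ : κ → MvPolynomial τ K) : (imI Φ).IsPrime :=
  RingHom.ker_isPrime _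

/-- The homogeneous components of the value of `F` at forms. -/
private theorem R1_comp {K : Type u} [Field K] {τ κ : Type} (Φ : κ → MvPolynomial τ K) {d : ℕ}
    (hd : 0 < d) (hΦ : ∀ a, (Φ a).IsHomogeneous d) (F : MvPolynomial κ K) (k : ℕ) :
    homogeneousComponent (d * k) (aeval Φ F) = aeval Φ (homogeneousComponent k F) := by
  have h1 : ∀ j, (aeval Φ (homogeneousComponent j F)).IsHomogeneous (d * j) := fun j =>
    (homogeneousComponent_isHomogeneous j F).aeval Φ hΦ
  conv_lhs => rw [← sum_homogeneousComponent F]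
  rw [map_sum, map_sum]
  by_cases hk : k ∈ Finset.range (F.totalDegree + 1)
  · rw [Finset.sum_eq_single_of_mem k hk]
    · rw [homogeneousComponent_of_mem (h1 k), if_pos rfl]
    · intro j _ hj
      rw [homogeneousComponent_of_mem (h1 j), if_neg]
      intro h
      exact hj (Nat.eq_of_mul_eq_mul_left hd h).symm
  · rw [Finset.sum_eq_zero]
    · rw [Finset.mem_range, not_lt] at hk
      rw [homogeneousComponent_eq_zero k F (by omega), map_zero]
    · intro j hj
      rw [homogeneousComponent_of_mem (h1 j), if_neg]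
      intro h
      apply hk
      rw [Nat.eq_of_mul_eq_mul_left hd h]
      exact hj

/-- The ideal of the image is homogeneous. -/
theorem imI_homog {K : Type u} [Field K] {τ κ : Type} (Φ : κ → MvPolynomial τ K) {d : ℕ} (hd : 0 < d)
    (hΦ : ∀ a, (Φ a).IsHomogeneous d) : ∀ F ∈ imI Φ, ∀ i, homogeneousComponent i F ∈ imI Φ := by
  intro F hF i
  have h1 : aeval Φ F = 0 := hF
  change aeval Φ (homogeneousComponent i F) = 0
  rw [← R1_comp Φ hd hΦ F i, h1, map_zero]

/-- The chain rule. -/
private theorem R1_chain {K : Type u} [Field K] {τ σ : Type} [Fintype σ]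
    (g : σ → MvPolynomial τ K) (F : MvPolynomial σ K) (j : τ) :
    pderiv j (aeval g F) = ∑ o, aeval g (pderiv o F) * pderiv j (g o) := by
  classical
  induction F using MvPolynomial.induction_on with
  | C a =>
    rw [aeval_C, MvPolynomial.algebraMap_eq, pderiv_C, Finset.sum_eq_zero]
    intro o _
    rw [pderiv_C, map_zero, zero_mul]
  | add p q hp hq =>
    simp only [map_add, hp, hq, add_mul, Finset.sum_add_distrib]
  | mul_X p i hp =>
    have h1 : ∀ o, aeval g (pderiv o (p * X i)) * pderiv j (g o)
        = g i * (aeval g (pderiv o p) * pderiv j (g o))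
          + aeval g p * (aeval g (pderiv o (X i : MvPolynomial σ K)) * pderiv j (g o)) := by
      intro o
      rw [Derivation.leibniz, smul_eq_mul, smul_eq_mul, map_add, map_mul, map_mul, aeval_X]
      ring
    rw [Finset.sum_congr rfl fun o _ => h1 o, Finset.sum_add_distrib, ← Finset.mul_sum,
      ← Finset.mul_sum, ← hp, Finset.sum_eq_single i]
    · rw [pderiv_X_self, map_one, one_mul, map_mul, aeval_X, Derivation.leibniz, smul_eq_mul,
        smul_eq_mul]
      ring
    · intro o _ ho
      rw [pderiv_X_of_ne (Ne.symm ho), map_zero, zero_mul]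
    · intro h
      exact absurd (Finset.mem_univ i) h

/-- More polynomials than variables are algebraically dependent. -/
private theorem R1_dep {K : Type u} [Field K] {τ : Type} [Fintype τ]
    (g : Option τ → MvPolynomial τ K) : ∃ F : MvPolynomial (Option τ) K, F ≠ 0 ∧ aeval g F = 0 := by
  by_contra hcon
  push Not at hcon
  have h1 : AlgebraicIndependent K g := by
    rw [algebraicIndependent_iff]
    intro F hF
    by_contra h0
    exact hcon F h0 hF
  have h2 := h1.lift_cardinalMk_le_trdeg
  rw [MvPolynomial.trdeg_of_isDomain, Cardinal.mk_fintype, Cardinal.mk_fintype,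
    Fintype.card_option] at h2
  simp only [Cardinal.lift_natCast, Nat.cast_le] at h2
  omega

/-- The Jacobian criterion: a relation between the forms which involves `Φ a`. -/
theorem exists_rel {K : Type u} [Field K] [CharZero K] {τ κ : Type} [Fintype τ] [DecidableEq τ] (Φ : κ → MvPolynomial τ K)
    {d : ℕ} (hd : 0 < d) (hΦ : ∀ a, (Φ a).IsHomogeneous d) (s : τ → κ)
    (hs : (Matrix.of fun i j => pderiv j (Φ (s i))).det ≠ 0) (a : κ) (ha : a ∉ Set.range s) :
    ∃ (m : ℕ) (F : MvPolynomial κ K), F.IsHomogeneous m ∧ F ∈ imI Φ ∧ aeval Φ (pderiv a F) ≠ 0 ∧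
      ∀ b, b ≠ a → b ∉ Set.range s → pderiv b F = 0 := by
  classical
  have hsinj : Function.Injective s := by
    intro i i' hii
    by_contra hne
    apply hs
    exact Matrix.det_zero_of_row_eq hne (by funext j; simp [hii])
  set c : Option τ → κ := fun o => o.elim a s with hc
  have hcn : c none = a := rfl
  have hcs : ∀ i, c (some i) = s i := fun _ => rfl
  have hcinj : Function.Injective c := by
    rintro (_ | i) (_ | i') h
    · rfl
    · exact absurd ⟨i', h.symm⟩ ha
    · exact absurd ⟨i, h⟩ ha
    · exact congrArg some (hsinj h)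
  have hg : ∀ o, (Φ (c o)).IsHomogeneous d := fun o => hΦ _
  set g : Option τ → MvPolynomial τ K := fun o => Φ (c o) with hgdef
  -- a form of minimal degree
  have hex : ∃ m : ℕ, ∃ F : MvPolynomial (Option τ) K, F.IsHomogeneous m ∧ F ≠ 0 ∧
      aeval g F = 0 := by
    obtain ⟨F, hF0, hF⟩ := R1_dep g
    have h1 : ∃ k, homogeneousComponent k F ≠ 0 := by
      by_contra hcon
      push Not at hcon
      apply hF0
      rw [← sum_homogeneousComponent F]
      exact Finset.sum_eq_zero fun k _ => hcon k
    obtain ⟨k, hk⟩ := h1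
    exact ⟨k, homogeneousComponent k F, homogeneousComponent_isHomogeneous k F, hk,
      imI_homog g hd hg F hF k⟩
  obtain ⟨F, hFhom, hF0, hF⟩ := Nat.find_spec hex
  set m := Nat.find hex with hm
  have hmin : ∀ m' < m, ∀ G : MvPolynomial (Option τ) K, G.IsHomogeneous m' → G ≠ 0 →
      aeval g G ≠ 0 := by
    intro m' hm' G hG hG0 hGz
    exact Nat.find_min hex hm' ⟨G, hG, hG0, hGz⟩
  have hm1 : 1 ≤ m := by
    by_contra h0
    have h1 : m = 0 := by omega
    rw [h1] at hFhom
    have h2 : F = C (coeff 0 F) :=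
      totalDegree_eq_zero_iff_eq_C.1 ((totalDegree_zero_iff_isHomogeneous _).2 hFhom)
    rw [h2, aeval_C, MvPolynomial.algebraMap_eq, C_eq_zero] at hF
    rw [hF, C_0] at h2
    exact hF0 h2
  have hd1 : ∃ o, pderiv o F ≠ 0 := by
    by_contra hcon
    push Not at hcon
    have h1 := hFhom.sum_X_mul_pderiv
    rw [Finset.sum_eq_zero (fun o _ => by rw [hcon o, mul_zero])] at h1
    rw [eq_comm, nsmul_eq_mul, mul_eq_zero] at h1
    rcases h1 with h1 | h1
    · rw [Nat.cast_eq_zero] at h1
      omega
    · exact hF0 h1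
  have hev : ∀ o, pderiv o F ≠ 0 → aeval g (pderiv o F) ≠ 0 := by
    intro o ho
    exact hmin (m - 1) (by omega) _ (hFhom.pderiv (i := o)) ho
  have hchain : ∀ j, ∑ o, aeval g (pderiv o F) * pderiv j (g o) = 0 := by
    intro j
    rw [← R1_chain g F j, hF, map_zero]
  have hnone : aeval g (pderiv none F) ≠ 0 := by
    intro h0
    have h1 : (fun i : τ => aeval g (pderiv (some i) F)) = 0 := by
      apply Matrix.eq_zero_of_vecMul_eq_zero hs
      funext j
      have h2 := hchain j
      rw [Fintype.sum_option, h0, zero_mul, zero_add] at h2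
      exact h2
    obtain ⟨o, ho⟩ := hd1
    rcases o with _ | i
    · exact hev none ho h0
    · exact hev (some i) ho (congrFun h1 i)
  refine ⟨m, rename c F, hFhom.rename_isHomogeneous, ?_, ?_, ?_⟩
  · change aeval Φ (rename c F) = 0
    rw [aeval_rename]
    exact hF
  · have h1 : pderiv a (rename c F) = rename c (pderiv none F) := pderiv_rename hcinj none F
    rw [h1, aeval_rename]
    exact hnone
  · intro b hba hbs
    apply pderiv_eq_zero_of_notMem_vars
    intro hb
    obtain ⟨o, _, rfl⟩ := mem_vars_rename c F hb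
    rcases o with _ | i
    · exact hba rfl
    · exact hbs ⟨i, rfl⟩

end Pool.Agent.Lib.MP_17a322_nt.JAC
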