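import Pool.Agent.Lib.MP_17a322_nt.JAC.R1
import Pool.Agent.Lib.MP_17a322_nt.EQ.H1

universe u

namespace Pool.Agent.Lib.MP_17a322_nt.JAC

open MvPolynomial hiding psum
open Height NumberField
open Pool.Agent.Lib.MP_17a322_nt.EQ

private theorem R2_det {R : Type*} [CommRing R] {σ γ : Type*} [Fintype γ] [DecidableEq γ]
    (M : Matrix γ γ (MvPolynomial σ R)) (D : ℕ)
    (h : ∀ i j, (M i j).IsHomogeneous D) : M.det.IsHomogeneous (∑ _i : γ, D) := by
  rw [Matrix.det_apply]
  refine IsHomogeneous.sum _ _ _ fun τ _ => ?_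
  have h1 := IsHomogeneous.prod Finset.univ (fun i => M (τ i) i) (fun _ => D)
    fun i _ => h (τ i) i
  rcases Int.units_eq_one_or (Equiv.Perm.sign τ) with h2 | h2
  · rw [h2, one_smul]
    exact h1
  · rw [h2, Units.neg_smul, one_smul]
    exact h1.neg

private theorem R2_dif {K : Type u} [Field K] {τ : Type} [Fintype τ] [DecidableEq τ] (w : τ → K)
    (F : MvPolynomial τ K) (j : τ) :
    dif w F (Pi.single j (1 : K)) = eval w (pderiv j F) := by
  rw [dif_apply, Finset.sum_eq_single j]
  · rw [Pi.single_eq_same, mul_one]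
    rfl
  · intro i _ hi
    rw [Pi.single_eq_of_ne hi, mul_zero]
  · intro h
    exact absurd (Finset.mem_univ j) h

private theorem R2_zero {K : Type u} [Field K] {τ κ : Type} (Φ : κ → MvPolynomial τ K)
    (w : τ → K) {F : MvPolynomial κ K} (hF : F ∈ imI Φ) :
    aeval (fun a => eval w (Φ a)) F = 0 := by
  have h1 : aeval Φ F = 0 := hF
  have h2 : aeval w (aeval Φ F) = aeval (fun a => aeval w (Φ a)) F := by
    rw [MvPolynomial.comp_aeval_apply]
  rw [h1, map_zero] at h2
  exact h2.symm

private theorem R2_tan {K : Type u} [Field K] {τ κ : Type} [Fintype τ] [DecidableEq τ]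
    [Fintype κ] (Φ : κ → MvPolynomial τ K) (w : τ → K) (j : τ) :
    (fun a => eval w (pderiv j (Φ a))) ∈ Tan (imI Φ) (fun a => eval w (Φ a)) := by
  rw [mem_Tan]
  intro F hF
  have h1 : aeval Φ F = 0 := hF
  have h2 := dif_aeval w Φ F (Pi.single j (1 : K))
  rw [h1, dif_zero] at h2
  have h3 : (fun a => dif w (Φ a) (Pi.single j (1 : K))) =
      fun a => eval w (pderiv j (Φ a)) := by
    funext a
    exact R2_dif w (Φ a) j
  rw [h3] at h2
  exact h2.symm

private theorem R2_map {σ : Type*} {R S : Type*} [CommRing R] [CommRing S] {γ : Type*} [Fintype γ]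
    [DecidableEq γ] (f : MvPolynomial σ R →+* S) (M : γ → γ → MvPolynomial σ R) :
    f (Matrix.of M).det = (Matrix.of fun i j => f (M i j)).det := by
  rw [RingHom.map_det]
  rfl

/-- The canonical height at the points of the image of the map given by forms. -/
theorem hCan_image {K : Type u} [Field K] [NumberField K] {τ κ : Type} [Fintype τ] [DecidableEq τ] [Nonempty τ] [Fintype κ]
    (Φ : κ → MvPolynomial τ K) {d : ℕ} (hd : 0 < d) (hΦ : ∀ a, (Φ a).IsHomogeneous d) (s : τ → κ)
    (hs : (Matrix.of fun i j => pderiv j (Φ (s i))).det ≠ 0) :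
    ∃ H : MvPolynomial τ K, H ≠ 0 ∧ (∃ d', H.IsHomogeneous d') ∧ ∀ w : τ → K, eval w H ≠ 0 →
      IsPt (imI Φ) (fun a => eval w (Φ a)) ∧
      hCan (imI Φ) (fun a => eval w (Φ a)) =
        logHeight (fun s : τ → κ => (Matrix.of fun i j => eval w (pderiv j (Φ (s i)))).det) -
          Fintype.card τ * logHeight (fun a => eval w (Φ a)) := by
  classical
  obtain ⟨i₀⟩ := (inferInstance : Nonempty τ)
  choose m F hF1 hF2 hF3 hF4 using
    fun a : {a : κ // a ∉ Set.range s} => exists_rel Φ hd hΦ s hs a.1 a.2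
  have hΦ0 : Φ (s i₀) ≠ 0 := by
    intro h
    apply hs
    apply Matrix.det_eq_zero_of_row_eq_zero i₀
    intro j
    rw [Matrix.of_apply, h, map_zero]
  refine ⟨(Matrix.of fun i j => pderiv j (Φ (s i))).det * Φ (s i₀) *
    ∏ a : {a : κ // a ∉ Set.range s}, aeval Φ (pderiv a.1 (F a)), ?_, ?_, ?_⟩
  · exact mul_ne_zero (mul_ne_zero hs hΦ0) (Finset.prod_ne_zero_iff.2 fun a _ => hF3 a)
  · refine ⟨_, IsHomogeneous.mul (IsHomogeneous.mul (R2_det _ (d - 1) fun i j => (hΦ (s i)).pderiv)
      (hΦ (s i₀))) (IsHomogeneous.prod _ _ (fun a => d * (m a - 1)) fun a _ =>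
        (hF1 a).pderiv.aeval _ hΦ)⟩
  intro w hw
  rw [map_mul, map_mul, map_prod] at hw
  obtain ⟨hw1, hw3⟩ := mul_ne_zero_iff.1 hw
  obtain ⟨hw1, hw2⟩ := mul_ne_zero_iff.1 hw1
  rw [Finset.prod_ne_zero_iff] at hw3
  rw [R2_map] at hw1
  set p : κ → K := fun a => eval w (Φ a) with hp
  have hpt : IsPt (imI Φ) p := by
    refine ⟨fun h => hw2 (congrFun h (s i₀)), fun G hG => R2_zero Φ w hG⟩
  refine ⟨hpt, ?_⟩
  -- the vectors
  set e : Fin (Fintype.card τ) ≃ τ := (Fintype.equivFin τ).symm with he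
  set y : Fin (Fintype.card τ) → κ → K := fun k a => eval w (pderiv (e k) (Φ a)) with hy
  have hyT : ∀ k, y k ∈ Tan (imI Φ) p := fun k => R2_tan Φ w (e k)
  -- minors
  have hmin : ∀ t : Fin (Fintype.card τ) → κ, (Matrix.of fun a b => y a (t b)).det =
      (Matrix.of fun i j => eval w (pderiv j (Φ ((t ∘ e.symm) i)))).det := by
    intro t
    rw [← Matrix.det_transpose, ← Matrix.det_submatrix_equiv_self e
      (Matrix.of fun i j => eval w (pderiv j (Φ ((t ∘ e.symm) i))))]
    congr 1
    ext a b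
    simp only [Matrix.transpose_apply, Matrix.of_apply, Matrix.submatrix_apply,
      Function.comp_apply, Equiv.symm_apply_apply, hy]
  have hyi : LinearIndependent K y := by
    have h1 : (Matrix.of fun a b => y a ((s ∘ e) b)).det ≠ 0 := by
      rw [hmin]
      have h2 : (s ∘ e) ∘ e.symm = s := by
        funext i
        simp
      rw [h2]
      exact hw1
    have h2 := Matrix.linearIndependent_rows_of_det_ne_zero h1
    have h3 : (fun i => (Matrix.of fun a b => y a ((s ∘ e) b)) i) =
        (LinearMap.funLeft K K (s ∘ e)) ∘ y := by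
      funext a b
      rfl
    rw [h3] at h2
    exact LinearIndependent.of_comp _ h2
  -- the dimension
  have hinj : Function.Injective ((LinearMap.funLeft K K s).domRestrict (Tan (imI Φ) p)) := by
    rw [← LinearMap.ker_eq_bot, LinearMap.ker_eq_bot']
    rintro ⟨z, hz⟩ hz0
    have hzs : ∀ i, z (s i) = 0 := fun i => congrFun hz0 i
    rw [Submodule.mk_eq_zero]
    funext b
    rw [Pi.zero_apply]
    by_cases hb : b ∈ Set.range s
    · obtain ⟨i, rfl⟩ := hb
      exact hzs i
    · rw [mem_Tan] at hz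
      have h1 := hz _ (hF2 ⟨b, hb⟩)
      rw [dif_apply, Finset.sum_eq_single b] at h1
      · have h2 : aeval p (pderiv b (F ⟨b, hb⟩)) ≠ 0 := by
          have h3 := hw3 ⟨b, hb⟩ (Finset.mem_univ _)
          have h4 : aeval w (aeval Φ (pderiv b (F ⟨b, hb⟩))) =
              aeval (fun a => aeval w (Φ a)) (pderiv b (F ⟨b, hb⟩)) := by
            rw [MvPolynomial.comp_aeval_apply]
          intro h5
          apply h3
          exact h4.trans h5
        exact (mul_eq_zero.1 h1).resolve_left h2
      · intro c _ hc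
        by_cases hc' : c ∈ Set.range s
        · obtain ⟨i, rfl⟩ := hc'
          rw [hzs i, mul_zero]
        · rw [hF4 ⟨b, hb⟩ c hc hc', map_zero, zero_mul]
      · intro h
        exact absurd (Finset.mem_univ b) h
  have hfin : Module.finrank K (Tan (imI Φ) p) = Fintype.card τ := by
    apply le_antisymm
    · have h1 := LinearMap.finrank_le_finrank_of_injective hinj
      rwa [Module.finrank_fintype_fun_eq_card] at h1
    · have h1 : LinearIndependent K (fun k => (⟨y k, hyT k⟩ : Tan (imI Φ) p)) := by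
        apply LinearIndependent.of_comp (Tan (imI Φ) p).subtype
        exact hyi
      have h2 := h1.fintype_card_le_finrank
      rwa [Fintype.card_fin] at h2
  unfold hCan
  rw [hPl_eq (Tan (imI Φ) p) hfin y hyT hyi, hfin]
  congr 1
  have hE := logHeight_comp_equiv (K := K) (Equiv.arrowCongr e (Equiv.refl κ))
    (fun s : τ → κ => (Matrix.of fun i j => eval w (pderiv j (Φ (s i)))).det)
  rw [← hE]
  congr 1
  funext t
  rw [hmin t]
  rfl

end Pool.Agent.Lib.MP_17a322_nt.JAC
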