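import Mathlib

/-!
Valued fields: basic definitions.
-/

namespace Pool.Agent.Lib.MP_17a322_nt.JAC

open MvPolynomial

section

variable {E V : Type*} [Field E] [AddCommGroup V] [Module E V]

/-- The additive group generated by the vectors `a • b` with `a ∈ O` and `b ∈ s`. -/
def spn (O : ValuationSubring E) (s : Set V) : AddSubgroup V :=
  AddSubgroup.closure {v | ∃ a ∈ O, ∃ b ∈ s, v = a • b}

theorem subset_spn (O : ValuationSubring E) (s : Set V) {a : E} (ha : a ∈ O) {b : V} (hb : b ∈ s) :
    a • b ∈ spn O s :=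
  AddSubgroup.subset_closure ⟨a, ha, b, hb, rfl⟩

theorem mem_spn (O : ValuationSubring E) (s : Set V) {b : V} (hb : b ∈ s) : b ∈ spn O s := by
  simpa using subset_spn O s O.one_mem hb

theorem smul_mem_spn (O : ValuationSubring E) (s : Set V) {a : E} (ha : a ∈ O) {v : V}
    (hv : v ∈ spn O s) : a • v ∈ spn O s := by
  induction hv using AddSubgroup.closure_induction with
  | mem v hv =>
    obtain ⟨c, hc, b, hb, rfl⟩ := hv
    rw [smul_smul]
    exact subset_spn O s (O.mul_mem _ _ ha hc) hb
  | zero => rw [smul_zero]; exact zero_mem _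
  | add v w _ _ hv hw => rw [smul_add]; exact add_mem hv hw
  | neg v _ hv => rw [smul_neg]; exact neg_mem hv

theorem spn_mono (O : ValuationSubring E) {s s' : Set V} (h : s ⊆ spn O s') : spn O s ≤ spn O s' := by
  refine (AddSubgroup.closure_le _).2 ?_
  rintro v ⟨a, ha, b, hb, rfl⟩
  exact smul_mem_spn O s' ha (h hb)

end

section

variable {F α σ : Type*} [Field F] [Fintype σ]

/-- The value of the monomial `b * t ^ m`, `g = (b, m)`. -/
noncomputable def vl (t : σ → F) (g : F × (σ → ℤ)) : F := g.1 * ∏ s, t s ^ g.2 s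

/-- The product of the monomials `g i` and of the determinant of their logarithmic derivatives. -/
noncomputable def GM [Fintype α] [DecidableEq α] [DecidableEq σ] (δ : α → F → F) (t : σ → F)
    (g : α ⊕ σ → F × (σ → ℤ)) : F :=
  (∏ i, vl t (g i)) *
    (Matrix.of fun i j => Sum.elim (fun l => δ l (g i).1 / (g i).1) (fun s => ((g i).2 s : F)) j).det

end

section

variable {k F ι α σ : Type*} [Field k] [Field F] [Algebra k F] [Fintype α] [DecidableEq α]
  [Fintype σ] [DecidableEq σ]

/-- The main condition on the valuation ring `A`: the Jacobian determinants of the local coordinates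
`z a / z b` are multiples of the numbers `GM` of monomials in `A`. -/
def Ok (δ : α → Derivation k F F) (z : ι → F) (t : σ → F) (S : Set (F × (σ → ℤ)))
    (A : ValuationSubring F) : Prop :=
  ∃ b : ι, z b ≠ 0 ∧ (∀ a, z a / z b ∈ A) ∧ ∀ Y : α → ι, ∃ g : α ⊕ σ → F × (σ → ℤ),
    (∀ i, g i ∈ S ∧ vl t (g i) ∈ A) ∧
      ∃ a ∈ A, (Matrix.of fun i l => δ l (z (Y i) / z b)).det = a * GM (fun l => δ l) t g

end

end Pool.Agent.Lib.MP_17a322_nt.JAC
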